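import Pool.Agent.W_9986fc_h24.Prod.Cover
import Pool.Agent.W_9986fc_h15.SurfB
import Pool.Agent.W_9986fc_h15.PrimB

/-!
The mixed form `cross w` of a quasi-invariant function `w`.
-/

set_option autoImplicit false
set_option maxSynthPendingDepth 3

open scoped ContDiff
open Pool.Agent.W_9986fc_h15 MeasureTheory

namespace Pool.Agent.W_9986fc_h24

variable {E₁ E₂ : Type*} [NormedAddCommGroup E₁] [NormedSpace ℝ E₁] [FiniteDimensional ℝ E₁]
  [NormedAddCommGroup E₂] [NormedSpace ℝ E₂] [FiniteDimensional ℝ E₂]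
  {Γ₁ Γ₂ : Type*} [Group Γ₁] [Group Γ₂] [MulAction Γ₁ E₁] [MulAction Γ₂ E₂]

omit [FiniteDimensional ℝ E₁] [FiniteDimensional ℝ E₂] in
theorem contDiff_dx (w : E₁ × E₂ → ℝ) (hw : ContDiff ℝ ∞ w) : ContDiff ℝ ∞ (dx w) := by
  exact (hw.fderiv_right (m := ∞) (by simp)).clm_comp contDiff_const

omit [FiniteDimensional ℝ E₁] [FiniteDimensional ℝ E₂] in
/-- The value of `cross w`. -/
theorem cross_apply (w : E₁ × E₂ → ℝ) (hw : ContDiff ℝ ∞ w) (x u u' : E₁ × E₂) :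
    cross w x u u' = fderiv ℝ (fderiv ℝ w) x (0, u.2) (u'.1, 0) -
      fderiv ℝ (fderiv ℝ w) x (0, u'.2) (u.1, 0) := by
  have h1 : ∀ v v' : E₁ × E₂, fderiv ℝ (dx w) x v v' =
      fderiv ℝ (fderiv ℝ w) x v (v'.1, 0) := by
    intro v v'
    have hd : HasFDerivAt (fderiv ℝ w) (fderiv ℝ (fderiv ℝ w) x) x :=
      (((hw.fderiv_right (m := ∞) (by simp)).differentiable (by simp)) x).hasFDerivAt
    have hc : HasFDerivAt (dx w) _ x := hd.clm_comp
      (hasFDerivAt_const ((ContinuousLinearMap.inl ℝ E₁ E₂).comp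
        (ContinuousLinearMap.fst ℝ E₁ E₂)) x)
    rw [hc.fderiv]
    simp
  have hs : IsSymmSndFDerivAt ℝ w x := hw.contDiffAt.isSymmSndFDerivAt (by
    simp only [minSmoothness_of_isRCLikeNormedField]
    exact ENat.LEInfty.out)
  have h2 : cross w x u u' = fderiv ℝ (dx w) x u u' - fderiv ℝ (dx w) x u' u := rfl
  rw [h2, h1, h1]
  have e1 : u = (u.1, 0) + (0, u.2) := by simp
  have e2 : u' = (u'.1, 0) + (0, u'.2) := by simp
  have h3 : fderiv ℝ (fderiv ℝ w) x u (u'.1, 0) =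
      fderiv ℝ (fderiv ℝ w) x (u.1, 0) (u'.1, 0) + fderiv ℝ (fderiv ℝ w) x (0, u.2) (u'.1, 0) := by
    conv_lhs => rw [e1]
    rw [map_add]
    rfl
  have h4 : fderiv ℝ (fderiv ℝ w) x u' (u.1, 0) =
      fderiv ℝ (fderiv ℝ w) x (u'.1, 0) (u.1, 0) + fderiv ℝ (fderiv ℝ w) x (0, u'.2) (u.1, 0) := by
    conv_lhs => rw [e2]
    rw [map_add]
    rfl
  rw [h3, h4, hs.eq (u.1, 0) (u'.1, 0)]
  ring

/-- The form `dx w` is invariant under `Γ₁`: differentiate `w (g • x, y) = w (x, y) + U y` in the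
direction of `E₁`. -/
theorem pull1_dx_left (h₁ : IsCover E₁ Γ₁) (w : E₁ × E₂ → ℝ) (hw : Quasi Γ₁ Γ₂ w) (g : Γ₁)
    (x : E₁ × E₂) : pull1 (actL g) (dx w) x = dx w x := by
  obtain ⟨U, hU, hUw⟩ := hw.left g
  have hw1 : HasFDerivAt w (fderiv ℝ w (actL g x)) (actL g x) :=
    (hw.smooth.differentiable (by simp) _).hasFDerivAt
  have ha : HasFDerivAt (actL g : E₁ × E₂ → E₁ × E₂) (fderiv ℝ (actL g) x) x :=
    ((contDiff_actL (E₂ := E₂) h₁ g).differentiable (by simp) x).hasFDerivAt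
  have hc := hw1.comp x ha
  have hw2 : HasFDerivAt w (fderiv ℝ w x) x := (hw.smooth.differentiable (by simp) _).hasFDerivAt
  have hU1 : HasFDerivAt (fun z : E₁ × E₂ => U z.2)
      ((fderiv ℝ U x.2).comp (ContinuousLinearMap.snd ℝ E₁ E₂)) x :=
    ((hU.differentiable (by simp) x.2).hasFDerivAt).comp x hasFDerivAt_snd
  have hsum := hw2.add hU1
  have heq : w ∘ (actL g : E₁ × E₂ → E₁ × E₂) = fun z => w z + U z.2 := by
    funext z
    exact hUw z.1 z.2
  rw [heq] at hc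
  have key := hc.unique hsum
  refine ContinuousLinearMap.ext fun v => ?_
  have h1 := congrArg (fun L : (E₁ × E₂) →L[ℝ] ℝ => L (v.1, 0)) key
  simp only [ContinuousLinearMap.comp_apply, _root_.add_apply, ContinuousLinearMap.coe_snd',
    map_zero, add_zero] at h1
  rw [fderiv_actL h₁] at h1
  have h2 : pull1 (actL g) (dx w) x v = fderiv ℝ w (actL g x)
      ((((fderiv ℝ (fun x : E₁ => g • x) x.1).prodMap (ContinuousLinearMap.id ℝ E₂)) v).1, 0) := by
    unfold pull1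
    rw [fderiv_actL h₁]
    rfl
  rw [h2]
  have h3 : ((fderiv ℝ (fun x : E₁ => g • x) x.1).prodMap (ContinuousLinearMap.id ℝ E₂)) (v.1, 0) =
      ((((fderiv ℝ (fun x : E₁ => g • x) x.1).prodMap (ContinuousLinearMap.id ℝ E₂)) v).1, 0) := by
    simp
  rw [h3] at h1
  rw [h1]
  rfl

/-- If `w (x, g • y) = w (x, y) + U x`, then `(actR g)^* (dx w) = dx w + dU`. -/
theorem pull1_dx_right (h₂ : IsCover E₂ Γ₂) (w : E₁ × E₂ → ℝ) (hw : ContDiff ℝ ∞ w) (g : Γ₂)
    (U : E₁ → ℝ) (hU : ContDiff ℝ ∞ U) (hg : ∀ x y, w (x, g • y) = w (x, y) + U x)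
    (x : E₁ × E₂) :
    pull1 (actR g) (dx w) x = dx w x + fderiv ℝ (fun x : E₁ × E₂ => U x.1) x := by
  have hw1 : HasFDerivAt w (fderiv ℝ w (actR g x)) (actR g x) :=
    (hw.differentiable (by simp) _).hasFDerivAt
  have ha : HasFDerivAt (actR g : E₁ × E₂ → E₁ × E₂) (fderiv ℝ (actR g) x) x :=
    ((contDiff_actR (E₁ := E₁) h₂ g).differentiable (by simp) x).hasFDerivAt
  have hc := hw1.comp x ha
  have hw2 : HasFDerivAt w (fderiv ℝ w x) x := (hw.differentiable (by simp) _).hasFDerivAt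
  have hU1 : HasFDerivAt (fun z : E₁ × E₂ => U z.1)
      ((fderiv ℝ U x.1).comp (ContinuousLinearMap.fst ℝ E₁ E₂)) x :=
    ((hU.differentiable (by simp) x.1).hasFDerivAt).comp x hasFDerivAt_fst
  have hsum := hw2.add hU1
  have heq : w ∘ (actR g : E₁ × E₂ → E₁ × E₂) = fun z => w z + U z.1 := by
    funext z
    exact hg z.1 z.2
  rw [heq] at hc
  have key := hc.unique hsum
  refine ContinuousLinearMap.ext fun v => ?_
  have h1 := congrArg (fun L : (E₁ × E₂) →L[ℝ] ℝ => L (v.1, 0)) key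
  simp only [ContinuousLinearMap.comp_apply, _root_.add_apply,
    ContinuousLinearMap.coe_fst'] at h1
  rw [fderiv_actR h₂] at h1
  have h2 : pull1 (actR g) (dx w) x v = fderiv ℝ w (actR g x) (v.1, 0) := by
    unfold pull1
    rw [fderiv_actR h₂]
    rfl
  rw [h2]
  have h3 : ((ContinuousLinearMap.id ℝ E₁).prodMap (fderiv ℝ (fun x : E₂ => g • x) x.2)) (v.1, 0) =
      (v.1, 0) := by
    simp
  rw [h3] at h1
  rw [h1, _root_.add_apply, hU1.fderiv]
  rfl

omit [FiniteDimensional ℝ E₁] [FiniteDimensional ℝ E₂] in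
theorem closed_cross (w : E₁ × E₂ → ℝ) (hw : ContDiff ℝ ∞ w) : Closed (cross w) := by
  exact closed_d1 (contDiff_dx w hw)

end Pool.Agent.W_9986fc_h24
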