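import Pool.Agent.W_9986fc_h24.Prod.MuA

/-!
The forms `muF`.
-/

set_option autoImplicit false
set_option maxSynthPendingDepth 3

open scoped ContDiff
open Pool.Agent.W_9986fc_h15 MeasureTheory

namespace Pool.Agent.W_9986fc_h24

variable {E₁ E₂ : Type*} [NormedAddCommGroup E₁] [NormedSpace ℝ E₁] [FiniteDimensional ℝ E₁]
  [NormedAddCommGroup E₂] [NormedSpace ℝ E₂] [FiniteDimensional ℝ E₂]
  {Γ₁ Γ₂ : Type*} [Group Γ₁] [Group Γ₂] [MulAction Γ₁ E₁] [MulAction Γ₂ E₂]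

/-- `muF` is invariant under `Γ₁` if the functions `m g` are. -/
theorem muF_left (h₁ : IsCover E₁ Γ₁) (h₂ : IsCover E₂ Γ₂) {χ : E₂ → ℝ} (hχ : Part Γ₂ χ)
    (m : Γ₂ → E₁ × E₂ → ℝ) (hl : ∀ (h : Γ₁) (g : Γ₂) x, m g (actL h x) = m g x)
    (g : Γ₁) (x : E₁ × E₂) : pull1 (actL g) (muF χ m) x = muF χ m x := by
  have h1 : pull1 (actL g) (muF χ m) x =
      preL (fderiv ℝ (actL g) x) (∑ᶠ h : Γ₂, m h (actL g x) •
        (fderiv ℝ (fun y : E₂ => χ (h • y)) (actL g x).2).comp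
          (ContinuousLinearMap.snd ℝ E₁ E₂)) := rfl
  rw [h1, CSup.clm h₂ (csup_mu h₂ hχ m)]
  refine finsum_congr fun h => ?_
  rw [map_smul, hl]
  congr 1
  show ((fderiv ℝ (fun y : E₂ => χ (h • y)) x.2).comp
    (ContinuousLinearMap.snd ℝ E₁ E₂)).comp (fderiv ℝ (actL g) x) = _
  rw [fderiv_actL h₁]
  rfl

omit [FiniteDimensional ℝ E₁] in
/-- The sum of the derivatives of `χ ∘ g` after the second projection is zero. -/
theorem sum_snd (h₂ : IsCover E₂ Γ₂) {χ : E₂ → ℝ} (hχ : Part Γ₂ χ) (x : E₁ × E₂) (c : ℝ) :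
    ∑ᶠ g : Γ₂, c • (fderiv ℝ (fun y : E₂ => χ (g • y)) x.2).comp
      (ContinuousLinearMap.snd ℝ E₁ E₂) = 0 := by
  have hC := CSup.sup_fderiv h₂ (continuous_id' : Continuous fun z : E₂ => z)
    (GSum_aux1 (Γ := Γ₂) hχ.compact)
  have h1 := CSup.clm h₂ hC
    ({ toFun := fun T => c • T.comp (ContinuousLinearMap.snd ℝ E₁ E₂)
       map_add' := fun S T => by rw [ContinuousLinearMap.add_comp, smul_add]
       map_smul' := fun r T => by
        rw [ContinuousLinearMap.smul_comp, smul_comm]; rfl } :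
        (E₂ →L[ℝ] ℝ) →ₗ[ℝ] ((E₁ × E₂) →L[ℝ] ℝ)) x.2
  have h2 := hχ.fderiv_sum h₂ x.2
  have h3 : (∑ᶠ g : Γ₂, (fun (g : Γ₂) => fderiv ℝ (fun z : E₂ => χ (g • z))) g x.2) = 0 := h2
  rw [h3, map_zero] at h1
  exact h1.symm

/-- `muF` is invariant under `Γ₂` if `m` is a cocycle: at the point `(x, y)`,
`(actR g')^* (∑ m g d(χ ∘ g)) = ∑ m g (x, g' y) d(χ ∘ (g g')) =
∑ (m (g g') - m g') d(χ ∘ (g g')) = ∑ m g d(χ ∘ g) - m g' ∑ d(χ ∘ g)`, and the last sum is zero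
(`Part.fderiv_sum`). -/
theorem muF_right (h₂ : IsCover E₂ Γ₂) {χ : E₂ → ℝ} (hχ : Part Γ₂ χ)
    (m : Γ₂ → E₁ × E₂ → ℝ) (hm : ∀ g, ContDiff ℝ ∞ (m g))
    (hc : ∀ (g g' : Γ₂) x, m (g * g') x = m g (actR g' x) + m g' x)
    (g : Γ₂) (x : E₁ × E₂) : pull1 (actR g) (muF χ m) x = muF χ m x := by
  have h1 : pull1 (actR g) (muF χ m) x =
      preL (fderiv ℝ (actR g) x) (∑ᶠ h : Γ₂, m h (actR g x) •
        (fderiv ℝ (fun y : E₂ => χ (h • y)) (actR g x).2).comp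
          (ContinuousLinearMap.snd ℝ E₁ E₂)) := rfl
  rw [h1, CSup.clm h₂ (csup_mu h₂ hχ m)]
  have h2 : ∀ h : Γ₂, preL (fderiv ℝ (actR g) x) (m h (actR g x) •
        (fderiv ℝ (fun y : E₂ => χ (h • y)) (actR g x).2).comp
          (ContinuousLinearMap.snd ℝ E₁ E₂)) =
      (m (h * g) x - m g x) • (fderiv ℝ (fun y : E₂ => χ ((h * g) • y)) x.2).comp
          (ContinuousLinearMap.snd ℝ E₁ E₂) := by
    intro h
    rw [map_smul]
    have h3 : m h (actR g x) = m (h * g) x - m g x := by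
      rw [hc h g x]; ring
    rw [h3]
    congr 1
    show ((fderiv ℝ (fun y : E₂ => χ (h • y)) (g • x.2)).comp
      (ContinuousLinearMap.snd ℝ E₁ E₂)).comp (fderiv ℝ (actR g) x) = _
    rw [fderiv_actR h₂]
    have h4 := fderiv_comp x.2
      ((contDiff_chi h₂ hχ h).differentiable (by simp) (g • x.2))
      ((h₂.smooth g).differentiable (by simp) x.2)
    have h5 : ((fun y : E₂ => χ (h • y)) ∘ fun y : E₂ => g • y) =
        fun y : E₂ => χ ((h * g) • y) := by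
      funext y
      simp [mul_smul]
    rw [h5] at h4
    rw [h4]
    rfl
  simp only [h2]
  rw [finsum_mul_right (fun h : Γ₂ => (m h x - m g x) •
    (fderiv ℝ (fun y : E₂ => χ (h • y)) x.2).comp (ContinuousLinearMap.snd ℝ E₁ E₂)) g]
  have hfin1 := (csup_mu (E₁ := E₁) h₂ hχ m).finite h₂ x
  have hfin2 := (csup_mu (E₁ := E₁) h₂ hχ (fun _ x => m g x)).finite h₂ x
  simp only [sub_smul]
  rw [finsum_sub_distrib hfin1 hfin2, sum_snd h₂ hχ, sub_zero]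
  rfl

/-- If `(actR g)^* ζ = ζ + d (k g)` for all `g`, then `avgF + muF k` differs from `ζ` by the
differential of the function `∑ χ (g • y) k g (x, y)`, so that `d1 (avgF χ ζ) + d1 (muF χ k) =
d1 ζ`. -/
theorem d1_avgF_add (h₂ : IsCover E₂ Γ₂) {χ : E₂ → ℝ} (hχ : Part Γ₂ χ)
    (ζ : E₁ × E₂ → (E₁ × E₂) →L[ℝ] ℝ) (hζ : ContDiff ℝ ∞ ζ)
    (k : Γ₂ → E₁ × E₂ → ℝ) (hk : ∀ g, ContDiff ℝ ∞ (k g))
    (hk' : ∀ (g : Γ₂) x, pull1 (actR g) ζ x = ζ x + fderiv ℝ (k g) x) (x : E₁ × E₂) :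
    d1 (avgF Γ₂ χ ζ) x + d1 (muF χ k) x = d1 ζ x := by
  -- the function
  have hS : CSup Γ₂ (Prod.snd : E₁ × E₂ → E₂) (fun (g : Γ₂) (x : E₁ × E₂) => χ (g • x.2) * k g x) :=
    csup_of_cutoff hχ.compact fun g y h => by rw [h, zero_mul]
  have hsm : ∀ g : Γ₂, ContDiff ℝ ∞ (fun x : E₁ × E₂ => χ (g • x.2) * k g x) := fun g =>
    ((contDiff_chi h₂ hχ g).comp contDiff_snd).mul (hk g)
  set Ψ : E₁ × E₂ → ℝ := fun x => ∑ᶠ g : Γ₂, χ (g • x.2) * k g x with hΨ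
  have hΨs : ContDiff ℝ ∞ Ψ := CSup.contDiff h₂ continuous_snd hS hsm
  have hΨd : ∀ x, fderiv ℝ Ψ x = (muF χ k x + avgF Γ₂ χ ζ x) - ζ x := by
    intro x
    rw [hΨ, CSup.fderiv_sum h₂ continuous_snd hS hsm]
    have e1 : ∀ g : Γ₂, fderiv ℝ (fun x : E₁ × E₂ => χ (g • x.2) * k g x) x =
        (k g x • (fderiv ℝ (fun y : E₂ => χ (g • y)) x.2).comp
          (ContinuousLinearMap.snd ℝ E₁ E₂) + χ (g • x.2) • pull1 (actR g) ζ x)
          - χ (g • x.2) • ζ x := by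
      intro g
      have d1 : HasFDerivAt (fun x : E₁ × E₂ => χ (g • x.2))
          ((fderiv ℝ (fun y : E₂ => χ (g • y)) x.2).comp (ContinuousLinearMap.snd ℝ E₁ E₂)) x :=
        ((contDiff_chi h₂ hχ g).differentiable (by simp) x.2).hasFDerivAt.comp x
          (ContinuousLinearMap.snd ℝ E₁ E₂).hasFDerivAt
      have d2 := d1.mul ((hk g).differentiable (by simp) x).hasFDerivAt
      have d3 : fderiv ℝ (fun x : E₁ × E₂ => χ (g • x.2) * k g x) x = _ := d2.fderiv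
      rw [d3, hk']
      rw [smul_add]
      abel
    simp only [e1]
    have hf1 := (csup_mu (E₁ := E₁) h₂ hχ k).finite h₂ x
    have hf2 := (csup_avg (E₁ := E₁) hχ (fun h x => pull1 (actR h) ζ x)).finite h₂ x
    have hf3 := (csup_avg (E₁ := E₁) hχ (fun _ x => ζ x)).finite h₂ x
    have hf12 : (Function.support fun g : Γ₂ =>
        k g x • (fderiv ℝ (fun y : E₂ => χ (g • y)) x.2).comp
          (ContinuousLinearMap.snd ℝ E₁ E₂) + χ (g • x.2) • pull1 (actR g) ζ x).Finite := by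
      refine (hf1.union hf2).subset fun g hg => ?_
      by_contra hn
      simp only [Set.mem_union, not_or] at hn
      apply hg
      have n1 : k g x • (fderiv ℝ (fun y : E₂ => χ (g • y)) x.2).comp
          (ContinuousLinearMap.snd ℝ E₁ E₂) = 0 := by
        by_contra h; exact hn.1 h
      have n2 : χ (g • x.2) • pull1 (actR g) ζ x = 0 := by
        by_contra h; exact hn.2 h
      beta_reduce
      rw [n1, n2, add_zero]
    rw [finsum_sub_distrib hf12 hf3, finsum_add_distrib hf1 hf2]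
    have e2 : ∑ᶠ g : Γ₂, χ (g • x.2) • ζ x = ζ x := by
      have hfin : (Function.support fun g : Γ₂ => χ (g • x.2)).Finite :=
        CSup.finite h₂ (GSum_aux1 (Γ := Γ₂) hχ.compact) x.2
      rw [← finsum_smul' hfin (ζ x), hχ.sum, one_smul]
    rw [e2]
    rfl
  have hA := contDiff_avgF (E₁ := E₁) h₂ hχ ζ hζ
  have hM := contDiff_muF (E₁ := E₁) h₂ hχ k hk
  have e3 : fderiv ℝ Ψ = fun x => (muF χ k x + avgF Γ₂ χ ζ x) - ζ x := funext hΨd
  have e4 := d1_fderiv hΨs x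
  rw [e3, d1_sub (hM.add hA) hζ, d1_add hM hA] at e4
  rw [add_comm]
  exact sub_eq_zero.1 e4

/-- `muF` is additive in `m`. -/
theorem muF_sub (h₂ : IsCover E₂ Γ₂) {χ : E₂ → ℝ} (hχ : Part Γ₂ χ)
    (m m' : Γ₂ → E₁ × E₂ → ℝ) (x : E₁ × E₂) :
    muF χ (fun g x => m g x - m' g x) x = muF χ m x - muF χ m' x := by
  have hfin1 := (csup_mu (E₁ := E₁) h₂ hχ m).finite h₂ x
  have hfin2 := (csup_mu (E₁ := E₁) h₂ hχ m').finite h₂ x
  unfold muF
  rw [← finsum_sub_distrib hfin1 hfin2]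
  refine finsum_congr fun g => ?_
  rw [sub_smul]

/-- If `m` does not depend on the first variable, then `muF χ m` is the pullback of a 1-form `μ`
on `E₂`, and its exterior derivative is the pullback of `d1 μ`. -/
theorem muF_snd (h₂ : IsCover E₂ Γ₂) {χ : E₂ → ℝ} (hχ : Part Γ₂ χ)
    (m : Γ₂ → E₂ → ℝ) (hm : ∀ g, ContDiff ℝ ∞ (m g)) :
    ∃ μ : E₂ → E₂ →L[ℝ] ℝ, ContDiff ℝ ∞ μ ∧
      ∀ x : E₁ × E₂, d1 (muF χ (fun g (x : E₁ × E₂) => m g x.2)) x = lift2 (d1 μ x.2) := by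
  have hC : CSup Γ₂ (fun z : E₂ => z)
      (fun (g : Γ₂) (y : E₂) => m g y • fderiv ℝ (fun y : E₂ => χ (g • y)) y) := by
    obtain ⟨K, hK, hs⟩ := CSup.sup_fderiv h₂ (continuous_id' : Continuous fun z : E₂ => z)
      (GSum_aux1 (Γ := Γ₂) hχ.compact)
    refine ⟨K, hK, fun g y hy => hs g y ?_⟩
    intro h
    apply hy
    have h' : fderiv ℝ (fun z : E₂ => χ (g • z)) y = 0 := h
    beta_reduce
    rw [h', smul_zero]
  have hsm : ∀ g : Γ₂, ContDiff ℝ ∞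
      (fun y : E₂ => m g y • fderiv ℝ (fun y : E₂ => χ (g • y)) y) := fun g =>
    (hm g).smul ((contDiff_chi h₂ hχ g).fderiv_right (by simp))
  set μ : E₂ → E₂ →L[ℝ] ℝ := fun y => ∑ᶠ g : Γ₂, m g y • fderiv ℝ (fun y : E₂ => χ (g • y)) y
    with hμ
  have hμs : ContDiff ℝ ∞ μ := CSup.contDiff h₂ continuous_id' hC hsm
  refine ⟨μ, hμs, fun x => ?_⟩
  have e1 : muF χ (fun g (x : E₁ × E₂) => m g x.2) =
      fun x : E₁ × E₂ => (μ x.2).comp (ContinuousLinearMap.snd ℝ E₁ E₂) := by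
    funext x
    have h1 := CSup.clm h₂ hC
      ({ toFun := fun T => T.comp (ContinuousLinearMap.snd ℝ E₁ E₂)
         map_add' := fun S T => by rw [ContinuousLinearMap.add_comp]
         map_smul' := fun r T => by
          rw [ContinuousLinearMap.smul_comp]; rfl } :
          (E₂ →L[ℝ] ℝ) →ₗ[ℝ] ((E₁ × E₂) →L[ℝ] ℝ)) x.2
    exact h1.symm
  rw [e1]
  have hd : HasFDerivAt (fun x : E₁ × E₂ => (μ x.2).comp (ContinuousLinearMap.snd ℝ E₁ E₂))
      ((((ContinuousLinearMap.compL ℝ (E₁ × E₂) E₂ ℝ).flip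
        (ContinuousLinearMap.snd ℝ E₁ E₂)).comp (fderiv ℝ μ x.2)).comp
          (ContinuousLinearMap.snd ℝ E₁ E₂)) x := by
    have h1 : HasFDerivAt (fun x : E₁ × E₂ => μ x.2)
        ((fderiv ℝ μ x.2).comp (ContinuousLinearMap.snd ℝ E₁ E₂)) x :=
      (hμs.differentiable (by simp) x.2).hasFDerivAt.comp x
        (ContinuousLinearMap.snd ℝ E₁ E₂).hasFDerivAt
    exact (((ContinuousLinearMap.compL ℝ (E₁ × E₂) E₂ ℝ).flip
        (ContinuousLinearMap.snd ℝ E₁ E₂)).hasFDerivAt).comp x h1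
  unfold d1
  rw [hd.fderiv]
  rfl

end Pool.Agent.W_9986fc_h24
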