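import Pool.Agent.W_9986fc_h24.Prod.Cover

/-!
Realization of bi-additive maps `Γ₁ × Γ₂ → ℝ` by functions on `E₁ × E₂`.
-/

set_option autoImplicit false
set_option maxSynthPendingDepth 3

open scoped ContDiff
open Pool.Agent.W_9986fc_h15 MeasureTheory

namespace Pool.Agent.W_9986fc_h24

variable {E₁ E₂ : Type*} [NormedAddCommGroup E₁] [NormedSpace ℝ E₁] [FiniteDimensional ℝ E₁]
  [NormedAddCommGroup E₂] [NormedSpace ℝ E₂] [FiniteDimensional ℝ E₂]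
  {Γ₁ Γ₂ : Type*} [Group Γ₁] [Group Γ₂] [MulAction Γ₁ E₁] [MulAction Γ₂ E₂]

/-- A homomorphism `ρ : Γ → ℝ` is the period of a function. Let `χ` be a partition of unity
(`exists_part`) and `u x = - ∑ᶠ g, χ (g • x) * ρ g`. Then
`u (h • x) = - ∑ᶠ g, χ ((g * h) • x) * ρ g = - ∑ᶠ g, χ (g • x) * ρ (g * h⁻¹)` (`finsum_mul_right`)
`= u x + ρ h`, because `ρ (g * h⁻¹) = ρ g - ρ h`. Smoothness: `CSup.contDiff`. The construction is
additive in `ρ`: this is used for families. -/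
theorem exists_periodic (h₁ : IsCover E₁ Γ₁) {ι : Type*} (ρ : Γ₁ → ι → ℝ)
    (hl : ∀ (h h' : Γ₁) (i : ι), ρ (h * h') i = ρ h i + ρ h' i) :
    ∃ U : ι → E₁ → ℝ, (∀ i, ContDiff ℝ ∞ (U i)) ∧ (∀ h i x, U i (h • x) = U i x + ρ h i) ∧
      ∀ i j l, (∀ h, ρ h l = ρ h i + ρ h j) → ∀ x, U l x = U i x + U j x := by
  obtain ⟨χ, hχ, -⟩ := exists_part (Γ := Γ₁) h₁
  have hC : ∀ c : Γ₁ → ℝ, CSup Γ₁ (fun z : E₁ => z) (fun (g : Γ₁) (z : E₁) => χ (g • z) * c g) :=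
    fun c => csup_of_cutoff hχ.compact (fun g y h => by simp [h])
  refine ⟨fun i x => - ∑ᶠ g : Γ₁, χ (g • x) * ρ g i, fun i => ?_, fun h i x => ?_,
    fun i j l hijl x => ?_⟩
  · exact (CSup.contDiff h₁ continuous_id' (hC fun g => ρ g i)
      (fun g => (hχ.smooth.comp (h₁.smooth g)).mul contDiff_const)).neg
  · have e1 : ∀ g : Γ₁, ρ (g * h) i - ρ h i = ρ g i := fun g => by rw [hl]; ring
    have e2 : (fun g : Γ₁ => χ (g • h • x) * ρ g i) =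
        fun g : Γ₁ => χ ((g * h) • x) * (ρ (g * h) i - ρ h i) := by
      funext g
      rw [e1, mul_smul]
    show - ∑ᶠ g : Γ₁, χ (g • h • x) * ρ g i = - ∑ᶠ g : Γ₁, χ (g • x) * ρ g i + ρ h i
    rw [e2, finsum_mul_right (fun g : Γ₁ => χ (g • x) * (ρ g i - ρ h i)) h]
    have e3 : ∀ g : Γ₁, χ (g • x) * (ρ g i - ρ h i) =
        χ (g • x) * ρ g i + χ (g • x) * (- ρ h i) := fun g => by ring
    rw [finsum_congr e3, CSup.add h₁ (hC fun g => ρ g i) (hC fun _ => - ρ h i) x,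
      ← finsum_mul' (fun g : Γ₁ => χ (g • x)) _ (CSup.finite h₁ (GSum_aux1 hχ.compact) x),
      hχ.sum x]
    ring
  · show - ∑ᶠ g : Γ₁, χ (g • x) * ρ g l =
      - ∑ᶠ g : Γ₁, χ (g • x) * ρ g i + - ∑ᶠ g : Γ₁, χ (g • x) * ρ g j
    have e3 : ∀ g : Γ₁, χ (g • x) * ρ g l =
        χ (g • x) * ρ g i + χ (g • x) * ρ g j := fun g => by rw [hijl g]; ring
    rw [finsum_congr e3, CSup.add h₁ (hC fun g => ρ g i) (hC fun g => ρ g j) x]
    ring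

/-- Let `U g`, `g : Γ₂`, be as in `exists_periodic` for `ι = Γ₂`; then `U (g * g') = U g + U g'`. Let
`χ` be a partition of unity on `E₂` and `w (x, y) = - ∑ᶠ g, χ (g • y) * U g x`. It is smooth
(`CSup.contDiff` with `p = Prod.snd`), `w (x, g' • y) = - ∑ᶠ g, χ ((g * g') • y) * U g x =
- ∑ᶠ g, χ (g • y) * U (g * g'⁻¹) x = w (x, y) + U g' x`, and
`w (h • x, y) = - ∑ᶠ g, χ (g • y) * (U g x + ρ h g) = w (x, y) - ∑ᶠ g, χ (g • y) * ρ h g`. -/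
theorem exists_quasi (h₁ : IsCover E₁ Γ₁) (h₂ : IsCover E₂ Γ₂) (ρ : Γ₁ → Γ₂ → ℝ)
    (hl : ∀ (h h' : Γ₁) (g : Γ₂), ρ (h * h') g = ρ h g + ρ h' g)
    (hr : ∀ (h : Γ₁) (g g' : Γ₂), ρ h (g * g') = ρ h g + ρ h g') :
    ∃ (U : Γ₂ → E₁ → ℝ) (w : E₁ × E₂ → ℝ), (∀ g, ContDiff ℝ ∞ (U g)) ∧
      (∀ g g' x, U (g * g') x = U g x + U g' x) ∧
      (∀ (h : Γ₁) g x, U g (h • x) = U g x + ρ h g) ∧
      Quasi Γ₁ Γ₂ w ∧ ∀ (g : Γ₂) x y, w (x, g • y) = w (x, y) + U g x := by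
  obtain ⟨U, hU, hp, hadd⟩ := exists_periodic h₁ ρ hl
  have hmul : ∀ (g g' : Γ₂) (x : E₁), U (g * g') x = U g x + U g' x := fun g g' x =>
    hadd g g' (g * g') (fun h => hr h g g') x
  obtain ⟨χ, hχ, -⟩ := exists_part (Γ := Γ₂) h₂
  have hC : ∀ c : Γ₂ → E₁ → ℝ, CSup Γ₂ (fun z : E₁ × E₂ => z.2)
      (fun (g : Γ₂) (z : E₁ × E₂) => χ (g • z.2) * c g z.1) :=
    fun c => csup_of_cutoff hχ.compact (fun g y h => by simp [h])
  have hC2 : ∀ c : Γ₂ → ℝ, CSup Γ₂ (fun z : E₂ => z)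
      (fun (g : Γ₂) (z : E₂) => χ (g • z) * c g) :=
    fun c => csup_of_cutoff hχ.compact (fun g y h => by simp [h])
  have hright : ∀ (g : Γ₂) (x : E₁) (y : E₂), - ∑ᶠ g' : Γ₂, χ (g' • g • y) * U g' x =
      - ∑ᶠ g' : Γ₂, χ (g' • y) * U g' x + U g x := by
    intro h x y
    have e1 : ∀ g : Γ₂, U (g * h) x - U h x = U g x := fun g => by rw [hmul]; ring
    have e2 : (fun g : Γ₂ => χ (g • h • y) * U g x) =
        fun g : Γ₂ => χ ((g * h) • y) * (U (g * h) x - U h x) := by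
      funext g
      rw [e1, mul_smul]
    rw [e2, finsum_mul_right (fun g : Γ₂ => χ (g • y) * (U g x - U h x)) h]
    have e3 : ∀ g : Γ₂, χ (g • y) * (U g x - U h x) =
        χ (g • y) * U g x + χ (g • y) * (- U h x) := fun g => by ring
    rw [finsum_congr e3, CSup.add h₂ (hC2 fun g => U g x) (hC2 fun _ => - U h x) y,
      ← finsum_mul' (fun g : Γ₂ => χ (g • y)) _ (CSup.finite h₂ (GSum_aux1 hχ.compact) y),
      hχ.sum y]
    ring
  refine ⟨U, fun z => - ∑ᶠ g : Γ₂, χ (g • z.2) * U g z.1, hU, hmul, fun h g x => hp h g x,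
    ⟨?_, fun h => ?_, fun g => ⟨U g, hU g, fun x y => hright g x y⟩⟩, fun g x y => hright g x y⟩
  · exact (CSup.contDiff h₂ continuous_snd (hC U)
      (fun g => ((hχ.smooth.comp (h₂.smooth g)).comp contDiff_snd).mul
        ((hU g).comp contDiff_fst))).neg
  · refine ⟨fun y => - ∑ᶠ g : Γ₂, χ (g • y) * ρ h g, ?_, fun x y => ?_⟩
    · exact (CSup.contDiff h₂ continuous_id' (hC2 fun g => ρ h g)
        (fun g => (hχ.smooth.comp (h₂.smooth g)).mul contDiff_const)).neg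
    · show - ∑ᶠ g : Γ₂, χ (g • y) * U g (h • x) =
        - ∑ᶠ g : Γ₂, χ (g • y) * U g x + - ∑ᶠ g : Γ₂, χ (g • y) * ρ h g
      have e3 : ∀ g : Γ₂, χ (g • y) * U g (h • x) =
          χ (g • y) * U g x + χ (g • y) * ρ h g := fun g => by rw [hp]; ring
      rw [finsum_congr e3, CSup.add h₂ (hC2 fun g => U g x) (hC2 fun g => ρ h g) y]
      ring

end Pool.Agent.W_9986fc_h24
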