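import Pool.Agent.W_9986fc_h24.Prod.Cover
import Pool.Agent.W_9986fc_h15.SurfB
import Pool.Agent.W_9986fc_h15.PrimB

/-!
The functions `k g` with `(actR g)^* ζ - ζ = d (k g)`, and their periods.
-/

set_option autoImplicit false
set_option maxSynthPendingDepth 3

open scoped ContDiff
open Pool.Agent.W_9986fc_h15 MeasureTheory

namespace Pool.Agent.W_9986fc_h24

/-- The Poincaré lemma for 1-forms. Mathlib has it for convex sets
(`Mathlib/MeasureTheory/Integral/CurveIntegral/Poincare.lean`, for example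
`exists_forall_hasFDerivAt_of_fderiv_symmetric`), or use `k x = ∫ t in 0..1, κ (t x) x`. Smoothness:
the derivative of `k` is the smooth `κ` (`contDiff_infty_iff_fderiv` or `contDiff_succ_iff_fderiv`).
-/
theorem exists_prim_closed {E : Type*} [NormedAddCommGroup E] [NormedSpace ℝ E]
    [FiniteDimensional ℝ E] (κ : E → E →L[ℝ] ℝ) (hκ : ContDiff ℝ ∞ κ) (hc : ∀ x, d1 κ x = 0) :
    ∃ k : E → ℝ, ContDiff ℝ ∞ k ∧ ∀ x, fderiv ℝ k x = κ x := by
  have hd : Differentiable ℝ κ := hκ.differentiable (by simp)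
  obtain ⟨k, hk⟩ := convex_univ.exists_forall_hasFDerivAt_of_fderiv_symmetric isOpen_univ
    (hd.differentiableOn) (fun a _ u w => by
      have h1 := congrArg (fun q : E →L[ℝ] E →L[ℝ] ℝ => q u w) (hc a)
      simp only [d1, _root_.sub_apply, ContinuousLinearMap.flip_apply, _root_.zero_apply] at h1
      linarith)
  have hk' : ∀ x, fderiv ℝ k x = κ x := fun x => (hk x (Set.mem_univ x)).fderiv
  refine ⟨k, ?_, hk'⟩
  rw [contDiff_infty_iff_fderiv]
  refine ⟨fun x => (hk x (Set.mem_univ x)).differentiableAt, ?_⟩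
  have h2 : fderiv ℝ k = κ := funext hk'
  rw [h2]
  exact hκ

/-- Two functions with the same derivative differ by a constant
(`is_const_of_fderiv_eq_zero`). -/
theorem exists_const_of_fderiv_eq {E : Type*} [NormedAddCommGroup E] [NormedSpace ℝ E]
    (f g : E → ℝ) (hf : ContDiff ℝ ∞ f) (hg : ContDiff ℝ ∞ g)
    (h : ∀ x, fderiv ℝ f x = fderiv ℝ g x) : ∃ c : ℝ, ∀ x, f x = g x + c := by
  refine ⟨f 0 - g 0, fun x => ?_⟩
  have hf' : Differentiable ℝ f := hf.differentiable (by simp)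
  have hg' : Differentiable ℝ g := hg.differentiable (by simp)
  have h1 := is_const_of_fderiv_eq_zero (𝕜 := ℝ) (f := fun x => f x - g x) (hf'.sub hg')
    (fun x => by
      rw [fderiv_fun_sub (hf' x) (hg' x), h x, sub_self]) x 0
  linarith

theorem Rho_contDiff_pull1 {E : Type*} [NormedAddCommGroup E] [NormedSpace ℝ E]
    {φ : E → E} (hφ : ContDiff ℝ ∞ φ) {η : E → E →L[ℝ] ℝ} (hη : ContDiff ℝ ∞ η) :
    ContDiff ℝ ∞ (pull1 φ η) := by
  have h1 : ContDiff ℝ ∞ (fderiv ℝ φ) := (contDiff_infty_iff_fderiv.1 hφ).2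
  exact (hη.comp hφ).clm_comp h1

theorem Rho_pull1_comp {E : Type*} [NormedAddCommGroup E] [NormedSpace ℝ E]
    {φ ψ : E → E} (hφ : ContDiff ℝ ∞ φ) (hψ : ContDiff ℝ ∞ ψ) (η : E → E →L[ℝ] ℝ) (x : E) :
    pull1 ψ (pull1 φ η) x = pull1 (fun y => φ (ψ y)) η x := by
  unfold pull1
  rw [ContinuousLinearMap.comp_assoc]
  congr 1
  exact (fderiv_comp x (hφ.differentiable (by simp) (ψ x)) (hψ.differentiable (by simp) x)).symm

variable {E₁ E₂ : Type*} [NormedAddCommGroup E₁] [NormedSpace ℝ E₁] [FiniteDimensional ℝ E₁]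
  [NormedAddCommGroup E₂] [NormedSpace ℝ E₂] [FiniteDimensional ℝ E₂]
  {Γ₁ Γ₂ : Type*} [Group Γ₁] [Group Γ₂] [MulAction Γ₁ E₁] [MulAction Γ₂ E₂]

/-- Let `κ g = (actR g)^* ζ - ζ`. It is closed (`d1_pull1_gen` and the invariance of `d1 ζ`), hence
`κ g = d (k g)` (`exists_prim_closed`). Since `actL h` and `actR g` commute and `ζ` is invariant
under `actL h`, so is `κ g`; hence `k g ∘ actL h` and `k g` have the same derivative and differ by a
constant `ρ h g`, which is additive in `h` since `actL (h * h') = actL h ∘ actL h'`. Moreover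
`κ (g * g') = (actR g')^* (κ g) + κ g'` because `actR (g * g') = actR g ∘ actR g'`, so that
`k (g * g') - k g ∘ actR g' - k g'` is constant; composing with `actL h` and subtracting, `ρ h` is
additive. (`pull1` of a derivative: `pull1_fderiv`, PrimB of helper15.) -/
theorem exists_periods (h₁ : IsCover E₁ Γ₁) (h₂ : IsCover E₂ Γ₂)
    (ζ : E₁ × E₂ → (E₁ × E₂) →L[ℝ] ℝ) (hζ : ContDiff ℝ ∞ ζ)
    (hl : ∀ (g : Γ₁) x, pull1 (actL g) ζ x = ζ x)
    (hr : ∀ (g : Γ₂) x, pull2 (actR g) (d1 ζ) x = d1 ζ x) :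
    ∃ (k : Γ₂ → E₁ × E₂ → ℝ) (ρ : Γ₁ → Γ₂ → ℝ),
      (∀ g, ContDiff ℝ ∞ (k g)) ∧
      (∀ (g : Γ₂) x, pull1 (actR g) ζ x = ζ x + fderiv ℝ (k g) x) ∧
      (∀ g g' : Γ₂, ∃ c : ℝ, ∀ x, k (g * g') x = k g (actR g' x) + k g' x + c) ∧
      (∀ (h : Γ₁) (g : Γ₂) x, k g (actL h x) = k g x + ρ h g) ∧
      (∀ (h h' : Γ₁) (g : Γ₂), ρ (h * h') g = ρ h g + ρ h' g) ∧
      (∀ (h : Γ₁) (g g' : Γ₂), ρ h (g * g') = ρ h g + ρ h g') := by
  have hR : ∀ g : Γ₂, ContDiff ℝ ∞ (actR g : E₁ × E₂ → E₁ × E₂) := fun g => contDiff_actR h₂ g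
  have hL : ∀ g : Γ₁, ContDiff ℝ ∞ (actL g : E₁ × E₂ → E₁ × E₂) := fun g => contDiff_actL h₁ g
  have hp : ∀ g : Γ₂, ContDiff ℝ ∞ (pull1 (actR g : E₁ × E₂ → E₁ × E₂) ζ) := fun g =>
    Rho_contDiff_pull1 (hR g) hζ
  have hex : ∀ g : Γ₂, ∃ k : E₁ × E₂ → ℝ, ContDiff ℝ ∞ k ∧
      ∀ x, fderiv ℝ k x = pull1 (actR g) ζ x - ζ x := by
    intro g
    apply exists_prim_closed (fun x => pull1 (actR g) ζ x - ζ x) ((hp g).sub hζ)
    intro x
    rw [d1_sub (hp g) hζ x, d1_pull1_gen _ (hR g) ζ hζ x, hr g x, sub_self]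
  choose k hk hkd using hex
  have h3 : ∀ g g' : Γ₂, ∃ c : ℝ, ∀ x, k (g * g') x = k g (actR g' x) + k g' x + c := by
    intro g g'
    apply exists_const_of_fderiv_eq (k (g * g')) (fun x => k g (actR g' x) + k g' x) (hk _)
      (((hk g).comp (hR g')).add (hk g'))
    intro x
    have e1 : fderiv ℝ (fun x => k g (actR g' x) + k g' x) x =
        fderiv ℝ (fun x => k g (actR g' x)) x + fderiv ℝ (k g') x :=
      fderiv_fun_add (((hk g).comp (hR g')).differentiable (by simp) x)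
        ((hk g').differentiable (by simp) x)
    rw [e1, ← pull1_fderiv (hR g') (hk g) x]
    have e2 : fderiv ℝ (k g) = fun x => pull1 (actR g) ζ x - ζ x := funext (hkd g)
    rw [e2, pull1_sub, hkd, hkd, Rho_pull1_comp (hR g) (hR g')]
    have e3 : (fun y : E₁ × E₂ => actR g (actR g' y)) = actR (g * g') := by
      funext y
      simp [actR, mul_smul]
    rw [e3]
    abel
  have h4 : ∀ (h : Γ₁) (g : Γ₂), ∃ c : ℝ, ∀ x, k g (actL h x) = k g x + c := by
    intro h g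
    apply exists_const_of_fderiv_eq (fun x => k g (actL h x)) (k g)
      ((hk g).comp (hL h)) (hk g)
    intro x
    rw [← pull1_fderiv (hL h) (hk g) x]
    have e2 : fderiv ℝ (k g) = fun x => pull1 (actR g) ζ x - ζ x := funext (hkd g)
    rw [e2, pull1_sub, hl, Rho_pull1_comp (hR g) (hL h)]
    have e3 : (fun y : E₁ × E₂ => actR g (actL h y)) = fun y => actL h (actR g y) := by
      funext y
      simp [actR, actL]
    rw [e3, ← Rho_pull1_comp (hL h) (hR g)]
    have e4 : pull1 (actL h) ζ = ζ := funext (hl h)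
    rw [e4]
  choose ρ hρ using h4
  have hLmul : ∀ (h h' : Γ₁) (x : E₁ × E₂), actL (h * h') x = actL h (actL h' x) := by
    intro h h' x
    simp [actL, mul_smul]
  have hRL : ∀ (g : Γ₂) (h : Γ₁) (x : E₁ × E₂), actR g (actL h x) = actL h (actR g x) := by
    intro g h x
    simp [actR, actL]
  refine ⟨k, ρ, hk, fun g x => ?_, h3, hρ, fun h h' g => ?_, fun h g g' => ?_⟩
  · rw [hkd]
    abel
  · have e1 := hρ (h * h') g 0
    have e2 := hρ h g (actL h' 0)
    have e3 := hρ h' g 0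
    rw [hLmul, e2, e3] at e1
    linarith
  · obtain ⟨c, hc⟩ := h3 g g'
    have e1 := hρ h (g * g') 0
    have e2 := hc (actL h 0)
    have e3 := hc 0
    rw [hRL, hρ h g, hρ h g'] at e2
    linarith

end Pool.Agent.W_9986fc_h24
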