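import Pool.Agent.W_9986fc_h24.Prod.Hom
import Pool.Agent.W_9986fc_h24.Prod.Rho
import Pool.Agent.W_9986fc_h24.Prod.Real
import Pool.Agent.W_9986fc_h24.Prod.Mu
import Pool.Agent.W_9986fc_h24.Prod.Cross
import Pool.Agent.W_9986fc_h24.Stk

/-!
Lifts of forms from the factors to the product.
-/

set_option autoImplicit false
set_option maxSynthPendingDepth 3

open scoped ContDiff
open Pool.Agent.W_9986fc_h15 MeasureTheory

namespace Pool.Agent.W_9986fc_h24

variable {E₁ E₂ : Type*} [NormedAddCommGroup E₁] [NormedSpace ℝ E₁] [FiniteDimensional ℝ E₁]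
  [NormedAddCommGroup E₂] [NormedSpace ℝ E₂] [FiniteDimensional ℝ E₂]
  {Γ₁ Γ₂ : Type*} [Group Γ₁] [Group Γ₂] [MulAction Γ₁ E₁] [MulAction Γ₂ E₂]

omit [FiniteDimensional ℝ E₁] [FiniteDimensional ℝ E₂] in
/-- The map `q ↦ q.bilinearComp A A` is continuous and linear. -/
theorem DecA_lin (A : E₂ →L[ℝ] E₁) : ∃ L : (E₁ →L[ℝ] E₁ →L[ℝ] ℝ) →L[ℝ] (E₂ →L[ℝ] E₂ →L[ℝ] ℝ),
    ∀ q, L q = q.bilinearComp A A :=
  ⟨(ContinuousLinearMap.compL ℝ E₂ (E₁ →L[ℝ] ℝ) (E₂ →L[ℝ] ℝ)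
    ((ContinuousLinearMap.compL ℝ E₂ E₁ ℝ).flip A)).comp
    ((ContinuousLinearMap.compL ℝ E₂ E₁ (E₁ →L[ℝ] ℝ)).flip A), fun q => by ext; rfl⟩

/-- The pullback of the form `q` by the linear map `A`. -/
theorem DecA_smooth (A : E₂ →L[ℝ] E₁) (q : E₁ → E₁ →L[ℝ] E₁ →L[ℝ] ℝ) (hq : ContDiff ℝ ∞ q) :
    ContDiff ℝ ∞ (fun x : E₂ => (q (A x)).bilinearComp A A) := by
  obtain ⟨L, hL⟩ := DecA_lin A
  have h1 : ContDiff ℝ ∞ (fun x : E₂ => L (q (A x))) := L.contDiff.comp (hq.comp A.contDiff)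
  have h2 : (fun x : E₂ => (q (A x)).bilinearComp A A) = fun x : E₂ => L (q (A x)) := by
    funext x
    exact (hL _).symm
  rw [h2]
  exact h1

theorem DecA_fderiv (A : E₂ →L[ℝ] E₁) (q : E₁ → E₁ →L[ℝ] E₁ →L[ℝ] ℝ) (hq : ContDiff ℝ ∞ q)
    (x u v w : E₂) :
    fderiv ℝ (fun x : E₂ => (q (A x)).bilinearComp A A) x u v w =
      fderiv ℝ q (A x) (A u) (A v) (A w) := by
  obtain ⟨L, hL⟩ := DecA_lin A
  have h2 : (fun x : E₂ => (q (A x)).bilinearComp A A) = fun x : E₂ => L (q (A x)) := by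
    funext x
    exact (hL _).symm
  have h3 : HasFDerivAt q (fderiv ℝ q (A x)) (A x) :=
    (hq.differentiable (by simp) (A x)).hasFDerivAt
  have h4 : HasFDerivAt (fun x : E₂ => L (q (A x))) (L.comp ((fderiv ℝ q (A x)).comp A)) x :=
    L.hasFDerivAt.comp x (h3.comp x A.hasFDerivAt)
  rw [h2, h4.fderiv]
  simp [hL, ContinuousLinearMap.bilinearComp_apply]

theorem DecA_closed (A : E₂ →L[ℝ] E₁) (q : E₁ → E₁ →L[ℝ] E₁ →L[ℝ] ℝ) (hq : ContDiff ℝ ∞ q)
    (hc : Closed q) : Closed (fun x : E₂ => (q (A x)).bilinearComp A A) := by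
  intro x u v w
  rw [DecA_fderiv A q hq, DecA_fderiv A q hq, DecA_fderiv A q hq]
  exact hc (A x) (A u) (A v) (A w)

/-- A 1-form which is invariant under both partial actions is invariant under the product. -/
theorem form1_of_partial (h₁ : IsCover E₁ Γ₁) (h₂ : IsCover E₂ Γ₂)
    (η : E₁ × E₂ → (E₁ × E₂) →L[ℝ] ℝ) (hη : ContDiff ℝ ∞ η)
    (hl : ∀ (g : Γ₁) x, pull1 (actL g) η x = η x) (hr : ∀ (g : Γ₂) x, pull1 (actR g) η x = η x) :
    Form1 (Γ₁ × Γ₂) η := by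
  refine { smooth := hη, invariant := ?_ }
  intro g x
  refine ContinuousLinearMap.ext fun u => ?_
  have h3 := congrArg (fun q => q u) (hr g.2 x)
  have h4 := congrArg (fun q => q (fderiv ℝ (actR g.2) x u)) (hl g.1 (actR g.2 x))
  simp only [pull1, ContinuousLinearMap.comp_apply] at h3 h4
  rw [← h3, ← h4, pull1, ContinuousLinearMap.comp_apply]
  rw [fderiv_prod_smul h₁ h₂, fderiv_actL h₁, fderiv_actR h₂]
  rfl

/-- The invariance of a 2-form under the product implies invariance under the partial actions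
(take `g = (1, g₂)`; `actR g₂ x = (1, g₂) • x`). -/
theorem pull2_actR (h₁ : IsCover E₁ Γ₁) (h₂ : IsCover E₂ Γ₂)
    (a : E₁ × E₂ → (E₁ × E₂) →L[ℝ] (E₁ × E₂) →L[ℝ] ℝ) (ha : Form2 (Γ₁ × Γ₂) a) (g : Γ₂)
    (x : E₁ × E₂) : pull2 (actR g) a x = a x := by
  have hp : (fun x : E₁ × E₂ => ((1 : Γ₁), g) • x) = actR g := by
    funext y
    exact Prod.ext (one_smul Γ₁ y.1) rfl
  rw [← hp]
  exact ha.invariant ((1 : Γ₁), g) x

/-- The pullback of `lift1` of a form on `E₁` under `actR` is itself. -/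
theorem pull2_actR_lift1 (h₂ : IsCover E₂ Γ₂) (q : E₁ → E₁ →L[ℝ] E₁ →L[ℝ] ℝ) (g : Γ₂)
    (x : E₁ × E₂) : pull2 (actR g) (fun x => lift1 (q x.1)) x = lift1 (q x.1) := by
  refine ContinuousLinearMap.ext fun u => ContinuousLinearMap.ext fun w => ?_
  simp only [pull2, lift1, ContinuousLinearMap.bilinearComp_apply, fderiv_actR h₂]
  rfl

/-- Lifts of invariant closed forms are invariant and closed. -/
theorem form2_lift1 (h₁ : IsCover E₁ Γ₁) (h₂ : IsCover E₂ Γ₂) (q : E₁ → E₁ →L[ℝ] E₁ →L[ℝ] ℝ)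
    (hq : Form2 Γ₁ q) : Form2 (Γ₁ × Γ₂) (fun x : E₁ × E₂ => lift1 (q x.1)) := by
  refine { smooth := DecA_smooth (ContinuousLinearMap.fst ℝ E₁ E₂) q hq.smooth, alt := ?_,
           invariant := ?_ }
  · intro x u
    exact hq.alt x.1 u.1
  · intro g x
    refine ContinuousLinearMap.ext fun u => ContinuousLinearMap.ext fun w => ?_
    have h1 := congrArg (fun q => q u.1 w.1) (hq.invariant g.1 x.1)
    simp only [pull2, ContinuousLinearMap.bilinearComp_apply] at h1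
    simp only [pull2, lift1, ContinuousLinearMap.bilinearComp_apply, fderiv_prod_smul h₁ h₂]
    exact h1

theorem closed_lift1 (q : E₁ → E₁ →L[ℝ] E₁ →L[ℝ] ℝ) (hq : ContDiff ℝ ∞ q) (hc : Closed q) :
    Closed (fun x : E₁ × E₂ => lift1 (q x.1)) := by
  exact DecA_closed (ContinuousLinearMap.fst ℝ E₁ E₂) q hq hc

theorem form2_lift2 (h₁ : IsCover E₁ Γ₁) (h₂ : IsCover E₂ Γ₂) (q : E₂ → E₂ →L[ℝ] E₂ →L[ℝ] ℝ)
    (hq : Form2 Γ₂ q) : Form2 (Γ₁ × Γ₂) (fun x : E₁ × E₂ => lift2 (q x.2)) := by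
  refine { smooth := DecA_smooth (ContinuousLinearMap.snd ℝ E₁ E₂) q hq.smooth, alt := ?_,
           invariant := ?_ }
  · intro x u
    exact hq.alt x.2 u.2
  · intro g x
    refine ContinuousLinearMap.ext fun u => ContinuousLinearMap.ext fun w => ?_
    have h1 := congrArg (fun q => q u.2 w.2) (hq.invariant g.2 x.2)
    simp only [pull2, ContinuousLinearMap.bilinearComp_apply] at h1
    simp only [pull2, lift2, ContinuousLinearMap.bilinearComp_apply, fderiv_prod_smul h₁ h₂]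
    exact h1

theorem closed_lift2 (q : E₂ → E₂ →L[ℝ] E₂ →L[ℝ] ℝ) (hq : ContDiff ℝ ∞ q) (hc : Closed q) :
    Closed (fun x : E₁ × E₂ => lift2 (q x.2)) := by
  exact DecA_closed (ContinuousLinearMap.snd ℝ E₁ E₂) q hq hc

/-- If the lift of a smooth form on `E₂` is invariant under the product action, then the form is
invariant under `Γ₂` (and alternating if its lift is). -/
theorem form2_of_lift2 (h₁ : IsCover E₁ Γ₁) (h₂ : IsCover E₂ Γ₂)
    (q : E₂ → E₂ →L[ℝ] E₂ →L[ℝ] ℝ) (hq : ContDiff ℝ ∞ q)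
    (hf : Form2 (Γ₁ × Γ₂) (fun x : E₁ × E₂ => lift2 (q x.2))) : Form2 Γ₂ q := by
  refine { smooth := hq, alt := ?_, invariant := ?_ }
  · intro y u
    exact hf.alt (0, y) (0, u)
  · intro g y
    refine ContinuousLinearMap.ext fun u => ContinuousLinearMap.ext fun w => ?_
    have h1 := congrArg (fun q => q (0, u) (0, w)) (hf.invariant ((1 : Γ₁), g) (0, y))
    simp only [pull2, lift2, ContinuousLinearMap.bilinearComp_apply, fderiv_prod_smul h₁ h₂] at h1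
    simp only [pull2, ContinuousLinearMap.bilinearComp_apply]
    exact h1

end Pool.Agent.W_9986fc_h24
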