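import Pool.Agent.W_9986fc_h15.AlgA
import Pool.Agent.W_9986fc_h15.AlgC

/-!
Bases with the opposite orientation, scaling, linear maps.
-/

set_option autoImplicit false
set_option maxSynthPendingDepth 3

open scoped ContDiff
open Pool.Agent.W_9986fc_h15

namespace Pool.Agent.W_9986fc_h24

variable {E : Type*} [NormedAddCommGroup E] [NormedSpace ℝ E] {m : ℕ}

/-- The opposite orientation: exchange the vectors `(0, 0)` and `(0, 1)` of the basis
(`B.reindex (Equiv.swap _ _)`, `top_perm` in AlgC of helper15). -/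
theorem exists_reverse (hm : 0 < m) (B : Module.Basis (Fin m × Fin 2) ℝ E) :
    ∃ B' : Module.Basis (Fin m × Fin 2) ℝ E, ∀ q, top B' q = - top B q := by
  have hne : ((⟨0, hm⟩, 0) : Fin m × Fin 2) ≠ (⟨0, hm⟩, 1) := by
    intro h
    have := congrArg Prod.snd h
    simp at this
  refine ⟨B.reindex (Equiv.swap (⟨0, hm⟩, 0) (⟨0, hm⟩, 1)), fun q => ?_⟩
  have h1 : (⇑(B.reindex (Equiv.swap ((⟨0, hm⟩, 0) : Fin m × Fin 2) (⟨0, hm⟩, 1)))) =
      fun i => B (Equiv.swap ((⟨0, hm⟩, 0) : Fin m × Fin 2) (⟨0, hm⟩, 1) i) := by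
    funext i
    rw [Module.Basis.reindex_apply, Equiv.symm_swap]
  rw [h1, top_perm, Equiv.Perm.sign_swap hne]
  simp

/-- For `m = 0` the top power is one. -/
theorem top_zero_dim (e : Fin 0 × Fin 2 → E) (q : E →L[ℝ] E →L[ℝ] ℝ) : top e q = 1 := by
  unfold top
  rw [Fintype.sum_unique]
  simp

/-- The top power with respect to the image of a family of vectors under a linear map. -/
theorem top_map {E' : Type*} [NormedAddCommGroup E'] [NormedSpace ℝ E'] (e : Fin m × Fin 2 → E)
    (L : E →L[ℝ] E') (q : E' →L[ℝ] E' →L[ℝ] ℝ) :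
    top (fun i => L (e i)) q = top e (q.bilinearComp L L) := by
  simp [top]

/-- Scaling. -/
theorem top_smul (e : Fin m × Fin 2 → E) (q : E →L[ℝ] E →L[ℝ] ℝ) (t : ℝ) :
    top e (t • q) = t ^ m * top e q := by
  unfold top
  rw [Finset.mul_sum]
  refine Finset.sum_congr rfl fun σ _ => ?_
  simp only [_root_.smul_apply, smul_eq_mul, Finset.prod_mul_distrib,
    Finset.prod_const, Finset.card_univ, Fintype.card_fin]
  ring

end Pool.Agent.W_9986fc_h24
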