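import Pool.Agent.W_9986fc_h24.Prod.InnerA
import Pool.Agent.W_9986fc_h24.Prod.AffB

/-!
Choice of orientations.
-/

set_option autoImplicit false
set_option maxSynthPendingDepth 3

open scoped ContDiff
open Pool.Agent.W_9986fc_h15 MeasureTheory

namespace Pool.Agent.W_9986fc_h24

section One

variable {E : Type*} [NormedAddCommGroup E] [NormedSpace ℝ E] [FiniteDimensional ℝ E]
  [MeasureSpace E] [BorelSpace E] [Measure.IsAddHaarMeasure (volume : Measure E)]
  {Γ : Type*} [Group Γ] [MulAction Γ E] {m : ℕ}

/-- Choice of the orientation. If `integ χ B a > 0` take `B' = B`, otherwise the reversed basis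
(`exists_reverse`). The case `integ χ B a < 0`, `m = 0` does not occur: then `top B (a x) = 1`
(`top_zero_dim`), `E` is a point (its dimension is the cardinality of the empty index set of `B`), and
`χ x ≥ 0`, because `∑ᶠ g, χ (g • x) = 1` is a multiple by a natural number of `χ x`
(`finsum` of a constant). -/
theorem exists_oriented (hB : IsCover E Γ) {χ : E → ℝ} (hχ : Part Γ χ)
    (B : Module.Basis (Fin m × Fin 2) ℝ E) (a : E → E →L[ℝ] E →L[ℝ] ℝ)
    (ha : integ χ B a ≠ 0) :
    ∃ (B' : Module.Basis (Fin m × Fin 2) ℝ E) (ε : ℝ), ε * ε = 1 ∧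
      (∀ q, top B' q = ε * top B q) ∧ 0 < ε * integ χ B a ∧ 0 < integ χ B' a := by
  rcases lt_or_gt_of_ne ha with hneg | hpos
  · rcases Nat.eq_zero_or_pos m with hm | hm
    · exfalso
      subst hm
      have hsub : Subsingleton E := B.repr.toEquiv.subsingleton
      have hχ0 : ∀ x, 0 ≤ χ x := by
        intro x
        by_contra hc
        rw [not_le] at hc
        have h1 : ∑ᶠ g : Γ, χ (g • x) = 1 := hχ.sum x
        have h2 : ∑ᶠ g : Γ, -χ (g • x) = -1 := by
          rw [finsum_neg_distrib, h1]
        have h3 : 0 ≤ ∑ᶠ g : Γ, -χ (g • x) := by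
          refine finsum_nonneg fun g => ?_
          rw [Subsingleton.elim (g • x) x]
          linarith
        rw [h2] at h3
        linarith
      have h4 : 0 ≤ integ χ B a := by
        unfold integ
        refine integral_nonneg fun x => ?_
        have h5 : top B (a x) = 1 := top_zero_dim _ _
        show 0 ≤ χ x * top B (a x)
        rw [h5, mul_one]
        exact hχ0 x
      exact absurd hneg (not_lt.2 h4)
    · obtain ⟨B', hB'⟩ := exists_reverse hm B
      have h1 : integ χ B' a = -integ χ B a := by
        unfold integ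
        rw [← integral_neg]
        refine integral_congr_ae (Filter.Eventually.of_forall fun x => ?_)
        simp only [hB']
        ring
      refine ⟨B', -1, by norm_num, fun q => ?_, by linarith, by rw [h1]; linarith⟩
      rw [hB', neg_one_mul]
  · exact ⟨B, 1, one_mul 1, fun q => (one_mul _).symm, by rwa [one_mul], hpos⟩

/-- A basis indexed by `Fin m × Fin 2` exists if the dimension is `2 m`
(`Module.finBasisOfFinrankEq`, `finProdFinEquiv`). -/
theorem exists_basis_even (h : Even (Module.finrank ℝ E)) :
    ∃ m : ℕ, Nonempty (Module.Basis (Fin m × Fin 2) ℝ E) := by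
  obtain ⟨r, hr⟩ := h
  have h1 : Module.finrank ℝ E = r * 2 := by
    rw [hr]
    ring
  exact ⟨r, ⟨(Module.finBasisOfFinrankEq ℝ E h1).reindex finProdFinEquiv.symm⟩⟩

end One

end Pool.Agent.W_9986fc_h24
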