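import Pool.Agent.W_9986fc_h24.Prod.PDefs
import Pool.Agent.W_9986fc_h15.AlgA
import Pool.Agent.W_9986fc_h15.AlgB
import Pool.Agent.W_9986fc_h15.AlgJ

/-!
The top power of a direct sum.
-/

set_option autoImplicit false
set_option maxSynthPendingDepth 3

open scoped ContDiff
open Pool.Agent.W_9986fc_h15

namespace Pool.Agent.W_9986fc_h24

variable {E₁ E₂ : Type*} [NormedAddCommGroup E₁] [NormedSpace ℝ E₁] [FiniteDimensional ℝ E₁]
  [NormedAddCommGroup E₂] [NormedSpace ℝ E₂] [FiniteDimensional ℝ E₂] {n m₁ m₂ r : ℕ}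

omit [FiniteDimensional ℝ E₁] [FiniteDimensional ℝ E₂] in
theorem lift1_apply (q : E₁ →L[ℝ] E₁ →L[ℝ] ℝ) (u v : E₁ × E₂) : lift1 q u v = q u.1 v.1 := rfl

omit [FiniteDimensional ℝ E₁] [FiniteDimensional ℝ E₂] in
theorem lift2_apply (q : E₂ →L[ℝ] E₂ →L[ℝ] ℝ) (u v : E₁ × E₂) : lift2 q u v = q u.2 v.2 := rfl

omit [FiniteDimensional ℝ E₁] [FiniteDimensional ℝ E₂] in
theorem mixF_apply (ξ : Fin r → E₁ →L[ℝ] ℝ) (y : Fin r → E₂ →L[ℝ] ℝ) (u v : E₁ × E₂) :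
    mixF ξ y u v = ∑ i, (ξ i u.1 * y i v.2 - y i u.2 * ξ i v.1) := by
  simp [mixF, wedge]

theorem Split_J_alt {E : Type*} [NormedAddCommGroup E] [NormedSpace ℝ E]
    [FiniteDimensional ℝ E] {m : ℕ} (B : Module.Basis (Fin m × Fin 2) ℝ E) (u : E) :
    J B u u = 0 := by
  rw [J_apply]
  refine Finset.sum_eq_zero fun i _ => ?_
  ring

theorem Split_J_nd {E : Type*} [NormedAddCommGroup E] [NormedSpace ℝ E]
    [FiniteDimensional ℝ E] {m : ℕ} (B : Module.Basis (Fin m × Fin 2) ℝ E) (w : E)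
    (h : ∀ u, J B w u = 0) : w = 0 := by
  by_contra hw
  have h1 := top_eq_zero B (J B) (Split_J_alt B) w hw h
  have h2 := top_J_pos B
  linarith

omit [FiniteDimensional ℝ E₁] [FiniteDimensional ℝ E₂] in
theorem Split_apply (q₁ : E₁ →L[ℝ] E₁ →L[ℝ] ℝ) (q₂ : E₂ →L[ℝ] E₂ →L[ℝ] ℝ) (u v : E₁ × E₂) :
    (lift1 q₁ + lift2 q₂ : (E₁ × E₂) →L[ℝ] (E₁ × E₂) →L[ℝ] ℝ) u v = q₁ u.1 v.1 + q₂ u.2 v.2 := rfl

/-- The top power of a direct sum. Compare `exists_const` (AlgC of helper15). Proof: every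
alternating form `q₁` on `E₁` is `(J B₁) (P₁ ·) (P₁ ·)` for a linear map `P₁` (`exists_pullback`,
AlgB), with `top B₁ q₁ = det P₁ * top B₁ (J B₁)` (`top_bilinearComp`), similarly `q₂`, and
`lift1 q₁ + lift2 q₂` is the pullback of `lift1 (J B₁) + lift2 (J B₂)` under `P₁.prodMap P₂`, the
determinant of which is `det P₁ * det P₂` (`LinearMap.det_prodMap`). So `c` is
`top B (lift1 (J B₁) + lift2 (J B₂)) / (top B₁ (J B₁) * top B₂ (J B₂))`; the denominator is positive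
(`top_J_pos`) and the numerator is not zero by `top_ne_zero`, since `J B₁` and `J B₂` are
nondegenerate (see the lemmas at the beginning of AlgC). -/
theorem exists_split (B : Module.Basis (Fin n × Fin 2) ℝ (E₁ × E₂))
    (B₁ : Module.Basis (Fin m₁ × Fin 2) ℝ E₁) (B₂ : Module.Basis (Fin m₂ × Fin 2) ℝ E₂) :
    ∃ c : ℝ, c ≠ 0 ∧ 0 < c * top B (lift1 (J B₁) + lift2 (J B₂)) ∧
      ∀ (q₁ : E₁ →L[ℝ] E₁ →L[ℝ] ℝ) (q₂ : E₂ →L[ℝ] E₂ →L[ℝ] ℝ),
      (∀ u, q₁ u u = 0) → (∀ u, q₂ u u = 0) →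
      top B (lift1 q₁ + lift2 q₂) = c * top B₁ q₁ * top B₂ q₂ := by
  have hJ1 := top_J_pos B₁
  have hJ2 := top_J_pos B₂
  have hJ : top B (lift1 (J B₁) + lift2 (J B₂)) ≠ 0 := by
    refine top_ne_zero B _ (fun u => ?_) (fun w hw => ?_)
    · rw [Split_apply, Split_J_alt, Split_J_alt, add_zero]
    · refine Prod.ext (Split_J_nd B₁ _ fun u => ?_) (Split_J_nd B₂ _ fun u => ?_)
      · have := hw (u, 0)
        rw [Split_apply] at this
        simpa using this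
      · have := hw (0, u)
        rw [Split_apply] at this
        simpa using this
  refine ⟨top B (lift1 (J B₁) + lift2 (J B₂)) / (top B₁ (J B₁) * top B₂ (J B₂)),
    div_ne_zero hJ (mul_pos hJ1 hJ2).ne', ?_, ?_⟩
  · rw [div_mul_eq_mul_div]
    exact div_pos (mul_self_pos.2 hJ) (mul_pos hJ1 hJ2)
  · intro q₁ q₂ hq₁ hq₂
    have halt : ∀ u, (lift1 q₁ + lift2 q₂ : (E₁ × E₂) →L[ℝ] (E₁ × E₂) →L[ℝ] ℝ) u u = 0 := by
      intro u
      rw [Split_apply, hq₁, hq₂, add_zero]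
    by_cases hnd1 : ∀ w, (∀ u, q₁ w u = 0) → w = 0
    · by_cases hnd2 : ∀ w, (∀ u, q₂ w u = 0) → w = 0
      · obtain ⟨P₁, _, hP₁⟩ := exists_pullback B₁ q₁ hq₁ hnd1
        obtain ⟨P₂, _, hP₂⟩ := exists_pullback B₂ q₂ hq₂ hnd2
        have h1 : lift1 q₁ + lift2 q₂ = ((lift1 (J B₁) + lift2 (J B₂)) :
            (E₁ × E₂) →L[ℝ] (E₁ × E₂) →L[ℝ] ℝ).bilinearComp (P₁.prodMap P₂)
            (P₁.prodMap P₂) := by
          rw [hP₁, hP₂]
          rfl
        have h2 : (P₁.prodMap P₂).det = P₁.det * P₂.det := by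
          have h3 : ((P₁.prodMap P₂ : (E₁ × E₂) →L[ℝ] (E₁ × E₂)) :
              (E₁ × E₂) →ₗ[ℝ] (E₁ × E₂)) = (P₁ : E₁ →ₗ[ℝ] E₁).prodMap (P₂ : E₂ →ₗ[ℝ] E₂) := rfl
          rw [ContinuousLinearMap.det, h3, LinearMap.det_prodMap, ContinuousLinearMap.det,
            ContinuousLinearMap.det]
        have h4 : top B₁ q₁ = P₁.det * top B₁ (J B₁) := by
          conv_lhs => rw [hP₁]
          exact top_bilinearComp B₁ P₁ (J B₁)
        have h5 : top B₂ q₂ = P₂.det * top B₂ (J B₂) := by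
          conv_lhs => rw [hP₂]
          exact top_bilinearComp B₂ P₂ (J B₂)
        rw [h1, top_bilinearComp, h2, h4, h5]
        field_simp
      · push Not at hnd2
        obtain ⟨w, hw, hw0⟩ := hnd2
        rw [top_eq_zero B₂ q₂ hq₂ w hw0 hw, mul_zero]
        refine top_eq_zero B _ halt (0, w) (fun h => hw0 (Prod.ext_iff.1 h).2) fun u => ?_
        rw [Split_apply, hw, map_zero]
        simp
    · push Not at hnd1
      obtain ⟨w, hw, hw0⟩ := hnd1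
      rw [top_eq_zero B₁ q₁ hq₁ w hw0 hw, mul_zero, zero_mul]
      refine top_eq_zero B _ halt (w, 0) (fun h => hw0 (Prod.ext_iff.1 h).1) fun u => ?_
      rw [Split_apply, hw, map_zero]
      simp

end Pool.Agent.W_9986fc_h24
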