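import Pool.Agent.W_9986fc_h24.Prod.Fub
import Pool.Agent.W_9986fc_h24.Prod.Split
import Pool.Agent.W_9986fc_h24.Prod.DecA
import Pool.Agent.W_9986fc_h24.Prod.Ori

/-!
Products of cohomologically symplectic manifolds.
-/

set_option autoImplicit false
set_option maxSynthPendingDepth 3

open scoped ContDiff
open Pool.Agent.W_9986fc_h15 MeasureTheory

namespace Pool.Agent.W_9986fc_h24

variable {E₁ E₂ : Type*} [NormedAddCommGroup E₁] [NormedSpace ℝ E₁] [FiniteDimensional ℝ E₁]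
  [MeasureSpace E₁] [BorelSpace E₁] [Measure.IsAddHaarMeasure (volume : Measure E₁)]
  [NormedAddCommGroup E₂] [NormedSpace ℝ E₂] [FiniteDimensional ℝ E₂]
  [MeasureSpace E₂] [BorelSpace E₂] [Measure.IsAddHaarMeasure (volume : Measure E₂)]
  {Γ₁ Γ₂ : Type*} [Group Γ₁] [Group Γ₂] [MulAction Γ₁ E₁] [MulAction Γ₂ E₂] {n m₁ m₂ r : ℕ}

omit [MeasureSpace E₁] [BorelSpace E₁]
  [Measure.IsAddHaarMeasure (volume : Measure E₁)] [MeasureSpace E₂] [BorelSpace E₂]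
  [Measure.IsAddHaarMeasure (volume : Measure E₂)] in
theorem CsB_form2 (h₁ : IsCover E₁ Γ₁) (h₂ : IsCover E₂ Γ₂)
    (a₁ : E₁ → E₁ →L[ℝ] E₁ →L[ℝ] ℝ) (ha₁ : Form2 Γ₁ a₁)
    (a₂ : E₂ → E₂ →L[ℝ] E₂ →L[ℝ] ℝ) (ha₂ : Form2 Γ₂ a₂) :
    Form2 (Γ₁ × Γ₂) (fun x : E₁ × E₂ => lift1 (a₁ x.1) + lift2 (a₂ x.2)) :=
  (form2_lift1 h₁ h₂ a₁ ha₁).add (form2_lift2 h₁ h₂ a₂ ha₂)

omit [MeasureSpace E₁] [BorelSpace E₁]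
  [Measure.IsAddHaarMeasure (volume : Measure E₁)] [MeasureSpace E₂] [BorelSpace E₂]
  [Measure.IsAddHaarMeasure (volume : Measure E₂)] in
theorem CsB_closed (h₁ : IsCover E₁ Γ₁) (h₂ : IsCover E₂ Γ₂)
    (a₁ : E₁ → E₁ →L[ℝ] E₁ →L[ℝ] ℝ) (ha₁ : Form2 Γ₁ a₁) (hc₁ : Closed a₁)
    (a₂ : E₂ → E₂ →L[ℝ] E₂ →L[ℝ] ℝ) (ha₂ : Form2 Γ₂ a₂) (hc₂ : Closed a₂) :
    Closed (fun x : E₁ × E₂ => lift1 (a₁ x.1) + lift2 (a₂ x.2)) :=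
  closed_add (form2_lift1 h₁ h₂ a₁ ha₁).toIsForm (form2_lift2 h₁ h₂ a₂ ha₂).toIsForm
    (closed_lift1 a₁ ha₁.smooth hc₁) (closed_lift2 a₂ ha₂.smooth hc₂)

/-- The converse: `α = lift1 a₁ + lift2 a₂`, `exists_split` and `integral_prod_mul`. -/
theorem csymp_prod (h₁ : IsCover E₁ Γ₁) (h₂ : IsCover E₂ Γ₂)
    (B : Module.Basis (Fin n × Fin 2) ℝ (E₁ × E₂)) (B₁ : Module.Basis (Fin m₁ × Fin 2) ℝ E₁)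
    (B₂ : Module.Basis (Fin m₂ × Fin 2) ℝ E₂) (hs₁ : CSymp Γ₁ B₁) (hs₂ : CSymp Γ₂ B₂)
    (hp : 0 < top B (lift1 (J B₁) + lift2 (J B₂))) : CSymp (Γ₁ × Γ₂) B := by
  obtain ⟨χ₁, a₁, hχ₁, ha₁, hc₁, hp₁⟩ := hs₁
  obtain ⟨χ₂, a₂, hχ₂, ha₂, hc₂, hp₂⟩ := hs₂
  obtain ⟨c, hc0, hcJ, hc⟩ := exists_split B B₁ B₂
  have hcpos : 0 < c := pos_of_mul_pos_left hcJ hp.le
  refine ⟨fun x => χ₁ x.1 * χ₂ x.2, fun x => lift1 (a₁ x.1) + lift2 (a₂ x.2),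
    Part.prod h₁ h₂ hχ₁ hχ₂, CsB_form2 h₁ h₂ a₁ ha₁ a₂ ha₂,
    CsB_closed h₁ h₂ a₁ ha₁ hc₁ a₂ ha₂ hc₂, ?_⟩
  have e1 : ∀ x : E₁ × E₂, χ₁ x.1 * χ₂ x.2 * top B (lift1 (a₁ x.1) + lift2 (a₂ x.2)) =
      c * ((χ₁ x.1 * top B₁ (a₁ x.1)) * (χ₂ x.2 * top B₂ (a₂ x.2))) := by
    intro x
    rw [hc _ _ (ha₁.alt x.1) (ha₂.alt x.2)]
    ring
  have e2 : ∫ x : E₁ × E₂, χ₁ x.1 * χ₂ x.2 * top B (lift1 (a₁ x.1) + lift2 (a₂ x.2)) =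
      c * ((∫ x, χ₁ x * top B₁ (a₁ x)) * ∫ y, χ₂ y * top B₂ (a₂ y)) := by
    rw [← integral_prod_mul (fun x => χ₁ x * top B₁ (a₁ x)) (fun y => χ₂ y * top B₂ (a₂ y)),
      ← integral_const_mul, Measure.volume_eq_prod]
    exact integral_congr_ae (Filter.Eventually.of_forall e1)
  rw [e2]
  exact mul_pos hcpos (mul_pos hp₁ hp₂)

/-- The product of symplectic forms (`exists_split`). -/
theorem symp_prod (h₁ : IsCover E₁ Γ₁) (h₂ : IsCover E₂ Γ₂)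
    (B : Module.Basis (Fin n × Fin 2) ℝ (E₁ × E₂)) (B₁ : Module.Basis (Fin m₁ × Fin 2) ℝ E₁)
    (B₂ : Module.Basis (Fin m₂ × Fin 2) ℝ E₂) (hs₁ : Symp Γ₁ B₁) (hs₂ : Symp Γ₂ B₂)
    (hp : 0 < top B (lift1 (J B₁) + lift2 (J B₂))) : Symp (Γ₁ × Γ₂) B := by
  obtain ⟨a₁, ha₁, hc₁, hp₁⟩ := hs₁
  obtain ⟨a₂, ha₂, hc₂, hp₂⟩ := hs₂
  obtain ⟨c, hc0, hcJ, hc⟩ := exists_split B B₁ B₂
  have hcpos : 0 < c := pos_of_mul_pos_left hcJ hp.le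
  refine ⟨fun x => lift1 (a₁ x.1) + lift2 (a₂ x.2), CsB_form2 h₁ h₂ a₁ ha₁ a₂ ha₂,
    CsB_closed h₁ h₂ a₁ ha₁ hc₁ a₂ ha₂ hc₂, ?_⟩
  intro x
  have e1 : top B (lift1 (a₁ x.1) + lift2 (a₂ x.2)) =
      c * top B₁ (a₁ x.1) * top B₂ (a₂ x.2) := hc _ _ (ha₁.alt x.1) (ha₂.alt x.2)
  rw [e1]
  exact mul_pos (mul_pos hcpos (hp₁ x.1)) (hp₂ x.2)

end Pool.Agent.W_9986fc_h24
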