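import Pool.Agent.W_9986fc_h24.Prod.CsA
import Pool.Agent.W_9986fc_h24.Prod.CsB

/-!
The product theorem.
-/

set_option autoImplicit false
set_option maxSynthPendingDepth 3

open scoped ContDiff
open Pool.Agent.W_9986fc_h15 MeasureTheory

namespace Pool.Agent.W_9986fc_h24

variable {E₁ E₂ : Type*} [NormedAddCommGroup E₁] [NormedSpace ℝ E₁] [FiniteDimensional ℝ E₁]
  [MeasureSpace E₁] [BorelSpace E₁] [Measure.IsAddHaarMeasure (volume : Measure E₁)]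
  [NormedAddCommGroup E₂] [NormedSpace ℝ E₂] [FiniteDimensional ℝ E₂]
  [MeasureSpace E₂] [BorelSpace E₂] [Measure.IsAddHaarMeasure (volume : Measure E₂)]
  {Γ₁ Γ₂ : Type*} [Group Γ₁] [Group Γ₂] [MulAction Γ₁ E₁] [MulAction Γ₂ E₂] {n m₁ m₂ r : ℕ}

/-- The product theorem. -/
theorem weak_prod (h₁ : IsCover E₁ Γ₁) (h₂ : IsCover E₂ Γ₂) (o₁ : Orient E₁ Γ₁)
    (o₂ : Orient E₂ Γ₂) (he : Even (Module.finrank ℝ E₁)) (w₁ : Weak E₁ Γ₁) (w₂ : Weak E₂ Γ₂) :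
    Weak (E₁ × E₂) (Γ₁ × Γ₂) := by
  intro n B hs
  obtain ⟨m₁, m₂, B₁, B₂, hs₁, hs₂, hp⟩ := csymp_factors h₁ h₂ o₁ o₂ he B hs
  exact symp_prod h₁ h₂ B B₁ B₂ (w₁ _ B₁ hs₁) (w₂ _ B₂ hs₂) hp

end Pool.Agent.W_9986fc_h24
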