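import Pool.Agent.W_9986fc_h24.Prod.Split

/-!
Elimination of the mixed part if the form on `E₂` is nondegenerate.
-/

set_option autoImplicit false
set_option maxSynthPendingDepth 3

open scoped ContDiff
open Pool.Agent.W_9986fc_h15

namespace Pool.Agent.W_9986fc_h24

variable {E₁ E₂ : Type*} [NormedAddCommGroup E₁] [NormedSpace ℝ E₁] [FiniteDimensional ℝ E₁]
  [NormedAddCommGroup E₂] [NormedSpace ℝ E₂] [FiniteDimensional ℝ E₂] {n m₁ m₂ r : ℕ}

omit [FiniteDimensional ℝ E₁] [FiniteDimensional ℝ E₂] in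
theorem ALa_apply (S : E₁ →L[ℝ] E₂) (x : E₁ × E₂) :
    ((ContinuousLinearMap.id ℝ (E₁ × E₂)) + (ContinuousLinearMap.inr ℝ E₁ E₂).comp
      (S.comp (ContinuousLinearMap.fst ℝ E₁ E₂))) x = (x.1, x.2 + S x.1) := by
  refine Prod.ext ?_ ?_
  · simp
  · simp

/-- A unipotent map has determinant one (compare `det_unip`, StructB of helper15). -/
theorem det_shear (S : E₁ →L[ℝ] E₂) :
    ((ContinuousLinearMap.id ℝ (E₁ × E₂)) + (ContinuousLinearMap.inr ℝ E₁ E₂).comp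
      (S.comp (ContinuousLinearMap.fst ℝ E₁ E₂))).det = 1 := by
  set U : (E₁ →L[ℝ] E₂) → ((E₁ × E₂) →L[ℝ] (E₁ × E₂)) := fun S =>
    (ContinuousLinearMap.id ℝ (E₁ × E₂)) + (ContinuousLinearMap.inr ℝ E₁ E₂).comp
      (S.comp (ContinuousLinearMap.fst ℝ E₁ E₂)) with hU
  have hUa : ∀ S x, U S x = (x.1, x.2 + S x.1) := ALa_apply
  set D : (E₁ × E₂) ≃ₗ[ℝ] (E₁ × E₂) := LinearEquiv.prodCongr (LinearEquiv.refl ℝ E₁)
    (LinearEquiv.smulOfNeZero ℝ E₂ (2 : ℝ) (by norm_num)) with hD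
  have hDa : ∀ x, D x = (x.1, (2 : ℝ) • x.2) := fun x => rfl
  have hDs : ∀ x, D.symm x = (x.1, (2 : ℝ)⁻¹ • x.2) := by
    intro x
    rw [LinearEquiv.symm_apply_eq, hDa]
    simp
  have h2 : ((U (S + S)) : (E₁ × E₂) →ₗ[ℝ] (E₁ × E₂)) =
      (U S).toLinearMap ∘ₗ (U S).toLinearMap := by
    apply LinearMap.ext
    intro x
    simp only [LinearMap.comp_apply, ContinuousLinearMap.coe_coe, hUa]
    refine Prod.ext rfl ?_
    simp [add_assoc]
  have h3 : (D : (E₁ × E₂) →ₗ[ℝ] (E₁ × E₂)) ∘ₗ (U S).toLinearMap ∘ₗ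
      (D.symm : (E₁ × E₂) →ₗ[ℝ] (E₁ × E₂)) = ((U (S + S)) : (E₁ × E₂) →ₗ[ℝ] (E₁ × E₂)) := by
    apply LinearMap.ext
    intro x
    simp only [LinearMap.comp_apply, LinearEquiv.coe_coe, ContinuousLinearMap.coe_coe, hUa, hDa,
      hDs]
    refine Prod.ext rfl ?_
    simp [smul_smul, two_smul]
  have h4 := LinearMap.det_conj (U S).toLinearMap D
  rw [h3, h2, LinearMap.det_comp] at h4
  have h5 : (U S).toLinearMap ∘ₗ (U (-S)).toLinearMap = LinearMap.id := by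
    apply LinearMap.ext
    intro x
    simp only [LinearMap.comp_apply, ContinuousLinearMap.coe_coe, hUa]
    refine Prod.ext rfl ?_
    simp
  have h6 := congrArg LinearMap.det h5
  rw [LinearMap.det_comp, LinearMap.det_id] at h6
  have h7 : LinearMap.det (U S).toLinearMap ≠ 0 := by
    intro h; rw [h, zero_mul] at h6; exact zero_ne_one h6
  have h8 : LinearMap.det (U S).toLinearMap = 1 :=
    mul_left_cancel₀ h7 (by rw [h4, mul_one])
  exact h8

/-- Elimination of the mixed part. Since `q₂` is nondegenerate there are `w i ∈ E₂` with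
`y i = q₂ (w i)`. Let `P (u, v) = (u, v + ∑ i, ξ i u • w i)`, a map of determinant one
(`det_shear`), and `T i j = - q₂ (w i) (w j) / 2`. Then the form on the left is the pullback of
`lift1 (q₁ + ∑ i, ∑ j, T i j • wedge (ξ i) (ξ j)) + lift2 q₂` under `P`: indeed
`q₂ (v + ∑ ξ i u • w i) (v' + ∑ ξ j u' • w j) = q₂ v v' + ∑ ξ i u * y i v' - ∑ ξ i u' * y i v +
∑ i, ∑ j, ξ i u * ξ j u' * q₂ (w i) (w j)`, using `q₂ v (w i) = - y i v`, and
`∑ i, ∑ j, T i j * (ξ i u * ξ j u' - ξ j u * ξ i u') = - ∑ i, ∑ j, q₂ (w i) (w j) * ξ i u * ξ j u'`.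
Conclude by `top_bilinearComp`. Note that `T` depends only on `q₂` and `y`. -/
theorem exists_elim (B : Module.Basis (Fin n × Fin 2) ℝ (E₁ × E₂)) (y : Fin r → E₂ →L[ℝ] ℝ)
    (q₂ : E₂ →L[ℝ] E₂ →L[ℝ] ℝ) (hq₂ : ∀ u, q₂ u u = 0)
    (hnd : ∀ u, (∀ v, q₂ u v = 0) → u = 0) :
    ∃ T : Fin r → Fin r → ℝ, ∀ (q₁ : E₁ →L[ℝ] E₁ →L[ℝ] ℝ) (ξ : Fin r → E₁ →L[ℝ] ℝ),
      top B (lift1 q₁ + mixF ξ y + lift2 q₂) =
        top B (lift1 (q₁ + ∑ i, ∑ j, T i j • wedge (ξ i) (ξ j)) + lift2 q₂) := by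
  have hsw : ∀ u v, q₂ u v = - q₂ v u := by
    intro u v
    have h := hq₂ (u + v)
    simp only [map_add, _root_.add_apply, hq₂, zero_add, add_zero] at h
    linarith
  have hinj : Function.Injective (q₂ : E₂ →ₗ[ℝ] E₂ →L[ℝ] ℝ) := by
    rw [injective_iff_map_eq_zero]
    intro u hu
    apply hnd
    intro v
    have h : q₂ u = 0 := hu
    rw [h]
    rfl
  have hfr : Module.finrank ℝ E₂ = Module.finrank ℝ (E₂ →L[ℝ] ℝ) := by
    rw [← (LinearMap.toContinuousLinearMap (𝕜 := ℝ) (E := E₂) (F' := ℝ)).finrank_eq]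
    exact (Subspace.dual_finrank_eq (K := ℝ) (V := E₂)).symm
  have hsurj : Function.Surjective (q₂ : E₂ →ₗ[ℝ] E₂ →L[ℝ] ℝ) :=
    (LinearMap.injective_iff_surjective_of_finrank_eq_finrank hfr).1 hinj
  choose w hw using fun i => hsurj (y i)
  have hwy : ∀ i v, q₂ (w i) v = y i v := by
    intro i v
    have h : q₂ (w i) = y i := hw i
    rw [h]
  refine ⟨fun i j => - q₂ (w i) (w j) / 2, fun q₁ ξ => ?_⟩
  set S : E₁ →L[ℝ] E₂ := ∑ i, (ξ i).smulRight (w i) with hS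
  have hSa : ∀ u, S u = ∑ i, ξ i u • w i := by
    intro u
    rw [hS, _root_.sum_apply]
    rfl
  have hT : ∀ u u', (∑ i, ∑ j, (- q₂ (w i) (w j) / 2) • wedge (ξ i) (ξ j)) u u' =
      - q₂ (S u) (S u') := by
    intro u u'
    have h1 : ∀ i j, wedge (ξ i) (ξ j) u u' = ξ i u * ξ j u' - ξ j u * ξ i u' :=
      fun i j => rfl
    simp only [_root_.sum_apply, h1, hSa, map_sum, map_smul, _root_.smul_apply, smul_eq_mul]
    have h2 : ∑ i, ∑ j, (- q₂ (w i) (w j) / 2) * (ξ i u * ξ j u' - ξ j u * ξ i u') =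
        ∑ i, ∑ j, (- q₂ (w i) (w j) / 2) * (ξ i u * ξ j u') +
        ∑ i, ∑ j, (q₂ (w j) (w i) / 2) * (ξ i u * ξ j u') := by
      rw [Finset.sum_comm (f := fun i j => (q₂ (w j) (w i) / 2) * (ξ i u * ξ j u')),
        ← Finset.sum_add_distrib]
      refine Finset.sum_congr rfl (fun i _ => ?_)
      rw [← Finset.sum_add_distrib]
      refine Finset.sum_congr rfl (fun j _ => ?_)
      ring
    have h3 : ∑ j, ξ j u' * ∑ i, ξ i u * q₂ (w i) (w j) =
        ∑ i, ∑ j, ξ j u' * (ξ i u * q₂ (w i) (w j)) := by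
      rw [Finset.sum_comm]
      refine Finset.sum_congr rfl (fun j _ => ?_)
      rw [Finset.mul_sum]
    rw [h2, h3, ← Finset.sum_add_distrib, ← Finset.sum_neg_distrib]
    refine Finset.sum_congr rfl (fun i _ => ?_)
    rw [← Finset.sum_add_distrib, ← Finset.sum_neg_distrib]
    refine Finset.sum_congr rfl (fun j _ => ?_)
    rw [hsw (w j) (w i)]
    ring
  have hP : lift1 q₁ + mixF ξ y + lift2 q₂ =
      (lift1 (q₁ + ∑ i, ∑ j, (- q₂ (w i) (w j) / 2) • wedge (ξ i) (ξ j)) + lift2 q₂).bilinearComp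
        ((ContinuousLinearMap.id ℝ (E₁ × E₂)) + (ContinuousLinearMap.inr ℝ E₁ E₂).comp
          (S.comp (ContinuousLinearMap.fst ℝ E₁ E₂)))
        ((ContinuousLinearMap.id ℝ (E₁ × E₂)) + (ContinuousLinearMap.inr ℝ E₁ E₂).comp
          (S.comp (ContinuousLinearMap.fst ℝ E₁ E₂))) := by
    refine ContinuousLinearMap.ext fun x => ContinuousLinearMap.ext fun z => ?_
    rw [ContinuousLinearMap.bilinearComp_apply, ALa_apply, ALa_apply]
    simp only [_root_.add_apply, lift1_apply, lift2_apply, mixF_apply, hT, map_add]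
    have h1 : q₂ (S x.1) z.2 = ∑ i, ξ i x.1 * y i z.2 := by
      rw [hSa, map_sum, _root_.sum_apply]
      refine Finset.sum_congr rfl (fun i _ => ?_)
      rw [map_smul, _root_.smul_apply, hwy, smul_eq_mul]
    have h2 : q₂ x.2 (S z.1) = - ∑ i, ξ i z.1 * y i x.2 := by
      rw [hsw, hSa, map_sum, _root_.sum_apply]
      congr 1
      refine Finset.sum_congr rfl (fun i _ => ?_)
      rw [map_smul, _root_.smul_apply, hwy, smul_eq_mul]
    rw [h1, h2, Finset.sum_sub_distrib]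
    have h3 : ∑ i, y i x.2 * ξ i z.1 = ∑ i, ξ i z.1 * y i x.2 :=
      Finset.sum_congr rfl (fun i _ => mul_comm _ _)
    rw [h3]
    ring
  rw [hP, top_bilinearComp, det_shear, one_mul]

end Pool.Agent.W_9986fc_h24
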