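import Pool.Agent.W_9986fc_h24.Prod.Split

/-!
The span of the functions `(q, ξ) ↦ top (q + ∑ T i j • wedge (ξ i) (ξ j))` is finite dimensional, and
nonvanishing of `top (q + t J)` for small `t`.
-/

set_option autoImplicit false
set_option maxSynthPendingDepth 3

open scoped ContDiff
open Pool.Agent.W_9986fc_h15

namespace Pool.Agent.W_9986fc_h24

variable {E : Type*} [NormedAddCommGroup E] [NormedSpace ℝ E] [FiniteDimensional ℝ E] {m r : ℕ}

/-- The function `(q, ξ) ↦ top B (q + ∑ i, ∑ j, T i j • wedge (ξ i) (ξ j))`. -/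
noncomputable def topT (B : Module.Basis (Fin m × Fin 2) ℝ E) (T : Fin r → Fin r → ℝ)
    (p : (E →L[ℝ] E →L[ℝ] ℝ) × (Fin r → E →L[ℝ] ℝ)) : ℝ :=
  top B (p.1 + ∑ i, ∑ j, T i j • wedge (p.2 i) (p.2 j))

/-- The forms which occur in `topT`. -/
noncomputable def FinA_F (o : Option (Fin r × Fin r))
    (p : (E →L[ℝ] E →L[ℝ] ℝ) × (Fin r → E →L[ℝ] ℝ)) : E →L[ℝ] E →L[ℝ] ℝ :=
  match o with
  | none => p.1
  | some ij => wedge (p.2 ij.1) (p.2 ij.2)

/-- The coefficients which occur in `topT`. -/
def FinA_c (T : Fin r → Fin r → ℝ) (o : Option (Fin r × Fin r)) : ℝ :=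
  match o with
  | none => 1
  | some ij => T ij.1 ij.2

omit [FiniteDimensional ℝ E] in
theorem FinA_expand (B : Module.Basis (Fin m × Fin 2) ℝ E) (T : Fin r → Fin r → ℝ) :
    topT B T = ∑ κ : Fin m → Option (Fin r × Fin r), (∏ i, FinA_c T (κ i)) •
      (fun p : (E →L[ℝ] E →L[ℝ] ℝ) × (Fin r → E →L[ℝ] ℝ) =>
        mix B (fun i => FinA_F (κ i) p)) := by
  funext p
  rw [Finset.sum_apply]
  simp only [Pi.smul_apply, smul_eq_mul]
  unfold topT top mix
  have h0 : ∀ u v : E, (p.1 + ∑ i, ∑ j, T i j • wedge (p.2 i) (p.2 j)) u v =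
      ∑ o : Option (Fin r × Fin r), FinA_c T o * FinA_F o p u v := by
    intro u v
    rw [Fintype.sum_option, Fintype.sum_prod_type]
    simp [FinA_c, FinA_F]
  simp_rw [h0, Finset.mul_sum]
  rw [Finset.sum_comm]
  refine Finset.sum_congr rfl fun σ _ => ?_
  rw [Finset.prod_univ_sum, Finset.mul_sum, Fintype.piFinset_univ]
  refine Finset.sum_congr rfl fun κ _ => ?_
  rw [Finset.prod_mul_distrib]
  ring

omit [FiniteDimensional ℝ E] in
/-- The span of the functions `topT B T` is finite dimensional: expand the product in the definition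
of `top` (`Finset.prod_univ_sum`, the sum in every factor being indexed by
`Option (Fin r × Fin r)`, with `none` for `q` and `some (i, j)` for `T i j • wedge (ξ i) (ξ j)`);
this writes `topT B T` as a linear combination, with coefficients depending on `T`, of finitely many
functions (indexed by `Fin m → Option (Fin r × Fin r)`) which do not depend on `T`. Hence the span
is contained in the span of a finite set. -/
theorem finite_span_topT (B : Module.Basis (Fin m × Fin 2) ℝ E) :
    FiniteDimensional ℝ (Submodule.span ℝ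
      (Set.range (fun T : Fin r → Fin r → ℝ => topT B T))) := by
  have hfin : FiniteDimensional ℝ (Submodule.span ℝ (Set.range
      (fun κ : Fin m → Option (Fin r × Fin r) =>
        (fun p : (E →L[ℝ] E →L[ℝ] ℝ) × (Fin r → E →L[ℝ] ℝ) =>
          mix B (fun i => FinA_F (κ i) p))))) :=
    FiniteDimensional.span_of_finite ℝ (Set.finite_range _)
  refine Submodule.finiteDimensional_of_le (Submodule.span_le.2 ?_) (S₂ := Submodule.span ℝ (Set.range
      (fun κ : Fin m → Option (Fin r × Fin r) =>
        (fun p : (E →L[ℝ] E →L[ℝ] ℝ) × (Fin r → E →L[ℝ] ℝ) =>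
          mix B (fun i => FinA_F (κ i) p)))))
  rintro _ ⟨T, rfl⟩
  simp only [SetLike.mem_coe]
  rw [FinA_expand]
  exact Submodule.sum_mem _ fun κ _ => Submodule.smul_mem _ _ (Submodule.subset_span ⟨κ, rfl⟩)

end Pool.Agent.W_9986fc_h24
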