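import Pool.Agent.W_9986fc_h24.Prod.Split

/-!
Nonvanishing of `top (q + t J)` for a sequence `t → 0`.
-/

set_option autoImplicit false
set_option maxSynthPendingDepth 3

open scoped ContDiff
open Pool.Agent.W_9986fc_h15 MeasureTheory

namespace Pool.Agent.W_9986fc_h24

variable {E : Type*} [NormedAddCommGroup E] [NormedSpace ℝ E] [FiniteDimensional ℝ E] {m r : ℕ}

omit [FiniteDimensional ℝ E] in
theorem FinB_poly (e : Fin m × Fin 2 → E) (q w : E →L[ℝ] E →L[ℝ] ℝ) :
    ∃ P : Polynomial ℝ, ∀ t : ℝ, top e (q + t • w) = P.eval t := by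
  refine ⟨∑ σ : Equiv.Perm (Fin m × Fin 2), Polynomial.C ((Equiv.Perm.sign σ : ℤ) : ℝ) *
    ∏ i, (Polynomial.C (q (e (σ (i, 0))) (e (σ (i, 1)))) +
      Polynomial.X * Polynomial.C (w (e (σ (i, 0))) (e (σ (i, 1))))), fun t => ?_⟩
  rw [Polynomial.eval_finsetSum]
  unfold top
  refine Finset.sum_congr rfl fun σ _ => ?_
  rw [Polynomial.eval_mul, Polynomial.eval_C, Polynomial.eval_prod]
  congr 1
  refine Finset.prod_congr rfl fun i _ => ?_
  rw [Polynomial.eval_add, Polynomial.eval_mul, Polynomial.eval_C, Polynomial.eval_X,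
    Polynomial.eval_C]
  rfl

omit [FiniteDimensional ℝ E] in
theorem FinB_smul (e : Fin m × Fin 2 → E) (q : E →L[ℝ] E →L[ℝ] ℝ) (s : ℝ) :
    top e (s • q) = s ^ m * top e q := by
  unfold top
  rw [Finset.mul_sum]
  refine Finset.sum_congr rfl fun σ _ => ?_
  have h : ∏ i, (s • q) (e (σ (i, 0))) (e (σ (i, 1))) =
      ∏ i : Fin m, (s * q (e (σ (i, 0))) (e (σ (i, 1)))) := rfl
  rw [h, Finset.prod_mul_distrib, Finset.prod_const, Finset.card_univ, Fintype.card_fin]
  ring

/-- There is a sequence `t j → 0`, `t j ≠ 0`, with `top B (q + t j • J B) ≠ 0`: the function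
`t ↦ top B (q + t • J B)` is a polynomial in `t` (a sum over permutations of products of linear
functions of `t`), which is not the zero polynomial because its coefficient of degree `m` is
`top B (J B) > 0` (`top_J_pos`); equivalently `t ^ m * top B (t⁻¹ • q + J B)` is nonzero for large
`t` by continuity. A nonzero polynomial has finitely many roots. -/
theorem exists_seq (B : Module.Basis (Fin m × Fin 2) ℝ E) (q : E →L[ℝ] E →L[ℝ] ℝ) :
    ∃ t : ℕ → ℝ, Filter.Tendsto t Filter.atTop (nhds 0) ∧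
      ∀ j, top B (q + t j • J B) ≠ 0 := by
  obtain ⟨P, hP⟩ := FinB_poly (B : Fin m × Fin 2 → E) q (J B)
  have hP0 : P ≠ 0 := by
    rintro rfl
    have hz : ∀ t : ℝ, top B (q + t • J B) = 0 := fun t => by rw [hP, Polynomial.eval_zero]
    have hs : ∀ s : ℝ, s ≠ 0 → top B (s • q + J B) = 0 := by
      intro s hs
      have h1 : s • q + J B = s • (q + s⁻¹ • J B) := by
        rw [smul_add, smul_smul, mul_inv_cancel₀ hs, one_smul]
      rw [h1, FinB_smul, hz, mul_zero]
    have hcont : Continuous fun s : ℝ => top B (s • q + J B) := by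
      unfold top
      refine continuous_finsetSum _ fun σ _ => continuous_const.mul ?_
      refine continuous_finsetProd _ fun i _ => ?_
      have : (fun s : ℝ => (s • q + J B) (B (σ (i, 0))) (B (σ (i, 1)))) = fun s : ℝ =>
          s * q (B (σ (i, 0))) (B (σ (i, 1))) + J B (B (σ (i, 0))) (B (σ (i, 1))) := rfl
      rw [this]
      fun_prop
    have h2 : (fun s : ℝ => top B (s • q + J B)) = fun _ => 0 := by
      refine hcont.ext_on (dense_compl_singleton (0 : ℝ)) continuous_const ?_
      intro s hs'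
      exact hs s hs'
    have h3 := congrFun h2 0
    simp only [zero_smul, zero_add] at h3
    exact (top_J_pos B).ne' h3
  have hfin : {j : ℕ | (1 / ((j : ℝ) + 1)) ∈ {x | P.IsRoot x}}.Finite := by
    refine Set.Finite.preimage ?_ (Polynomial.finite_setOfPred_isRoot hP0)
    intro a _ b _ hab
    simp only [one_div, inv_inj] at hab
    exact_mod_cast add_right_cancel hab
  obtain ⟨N, hN⟩ := hfin.bddAbove
  refine ⟨fun j => 1 / (((j + (N + 1) : ℕ) : ℝ) + 1), ?_, ?_⟩
  · exact (tendsto_one_div_add_atTop_nhds_zero_nat (𝕜 := ℝ)).comp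
      (Filter.tendsto_add_atTop_nat (N + 1))
  · intro j hj
    rw [hP] at hj
    have := hN (show (j + (N + 1)) ∈ {j : ℕ | (1 / ((j : ℝ) + 1)) ∈ {x | P.IsRoot x}} from hj)
    omega

end Pool.Agent.W_9986fc_h24
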