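import Pool.Agent.W_9986fc_h24.Prod.ALa
import Pool.Agent.W_9986fc_h24.Prod.FinA
import Pool.Agent.W_9986fc_h24.Prod.FinB

/-!
The algebraic lemma: integration over the second factor.
-/

set_option autoImplicit false
set_option maxSynthPendingDepth 3

open scoped ContDiff
open Pool.Agent.W_9986fc_h15

namespace Pool.Agent.W_9986fc_h24

variable {E₁ E₂ : Type*} [NormedAddCommGroup E₁] [NormedSpace ℝ E₁] [FiniteDimensional ℝ E₁]
  [NormedAddCommGroup E₂] [NormedSpace ℝ E₂] [FiniteDimensional ℝ E₂] {n m₁ m₂ r : ℕ}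

theorem ALb_J_alt {E : Type*} [NormedAddCommGroup E] [NormedSpace ℝ E]
    [FiniteDimensional ℝ E] {m : ℕ} (B : Module.Basis (Fin m × Fin 2) ℝ E) (u : E) :
    J B u u = 0 := by
  rw [J_apply]
  refine Finset.sum_eq_zero fun i _ => ?_
  ring

theorem ALb_top_smul_cont {E : Type*} [NormedAddCommGroup E] [NormedSpace ℝ E] {m : ℕ}
    (e : Fin m × Fin 2 → E) : Continuous (fun q : E →L[ℝ] E →L[ℝ] ℝ => top e q) := by
  unfold top
  refine continuous_finsetSum _ fun σ _ => continuous_const.mul ?_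
  refine continuous_finsetProd _ fun i _ => ?_
  exact (continuous_id.clm_apply continuous_const).clm_apply continuous_const

/-- The algebraic lemma. Let `X` be the set of pairs `(q₁, ξ)` with `q₁` alternating, and consider
functions on `X`. Let `W` be the span of the functions `topT B₁ T` (restricted to `X`); it is finite
dimensional (`finite_span_topT`, and the restriction is a linear map), hence closed in `X → ℝ` with
the topology of pointwise convergence (`Submodule.closed_of_finiteDimensional`). For `t` with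
`top B₂ (q₂ + t • J B₂) ≠ 0` the form `q₂ + t • J B₂` is nondegenerate (`top_eq_zero`, AlgA of
helper15), so by `exists_elim` and `exists_split` the function
`Ψ t (q₁, ξ) = top B (lift1 q₁ + mixF ξ y + lift2 (q₂ + t • J B₂))` is a multiple of `topT B₁ T`,
an element of `W`. By `exists_seq` there is a sequence `t j → 0` of such numbers, and
`Ψ (t j) → Ψ 0` pointwise (`top` is a polynomial, hence continuous, in the form). Hence `Ψ 0 ∈ W`,
i.e. it is a finite linear combination of functions `topT B₁ T`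
(`Submodule.mem_span_range_iff_exists_finsupp` or `Submodule.span_induction`). -/
theorem exists_combination (B : Module.Basis (Fin n × Fin 2) ℝ (E₁ × E₂))
    (B₁ : Module.Basis (Fin m₁ × Fin 2) ℝ E₁) (B₂ : Module.Basis (Fin m₂ × Fin 2) ℝ E₂)
    (y : Fin r → E₂ →L[ℝ] ℝ) (q₂ : E₂ →L[ℝ] E₂ →L[ℝ] ℝ) (hq₂ : ∀ u, q₂ u u = 0) :
    ∃ (N : ℕ) (c : Fin N → ℝ) (T : Fin N → Fin r → Fin r → ℝ),
      ∀ (q₁ : E₁ →L[ℝ] E₁ →L[ℝ] ℝ) (ξ : Fin r → E₁ →L[ℝ] ℝ), (∀ u, q₁ u u = 0) →
        top B (lift1 q₁ + mixF ξ y + lift2 q₂) =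
          ∑ s, c s * top B₁ (q₁ + ∑ i, ∑ j, T s i j • wedge (ξ i) (ξ j)) := by
  classical
  set X := {q : E₁ →L[ℝ] E₁ →L[ℝ] ℝ // ∀ u, q u u = 0} × (Fin r → E₁ →L[ℝ] ℝ) with hX
  set res : (((E₁ →L[ℝ] E₁ →L[ℝ] ℝ) × (Fin r → E₁ →L[ℝ] ℝ)) → ℝ) →ₗ[ℝ] (X → ℝ) :=
    LinearMap.funLeft ℝ ℝ (fun x : X => (x.1.1, x.2)) with hres
  set W0 : Submodule ℝ (((E₁ →L[ℝ] E₁ →L[ℝ] ℝ) × (Fin r → E₁ →L[ℝ] ℝ)) → ℝ) :=
    Submodule.span ℝ (Set.range (fun T : Fin r → Fin r → ℝ => topT B₁ T)) with hW0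
  have : FiniteDimensional ℝ W0 := finite_span_topT B₁
  have hcl : IsClosed ((W0.map res : Submodule ℝ (X → ℝ)) : Set (X → ℝ)) :=
    Submodule.closed_of_finiteDimensional _
  set Ψ : ℝ → X → ℝ := fun t x =>
    top B (lift1 x.1.1 + mixF x.2 y + lift2 (q₂ + t • J B₂)) with hΨ
  obtain ⟨c, -, -, hc⟩ := exists_split B B₁ B₂
  have hmem : ∀ t : ℝ, top B₂ (q₂ + t • J B₂) ≠ 0 → Ψ t ∈ W0.map res := by
    intro t ht
    have halt : ∀ u, (q₂ + t • J B₂) u u = 0 := by
      intro u
      simp only [_root_.add_apply, _root_.smul_apply, hq₂, ALb_J_alt, smul_zero, add_zero]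
    have hnd : ∀ u, (∀ v, (q₂ + t • J B₂) u v = 0) → u = 0 := by
      intro u hu
      by_contra hne
      exact ht (top_eq_zero B₂ _ halt u hne hu)
    obtain ⟨T, hT⟩ := exists_elim B y (q₂ + t • J B₂) halt hnd
    refine ⟨(c * top B₂ (q₂ + t • J B₂)) • topT B₁ T, ?_, ?_⟩
    · exact W0.smul_mem _ (Submodule.subset_span ⟨T, rfl⟩)
    · funext x
      have halt1 : ∀ u, (x.1.1 + ∑ i, ∑ j, T i j • wedge (x.2 i) (x.2 j)) u u = 0 := by
        intro u
        simp only [_root_.add_apply, _root_.sum_apply, _root_.smul_apply, x.1.2 u, zero_add]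
        refine Finset.sum_eq_zero fun i _ => Finset.sum_eq_zero fun j _ => ?_
        have h0 : wedge (x.2 i) (x.2 j) u u = 0 := by
          simp only [wedge, _root_.sub_apply, ContinuousLinearMap.smulRight_apply,
            _root_.smul_apply, smul_eq_mul]
          ring
        rw [h0, smul_zero]
      rw [hΨ]
      simp only
      rw [hT, hc _ _ halt1 halt]
      rw [hres, LinearMap.funLeft_apply]
      simp only [Pi.smul_apply, smul_eq_mul, topT]
      ring
  obtain ⟨t, ht0, ht1⟩ := exists_seq B₂ q₂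
  have hlim : Filter.Tendsto (fun j => Ψ (t j)) Filter.atTop (nhds (Ψ 0)) := by
    rw [tendsto_pi_nhds]
    intro x
    have hcont : Continuous fun s : ℝ => Ψ s x := by
      have h1 : Continuous fun s : ℝ => (lift1 x.1.1 + mixF x.2 y + lift2 (q₂ + s • J B₂) :
          (E₁ × E₂) →L[ℝ] (E₁ × E₂) →L[ℝ] ℝ) := by
        have h2 : ∀ s : ℝ, (lift2 (q₂ + s • J B₂) : (E₁ × E₂) →L[ℝ] (E₁ × E₂) →L[ℝ] ℝ) =
            lift2 q₂ + s • lift2 (J B₂) := by
          intro s
          refine ContinuousLinearMap.ext fun u => ContinuousLinearMap.ext fun v => ?_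
          simp only [_root_.add_apply, _root_.smul_apply, lift2_apply]
        simp_rw [h2]
        exact continuous_const.add (continuous_const.add (continuous_id.smul continuous_const))
      exact (ALb_top_smul_cont B).comp h1
    exact (hcont.tendsto 0).comp ht0
  have hΨ0 : Ψ 0 ∈ W0.map res :=
    hcl.mem_of_tendsto hlim (Filter.Eventually.of_forall fun j => hmem (t j) (ht1 j))
  obtain ⟨f, hf, hfres⟩ := hΨ0
  obtain ⟨N, a, g, hg⟩ := (Submodule.mem_span_set' (R := ℝ)).1 hf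
  choose T hT using fun i => (g i).2
  refine ⟨N, a, T, fun q₁ ξ hq₁ => ?_⟩
  have h1 := congrFun hfres (⟨q₁, hq₁⟩, ξ)
  rw [hres, LinearMap.funLeft_apply, ← hg] at h1
  simp only [hΨ, zero_smul, add_zero] at h1
  rw [← h1, Finset.sum_apply]
  refine Finset.sum_congr rfl fun s _ => ?_
  rw [Pi.smul_apply, ← hT s]
  rfl

end Pool.Agent.W_9986fc_h24
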