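import Pool.Agent.W_9986fc_h15.AlgA
import Pool.Agent.W_9986fc_h15.Calc
import Pool.Agent.W_9986fc_h15.AlgC

/-!
The top power of `q + t • wedge ξ ξ'` is affine in `t`; bases with the opposite orientation.
-/

set_option autoImplicit false
set_option maxSynthPendingDepth 3

open scoped ContDiff
open Pool.Agent.W_9986fc_h15

namespace Pool.Agent.W_9986fc_h24

variable {E : Type*} [NormedAddCommGroup E] [NormedSpace ℝ E] {m : ℕ}

/-- If `wedge ξ ξ'` occurs in two different positions, `mix` vanishes. Proof: expand the two factors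
`ξ a * ξ' b - ξ' a * ξ b` at the positions `i` and `j`; in each of the four terms there are two
positions (one of `(i, 0), (i, 1)` and one of `(j, 0), (j, 1)`) with the same covector `ξ`, and the
sum over all permutations `σ` changes sign under `σ ↦ σ * swap` of these two positions
(`Calc_reindex`; the other factors are not changed). -/
theorem mix_wedge_wedge (e : Fin m × Fin 2 → E) (ξ ξ' : E →L[ℝ] ℝ) (q : Fin m → E →L[ℝ] E →L[ℝ] ℝ)
    (i j : Fin m) (hij : i ≠ j) (hi : q i = wedge ξ ξ') (hj : q j = wedge ξ ξ') :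
    mix e q = 0 := by
  set W : E → E → ℝ := fun u v => ξ u * ξ' v - ξ' u * ξ v with hW
  set R : Equiv.Perm (Fin m × Fin 2) → ℝ := fun σ =>
    ∏ l ∈ (Finset.univ.erase i).erase j, q l (e (σ (l, 0))) (e (σ (l, 1))) with hR
  set f : Equiv.Perm (Fin m × Fin 2) → ℝ := fun σ => ((Equiv.Perm.sign σ : ℤ) : ℝ) *
    (W (e (σ (i, 0))) (e (σ (i, 1))) * (W (e (σ (j, 0))) (e (σ (j, 1))) * R σ)) with hf
  have hmix : mix e q = ∑ σ, f σ := by
    unfold mix
    refine Finset.sum_congr rfl fun σ _ => ?_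
    rw [← Finset.mul_prod_erase Finset.univ _ (Finset.mem_univ i),
      ← Finset.mul_prod_erase (Finset.univ.erase i) _
        (Finset.mem_erase.2 ⟨hij.symm, Finset.mem_univ j⟩), hi, hj, wedge_apply, wedge_apply]
  have n1 : ((i, 1) : Fin m × Fin 2) ≠ (j, 0) := fun h => hij (congrArg Prod.fst h)
  have n2 : ((i, 1) : Fin m × Fin 2) ≠ (j, 1) := fun h => hij (congrArg Prod.fst h)
  have n3 : ((i, 0) : Fin m × Fin 2) ≠ (i, 1) := fun h => by simp at h
  have n4 : ((i, 0) : Fin m × Fin 2) ≠ (j, 0) := fun h => hij (congrArg Prod.fst h)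
  have n5 : ((i, 0) : Fin m × Fin 2) ≠ (j, 1) := fun h => hij (congrArg Prod.fst h)
  have n6 : ((j, 0) : Fin m × Fin 2) ≠ (j, 1) := fun h => by simp at h
  have hRc : ∀ (c : Fin 2) (σ : Equiv.Perm (Fin m × Fin 2)),
      R (σ * Equiv.swap (i, 1) (j, c)) = R σ := by
    intro c σ
    simp only [hR]
    refine Finset.prod_congr rfl (fun l hl => ?_)
    have hlj : l ≠ j := Finset.ne_of_mem_erase hl
    have hli : l ≠ i := Finset.ne_of_mem_erase (Finset.mem_of_mem_erase hl)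
    have h : ∀ b : Fin 2, (σ * Equiv.swap (i, 1) (j, c)) (l, b) = σ (l, b) := by
      intro b
      rw [Equiv.Perm.mul_apply, Equiv.swap_apply_of_ne_of_ne
        (fun h => hli (congrArg Prod.fst h)) (fun h => hlj (congrArg Prod.fst h))]
    rw [h, h]
  have hs1 : ∀ σ : Equiv.Perm (Fin m × Fin 2),
      ((Equiv.Perm.sign (σ * Equiv.swap (i, 1) (j, 0)) : ℤ) : ℝ) =
        -((Equiv.Perm.sign σ : ℤ) : ℝ) := by
    intro σ
    rw [Equiv.Perm.sign_mul, Equiv.Perm.sign_swap n1]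
    simp
  have hs2 : ∀ σ : Equiv.Perm (Fin m × Fin 2),
      ((Equiv.Perm.sign (σ * Equiv.swap (i, 1) (j, 1)) : ℤ) : ℝ) =
        -((Equiv.Perm.sign σ : ℤ) : ℝ) := by
    intro σ
    rw [Equiv.Perm.sign_mul, Equiv.Perm.sign_swap n2]
    simp
  have e1 : ∀ σ, f (σ * Equiv.swap (i, 1) (j, 0)) = -((Equiv.Perm.sign σ : ℤ) : ℝ) *
      (W (e (σ (i, 0))) (e (σ (j, 0))) * (W (e (σ (i, 1))) (e (σ (j, 1))) * R σ)) := by
    intro σ
    simp only [hf]
    rw [hs1, hRc, Equiv.Perm.mul_apply, Equiv.Perm.mul_apply, Equiv.Perm.mul_apply,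
      Equiv.Perm.mul_apply, Equiv.swap_apply_of_ne_of_ne n3 n4, Equiv.swap_apply_left,
      Equiv.swap_apply_right, Equiv.swap_apply_of_ne_of_ne n2.symm n6.symm]
  have e2 : ∀ σ, f (σ * Equiv.swap (i, 1) (j, 1)) = -((Equiv.Perm.sign σ : ℤ) : ℝ) *
      (W (e (σ (i, 0))) (e (σ (j, 1))) * (W (e (σ (j, 0))) (e (σ (i, 1))) * R σ)) := by
    intro σ
    simp only [hf]
    rw [hs2, hRc, Equiv.Perm.mul_apply, Equiv.Perm.mul_apply, Equiv.Perm.mul_apply,
      Equiv.Perm.mul_apply, Equiv.swap_apply_of_ne_of_ne n3 n5, Equiv.swap_apply_left,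
      Equiv.swap_apply_right, Equiv.swap_apply_of_ne_of_ne n1.symm n6]
  have s1 : ∑ σ, f σ = ∑ σ, f (σ * Equiv.swap (i, 1) (j, 0)) := Calc_reindex _ f
  have s2 : ∑ σ, f σ = ∑ σ, f (σ * Equiv.swap (i, 1) (j, 1)) := Calc_reindex _ f
  have s3 : ∑ σ, (f σ + f (σ * Equiv.swap (i, 1) (j, 0)) + f (σ * Equiv.swap (i, 1) (j, 1)))
      = 0 := by
    refine Finset.sum_eq_zero (fun σ _ => ?_)
    rw [e1, e2]
    simp only [hf, hW]
    ring
  rw [Finset.sum_add_distrib, Finset.sum_add_distrib] at s3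
  rw [hmix]
  linarith

theorem AffA_expand (e : Fin m × Fin 2 → E) (q w : E →L[ℝ] E →L[ℝ] ℝ) (t : ℝ) :
    top e (q + t • w) = ∑ s : Finset (Fin m), t ^ (Finset.univ \ s).card *
      mix e (fun i => if i ∈ s then q else w) := by
  unfold top mix
  simp_rw [Finset.mul_sum]
  rw [Finset.sum_comm]
  refine Finset.sum_congr rfl fun σ _ => ?_
  have h1 : ∏ i, (q + t • w) (e (σ (i, 0))) (e (σ (i, 1))) =
      ∏ i, (q (e (σ (i, 0))) (e (σ (i, 1))) + t * w (e (σ (i, 0))) (e (σ (i, 1)))) := rfl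
  rw [h1, Finset.prod_add, Finset.mul_sum, Finset.powerset_univ]
  refine Finset.sum_congr rfl fun s _ => ?_
  rw [Finset.prod_mul_distrib, Finset.prod_const]
  have h2 : ∏ i, (if i ∈ s then q else w) (e (σ (i, 0))) (e (σ (i, 1))) =
      (∏ i ∈ s, q (e (σ (i, 0))) (e (σ (i, 1)))) *
        ∏ i ∈ Finset.univ \ s, w (e (σ (i, 0))) (e (σ (i, 1))) := by
    rw [← Finset.prod_sdiff (Finset.subset_univ s), mul_comm]
    congr 1
    · refine Finset.prod_congr rfl fun i hi => ?_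
      rw [if_pos hi]
    · refine Finset.prod_congr rfl fun i hi => ?_
      rw [if_neg (Finset.mem_sdiff.1 hi).2]
  rw [h2]
  ring

/-- The top power is affine in the direction of a decomposable form: expand
`∏ i, (q + t wedge) = ∑ s, t ^ |s| ∏ i ∈ s wedge ∏ i ∉ s q` (`Finset.prod_add`), and the terms with
`|s| ≥ 2` vanish by `mix_wedge_wedge`. -/
theorem top_affine (e : Fin m × Fin 2 → E) (q : E →L[ℝ] E →L[ℝ] ℝ) (ξ ξ' : E →L[ℝ] ℝ) :
    ∀ t : ℝ, top e (q + t • wedge ξ ξ') = top e q + t * (top e (q + wedge ξ ξ') - top e q) := by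
  intro t
  have h0 := AffA_expand e q (wedge ξ ξ') 0
  have h1 := AffA_expand e q (wedge ξ ξ') 1
  have ht := AffA_expand e q (wedge ξ ξ') t
  rw [zero_smul, add_zero] at h0
  rw [one_smul] at h1
  rw [h0, h1, ht, ← Finset.sum_sub_distrib, Finset.mul_sum, ← Finset.sum_add_distrib]
  refine Finset.sum_congr rfl fun s _ => ?_
  rcases Nat.lt_or_ge (Finset.univ \ s).card 2 with hc | hc
  · interval_cases (Finset.univ \ s).card
    · simp
    · simp
  · obtain ⟨i, hi, j, hj, hij⟩ := Finset.one_lt_card.1 hc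
    have hz : mix e (fun i => if i ∈ s then q else wedge ξ ξ') = 0 :=
      mix_wedge_wedge e ξ ξ' _ i j hij (if_neg (Finset.mem_sdiff.1 hi).2)
        (if_neg (Finset.mem_sdiff.1 hj).2)
    rw [hz]
    ring

end Pool.Agent.W_9986fc_h24
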