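import Pool.Agent.W_9986fc_h24.Prod.PDefs
import Pool.Agent.W_9986fc_h24.Unf

/-!
The product action is smooth, proper, cocompact and orientation preserving; products of partitions
of unity.
-/

set_option autoImplicit false
set_option maxSynthPendingDepth 3

open scoped ContDiff
open Pool.Agent.W_9986fc_h15 MeasureTheory

namespace Pool.Agent.W_9986fc_h24

variable {E₁ E₂ : Type*} [NormedAddCommGroup E₁] [NormedSpace ℝ E₁] [FiniteDimensional ℝ E₁]
  [NormedAddCommGroup E₂] [NormedSpace ℝ E₂] [FiniteDimensional ℝ E₂]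
  {Γ₁ Γ₂ : Type*} [Group Γ₁] [Group Γ₂] [MulAction Γ₁ E₁] [MulAction Γ₂ E₂]

/-- The product action is smooth (`ContDiff.prodMap`), proper (a compact set `K` is contained in the
product of the compact sets `Prod.fst '' K` and `Prod.snd '' K`, so that the set of `g` in question
is contained in a product of two finite sets) and cocompact (`K₁ ×ˢ K₂`). -/
theorem IsCover.prod (h₁ : IsCover E₁ Γ₁) (h₂ : IsCover E₂ Γ₂) :
    IsCover (E₁ × E₂) (Γ₁ × Γ₂) where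
  smooth g := (h₁.smooth g.1).prodMap (h₂.smooth g.2)
  proper K hK := by
    have f1 := h₁.proper _ (hK.image continuous_fst)
    have f2 := h₂.proper _ (hK.image continuous_snd)
    refine (f1.prod f2).subset ?_
    rintro g ⟨x, hx, hgx⟩
    exact ⟨⟨x.1, ⟨x, hx, rfl⟩, ⟨g • x, hgx, rfl⟩⟩, ⟨x.2, ⟨x, hx, rfl⟩, ⟨g • x, hgx, rfl⟩⟩⟩
  cocompact := by
    obtain ⟨K₁, hK₁, H₁⟩ := h₁.cocompact
    obtain ⟨K₂, hK₂, H₂⟩ := h₂.cocompact
    refine ⟨K₁ ×ˢ K₂, hK₁.prod hK₂, fun x => ?_⟩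
    obtain ⟨g₁, hg₁⟩ := H₁ x.1
    obtain ⟨g₂, hg₂⟩ := H₂ x.2
    exact ⟨(g₁, g₂), ⟨hg₁, hg₂⟩⟩

/-- The derivative of the product action (`HasFDerivAt.prodMap`). -/
theorem fderiv_prod_smul (h₁ : IsCover E₁ Γ₁) (h₂ : IsCover E₂ Γ₂) (g : Γ₁ × Γ₂) (x : E₁ × E₂) :
    fderiv ℝ (fun x : E₁ × E₂ => g • x) x =
      (fderiv ℝ (fun x : E₁ => g.1 • x) x.1).prodMap (fderiv ℝ (fun x : E₂ => g.2 • x) x.2) :=
  ((smul_hasFDerivAt h₁ g.1 x.1).prodMap x (smul_hasFDerivAt h₂ g.2 x.2)).fderiv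

/-- The derivatives of the partial actions. -/
theorem fderiv_actL (h₁ : IsCover E₁ Γ₁) (g : Γ₁) (x : E₁ × E₂) :
    fderiv ℝ (actL g) x =
      (fderiv ℝ (fun x : E₁ => g • x) x.1).prodMap (ContinuousLinearMap.id ℝ E₂) :=
  ((smul_hasFDerivAt h₁ g x.1).prodMap x (hasFDerivAt_id x.2)).fderiv

theorem fderiv_actR (h₂ : IsCover E₂ Γ₂) (g : Γ₂) (x : E₁ × E₂) :
    fderiv ℝ (actR g) x =
      (ContinuousLinearMap.id ℝ E₁).prodMap (fderiv ℝ (fun x : E₂ => g • x) x.2) :=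
  ((hasFDerivAt_id x.1).prodMap x (smul_hasFDerivAt h₂ g x.2)).fderiv

/-- The partial actions are smooth. -/
theorem contDiff_actL (h₁ : IsCover E₁ Γ₁) (g : Γ₁) :
    ContDiff ℝ ∞ (actL g : E₁ × E₂ → E₁ × E₂) :=
  (h₁.smooth g).prodMap contDiff_id

theorem contDiff_actR (h₂ : IsCover E₂ Γ₂) (g : Γ₂) :
    ContDiff ℝ ∞ (actR g : E₁ × E₂ → E₁ × E₂) :=
  contDiff_id.prodMap (h₂.smooth g)

/-- The determinant of a product map. -/
theorem Cover_aux_det (P : E₁ →L[ℝ] E₁) (Q : E₂ →L[ℝ] E₂) :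
    (P.prodMap Q).det = P.det * Q.det := by
  have h : ((P.prodMap Q : (E₁ × E₂) →L[ℝ] (E₁ × E₂)) : (E₁ × E₂) →ₗ[ℝ] (E₁ × E₂)) =
      (P : E₁ →ₗ[ℝ] E₁).prodMap (Q : E₂ →ₗ[ℝ] E₂) := rfl
  rw [ContinuousLinearMap.det, h, LinearMap.det_prodMap]

/-- The product action preserves the orientation: the determinant of `P.prodMap Q` is the product
of the determinants (`LinearMap.det_prodMap`, or with bases and block matrices). -/
theorem Orient.prod (h₁ : IsCover E₁ Γ₁) (h₂ : IsCover E₂ Γ₂) (o₁ : Orient E₁ Γ₁)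
    (o₂ : Orient E₂ Γ₂) : Orient (E₁ × E₂) (Γ₁ × Γ₂) := by
  intro g x
  rw [fderiv_prod_smul h₁ h₂, Cover_aux_det]
  exact mul_pos (o₁ g.1 x.1) (o₂ g.2 x.2)

/-- Products of partitions of unity: the support of `(x, y) ↦ χ₁ x * χ₂ y` is contained in the
product of the compact supports, and the sum over `Γ₁ × Γ₂` is the product of the two sums (only
finitely many terms are nonzero at a point, by `GSum_aux1` and `CSup.finite`). -/
theorem Part.prod (h₁ : IsCover E₁ Γ₁) (h₂ : IsCover E₂ Γ₂) {χ₁ : E₁ → ℝ} {χ₂ : E₂ → ℝ}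
    (hχ₁ : Part Γ₁ χ₁) (hχ₂ : Part Γ₂ χ₂) :
    Part (Γ₁ × Γ₂) (fun x : E₁ × E₂ => χ₁ x.1 * χ₂ x.2) where
  smooth := (hχ₁.smooth.comp contDiff_fst).mul (hχ₂.smooth.comp contDiff_snd)
  compact := by
    refine HasCompactSupport.intro (IsCompact.prod hχ₁.compact hχ₂.compact) ?_
    intro x hx
    by_cases h : x.1 ∈ tsupport χ₁
    · have h2 : x.2 ∉ tsupport χ₂ := fun h2 => hx ⟨h, h2⟩
      rw [image_eq_zero_of_notMem_tsupport h2, mul_zero]
    · rw [image_eq_zero_of_notMem_tsupport h, zero_mul]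
  sum x := by
    classical
    have f1 : {g : Γ₁ | χ₁ (g • x.1) ≠ 0}.Finite := CSup.finite h₁ (GSum_aux1 hχ₁.compact) x.1
    have f2 : {g : Γ₂ | χ₂ (g • x.2) ≠ 0}.Finite := CSup.finite h₂ (GSum_aux1 hχ₂.compact) x.2
    have s1 : ∑ g ∈ f1.toFinset, χ₁ (g • x.1) = 1 := by
      rw [← hχ₁.sum x.1]
      symm
      refine finsum_eq_sum_of_support_subset _ fun g hg => ?_
      simpa using hg
    have s2 : ∑ g ∈ f2.toFinset, χ₂ (g • x.2) = 1 := by
      rw [← hχ₂.sum x.2]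
      symm
      refine finsum_eq_sum_of_support_subset _ fun g hg => ?_
      simpa using hg
    have s3 : ∑ᶠ g : Γ₁ × Γ₂, χ₁ (g • x).1 * χ₂ (g • x).2 =
        ∑ g ∈ f1.toFinset ×ˢ f2.toFinset, χ₁ (g.1 • x.1) * χ₂ (g.2 • x.2) := by
      refine finsum_eq_sum_of_support_subset _ fun g hg => ?_
      rw [Function.mem_support] at hg
      have g1 : χ₁ (g.1 • x.1) ≠ 0 := left_ne_zero_of_mul hg
      have g2 : χ₂ (g.2 • x.2) ≠ 0 := right_ne_zero_of_mul hg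
      rw [Finset.mem_coe, Finset.mem_product]
      exact ⟨by simpa using g1, by simpa using g2⟩
    rw [s3, Finset.sum_product]
    have s4 := Finset.sum_mul_sum f1.toFinset f2.toFinset (fun g => χ₁ (g • x.1))
      (fun g => χ₂ (g • x.2))
    rw [s1, s2, one_mul] at s4
    exact s4.symm

end Pool.Agent.W_9986fc_h24
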