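import Pool.Agent.W_9986fc_h24.Prod.Cross

/-!
Invariance of `cross w`, exchange of the factors.
-/

set_option autoImplicit false
set_option maxSynthPendingDepth 3

open scoped ContDiff
open Pool.Agent.W_9986fc_h15 MeasureTheory

namespace Pool.Agent.W_9986fc_h24

variable {E₁ E₂ : Type*} [NormedAddCommGroup E₁] [NormedSpace ℝ E₁] [FiniteDimensional ℝ E₁]
  [NormedAddCommGroup E₂] [NormedSpace ℝ E₂] [FiniteDimensional ℝ E₂]
  {Γ₁ Γ₂ : Type*} [Group Γ₁] [Group Γ₂] [MulAction Γ₁ E₁] [MulAction Γ₂ E₂]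

omit [FiniteDimensional ℝ E₁] [FiniteDimensional ℝ E₂] in
theorem CrossB_smooth (w : E₁ × E₂ → ℝ) (hw : ContDiff ℝ ∞ w) : ContDiff ℝ ∞ (cross w) := by
  have h1 := contDiff_dx w hw
  have h2 : ContDiff ℝ ∞ (fderiv ℝ (dx w)) := h1.fderiv_right (m := ∞) (by simp)
  have h3 : ContDiff ℝ ∞ fun x => (fderiv ℝ (dx w) x).flip :=
    (ContinuousLinearMap.flipₗᵢ ℝ (E₁ × E₂) (E₁ × E₂) ℝ).toContinuousLinearEquiv.contDiff.comp h2
  exact h2.sub h3

theorem CrossB_left (h₁ : IsCover E₁ Γ₁) (w : E₁ × E₂ → ℝ) (hw : Quasi Γ₁ Γ₂ w) (g : Γ₁)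
    (x : E₁ × E₂) : pull2 (actL g) (cross w) x = cross w x := by
  have h1 := d1_pull1_gen (actL g) (contDiff_actL h₁ g) (dx w) (contDiff_dx w hw.smooth) x
  have h2 : pull1 (actL g) (dx w) = dx w := funext fun y => pull1_dx_left h₁ w hw g y
  rw [h2] at h1
  exact h1.symm

theorem CrossB_right (h₂ : IsCover E₂ Γ₂) (w : E₁ × E₂ → ℝ) (hw : Quasi Γ₁ Γ₂ w) (g : Γ₂)
    (x : E₁ × E₂) : pull2 (actR g) (cross w) x = cross w x := by
  obtain ⟨U, hU, hg⟩ := hw.right g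
  have h1 := d1_pull1_gen (actR g) (contDiff_actR h₂ g) (dx w) (contDiff_dx w hw.smooth) x
  have h2 : pull1 (actR g) (dx w) =
      fun x => dx w x + fderiv ℝ (fun x : E₁ × E₂ => U x.1) x :=
    funext fun y => pull1_dx_right h₂ w hw.smooth g U hU hg y
  have hF : ContDiff ℝ ∞ fun x : E₁ × E₂ => U x.1 := hU.comp contDiff_fst
  rw [h2, d1_add (contDiff_dx w hw.smooth) (hF.fderiv_right (m := ∞) (by simp)),
    d1_fderiv hF, add_zero] at h1
  exact h1.symm

/-- The form `cross w` is an invariant 2-form: `d1` of the two formulas above (`d1_pull1_gen`,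
`d1_fderiv`), and `actL`, `actR` generate the product action (the derivative of `(g₁, g₂) • x` is
the composition of the derivatives of `actL g₁` and `actR g₂`). -/
theorem form2_cross (h₁ : IsCover E₁ Γ₁) (h₂ : IsCover E₂ Γ₂) (w : E₁ × E₂ → ℝ)
    (hw : Quasi Γ₁ Γ₂ w) : Form2 (Γ₁ × Γ₂) (cross w) := by
  refine ⟨⟨CrossB_smooth w hw.smooth, fun x u => ?_⟩, fun g x => ?_⟩
  · change fderiv ℝ (dx w) x u u - (fderiv ℝ (dx w) x).flip u u = 0
    rw [ContinuousLinearMap.flip_apply, sub_self]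
  · have h1 : (fun x : E₁ × E₂ => g • x) = actL g.1 ∘ actR g.2 := rfl
    have h3 := (contDiff_actL (E₂ := E₂) h₁ g.1).differentiable (by simp) (actR g.2 x)
    have h4 := (contDiff_actR (E₁ := E₁) h₂ g.2).differentiable (by simp) x
    have h2 : fderiv ℝ (fun x : E₁ × E₂ => g • x) x =
        (fderiv ℝ (actL g.1) (actR g.2 x)).comp (fderiv ℝ (actR g.2) x) := by
      rw [h1]
      exact fderiv_comp x h3 h4
    have h5 := CrossB_left h₁ w hw g.1 (actR g.2 x)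
    have h6 := CrossB_right h₂ w hw g.2 x
    rw [← h6]
    unfold pull2
    rw [← h5, h2]
    rfl

omit [FiniteDimensional ℝ E₁] [FiniteDimensional ℝ E₂] in
/-- The exchange of the factors: `w' (y, x) = - w (x, y)` is quasi-invariant, and `cross w'` is the
pullback of `cross w` (by `cross_apply` and the symmetry of the second derivative). -/
theorem CrossB_quasi (w : E₁ × E₂ → ℝ) (hw : Quasi Γ₁ Γ₂ w) :
    Quasi Γ₂ Γ₁ (fun x : E₂ × E₁ => - w (x.2, x.1)) := by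
  refine ⟨(hw.smooth.comp (contDiff_snd.prodMk contDiff_fst)).neg, fun g => ?_, fun g => ?_⟩
  · obtain ⟨U, hU, h⟩ := hw.right g
    refine ⟨fun y => - U y, hU.neg, fun x y => ?_⟩
    have := h y x
    beta_reduce
    rw [this]
    ring
  · obtain ⟨U, hU, h⟩ := hw.left g
    refine ⟨fun y => - U y, hU.neg, fun x y => ?_⟩
    have := h y x
    beta_reduce
    rw [this]
    ring

/-- The exchange of the factors: `w' (y, x) = - w (x, y)` is quasi-invariant, and `cross w'` is the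
pullback of `cross w` (by `cross_apply` and the symmetry of the second derivative). -/
theorem quasi_swap (w : E₁ × E₂ → ℝ) (hw : Quasi Γ₁ Γ₂ w) :
    Quasi Γ₂ Γ₁ (fun x : E₂ × E₁ => - w (x.2, x.1)) := CrossB_quasi w hw

omit [FiniteDimensional ℝ E₁] [FiniteDimensional ℝ E₂] in
theorem CrossB_second (w : E₁ × E₂ → ℝ) (hw : ContDiff ℝ ∞ w) (x a c : E₂ × E₁) :
    fderiv ℝ (fderiv ℝ (fun x : E₂ × E₁ => - w (x.2, x.1))) x a c =
      - fderiv ℝ (fderiv ℝ w) (x.2, x.1) (a.2, a.1) (c.2, c.1) := by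
  set S : (E₂ × E₁) →L[ℝ] (E₁ × E₂) :=
    (ContinuousLinearMap.snd ℝ E₂ E₁).prod (ContinuousLinearMap.fst ℝ E₂ E₁) with hS
  set L : ((E₁ × E₂) →L[ℝ] ℝ) →L[ℝ] ((E₂ × E₁) →L[ℝ] ℝ) :=
    (ContinuousLinearMap.compL ℝ (E₂ × E₁) (E₁ × E₂) ℝ).flip S with hL
  have h1 : fderiv ℝ (fun x : E₂ × E₁ => - w (x.2, x.1)) =
      fun y => - L (fderiv ℝ w (S y)) := by
    funext y
    have h2 : HasFDerivAt (fun x : E₂ × E₁ => - w (x.2, x.1))
        (- (fderiv ℝ w (S y)).comp S) y :=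
      (((hw.differentiable (by simp)) (S y)).hasFDerivAt.comp y S.hasFDerivAt).neg
    rw [h2.fderiv]
    rfl
  have h3 : ContDiff ℝ ∞ (fderiv ℝ w) := hw.fderiv_right (m := ∞) (by simp)
  have h4 : HasFDerivAt (fun y => - L (fderiv ℝ w (S y)))
      (- (L.comp ((fderiv ℝ (fderiv ℝ w) (S x)).comp S))) x :=
    (L.hasFDerivAt.comp x
      (((h3.differentiable (by simp)) (S x)).hasFDerivAt.comp x S.hasFDerivAt)).neg
  rw [h1, h4.fderiv]
  rfl

omit [FiniteDimensional ℝ E₁] [FiniteDimensional ℝ E₂] in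
theorem cross_swap (w : E₁ × E₂ → ℝ) (hw : ContDiff ℝ ∞ w) (x u u' : E₂ × E₁) :
    cross (fun x : E₂ × E₁ => - w (x.2, x.1)) x u u' =
      cross w (x.2, x.1) (u.2, u.1) (u'.2, u'.1) := by
  have hw' : ContDiff ℝ ∞ (fun x : E₂ × E₁ => - w (x.2, x.1)) :=
    (hw.comp (contDiff_snd.prodMk contDiff_fst)).neg
  have hs : IsSymmSndFDerivAt ℝ w (x.2, x.1) := hw.contDiffAt.isSymmSndFDerivAt (by
    simp only [minSmoothness_of_isRCLikeNormedField]
    exact ENat.LEInfty.out)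
  rw [cross_apply _ hw', cross_apply w hw, CrossB_second w hw, CrossB_second w hw]
  have e1 := hs.eq (u.2, 0) (0, u'.1)
  have e2 := hs.eq (u'.2, 0) (0, u.1)
  simp only
  rw [e1, e2]
  ring

end Pool.Agent.W_9986fc_h24
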