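import Pool.Agent.W_9986fc_h24.Prod.DecA
import Pool.Agent.W_9986fc_h24.Prod.CrossB

/-!
The Künneth decomposition of closed 2-forms on `E₁ / Γ₁ × E₂ / Γ₂`.
-/

set_option autoImplicit false
set_option maxSynthPendingDepth 3

open scoped ContDiff
open Pool.Agent.W_9986fc_h15 MeasureTheory

namespace Pool.Agent.W_9986fc_h24

variable {E₁ E₂ : Type*} [NormedAddCommGroup E₁] [NormedSpace ℝ E₁] [FiniteDimensional ℝ E₁]
  [NormedAddCommGroup E₂] [NormedSpace ℝ E₂] [FiniteDimensional ℝ E₂]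
  {Γ₁ Γ₂ : Type*} [Group Γ₁] [Group Γ₂] [MulAction Γ₁ E₁] [MulAction Γ₂ E₂]

/-- The Künneth decomposition. Let `a₁ = res1 a`, `ζ = zetaP a` (`eq_add_d1_zetaP`), so that
`a = lift1 a₁ + d1 ζ`; `d1 ζ` is invariant under `actR g` (`pull2_actR`, `pull2_actR_lift1`). Let
`k`, `ρ` be as in `exists_periods` and `U`, `w` as in `exists_quasi`. Let `ζ' = ζ - dx w` and
`k' g x = k g x - U g x.1`. Then `ζ'` is invariant under `actL`, `(actR g)^* ζ' = ζ' + d (k' g)`
(`pull1_dx_right`), `k' g` is invariant under `actL h`. Let `m g x = k' g x - k' g (0, x.2)`; it is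
invariant under `actL h` and an exact cocycle (the constant in the cocycle rule cancels). Let
`η = avgF χ ζ' + muF χ m` for a partition of unity `χ` on `E₂`; it is invariant by `avgF_left`,
`avgF_right`, `muF_left`, `muF_right`. By `d1_avgF_add`, `muF_sub` and `muF_snd`:
`d1 ζ' = d1 (avgF χ ζ') + d1 (muF χ k') = d1 η + lift2 (d1 μ)`. Hence
`a = lift1 a₁ + cross w + lift2 a₂ + d1 η` with `a₂ = d1 μ`, which is invariant since the other terms
are (`form2_of_lift2`). -/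
theorem exists_decomp (h₁ : IsCover E₁ Γ₁) (h₂ : IsCover E₂ Γ₂)
    (a : E₁ × E₂ → (E₁ × E₂) →L[ℝ] (E₁ × E₂) →L[ℝ] ℝ) (ha : Form2 (Γ₁ × Γ₂) a) (hc : Closed a) :
    ∃ (a₁ : E₁ → E₁ →L[ℝ] E₁ →L[ℝ] ℝ) (a₂ : E₂ → E₂ →L[ℝ] E₂ →L[ℝ] ℝ) (w : E₁ × E₂ → ℝ)
      (η : E₁ × E₂ → (E₁ × E₂) →L[ℝ] ℝ),
      Form2 Γ₁ a₁ ∧ Closed a₁ ∧ Form2 Γ₂ a₂ ∧ Closed a₂ ∧ Quasi Γ₁ Γ₂ w ∧
      Form1 (Γ₁ × Γ₂) η ∧ ∀ x, a x = lift1 (a₁ x.1) + cross w x + lift2 (a₂ x.2) + d1 η x := by
  -- the homotopy formula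
  have ha₁ : Form2 Γ₁ (res1 a) := form2_res1 h₁ h₂ a ha
  have hζ : ContDiff ℝ ∞ (zetaP a) := contDiff_zetaP a ha.toIsForm
  have hζl := pull1_zetaP h₁ h₂ a ha
  have heq := eq_add_d1_zetaP a ha.toIsForm hc
  have hζr : ∀ (g : Γ₂) x, pull2 (actR g) (d1 (zetaP a)) x = d1 (zetaP a) x := by
    intro g x
    have e1 := pull2_actR h₁ h₂ a ha g x
    have e2 := pull2_actR_lift1 (E₁ := E₁) h₂ (res1 a) g x
    have e3 := heq x
    have e4 := heq (actR g x)
    refine ContinuousLinearMap.ext fun u => ContinuousLinearMap.ext fun v => ?_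
    have e1' := congrArg (fun q => q u v) e1
    have e2' := congrArg (fun q => q u v) e2
    have e3' := congrArg (fun q => q u v) e3
    have e4' := congrArg (fun q => q (fderiv ℝ (actR g) x u) (fderiv ℝ (actR g) x v)) e4
    simp only [pull2, ContinuousLinearMap.bilinearComp_apply, _root_.add_apply] at e1' e2' e3' e4' ⊢
    linarith
  obtain ⟨k, ρ, hk, hkr, hkc, hkl, hρl, hρr⟩ := exists_periods h₁ h₂ (zetaP a) hζ hζl hζr
  obtain ⟨U, w, hU, hUa, hUl, hw, hwr⟩ := exists_quasi h₁ h₂ ρ hρl hρr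
  obtain ⟨χ, hχ, -⟩ := exists_part h₂
  have hdx : ContDiff ℝ ∞ (dx w) := contDiff_dx w hw.smooth
  -- the modified primitive
  have hζ' : ContDiff ℝ ∞ (fun x => zetaP a x - dx w x) := hζ.sub hdx
  have hU1 : ∀ g, ContDiff ℝ ∞ (fun x : E₁ × E₂ => U g x.1) := fun g => (hU g).comp contDiff_fst
  have hk' : ∀ g, ContDiff ℝ ∞ (fun x : E₁ × E₂ => k g x - U g x.1) := fun g =>
    (hk g).sub (hU1 g)
  have hζ'l : ∀ (g : Γ₁) x, pull1 (actL g) (fun x => zetaP a x - dx w x) x =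
      zetaP a x - dx w x := by
    intro g x
    rw [pull1_sub, hζl, pull1_dx_left h₁ w hw g x]
  have hζ'r : ∀ (g : Γ₂) x, pull1 (actR g) (fun x => zetaP a x - dx w x) x =
      (zetaP a x - dx w x) + fderiv ℝ (fun x : E₁ × E₂ => k g x - U g x.1) x := by
    intro g x
    rw [pull1_sub, hkr, pull1_dx_right h₂ w hw.smooth g (U g) (hU g) (hwr g) x,
      fderiv_fun_sub ((hk g).differentiable (by simp) x) ((hU1 g).differentiable (by simp) x)]
    abel
  have hk'l : ∀ (h : Γ₁) (g : Γ₂) x, k g (actL h x) - U g (actL h x).1 = k g x - U g x.1 := by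
    intro h g x
    have e : (actL h x : E₁ × E₂).1 = h • x.1 := rfl
    rw [hkl, e, hUl]
    ring
  -- the part depending on the second variable only
  have hk2 : ∀ g : Γ₂, ContDiff ℝ ∞ (fun y : E₂ => k g (0, y) - U g 0) := fun g =>
    ((hk g).comp (contDiff_const.prodMk contDiff_id)).sub contDiff_const
  obtain ⟨μ, hμ, hμ'⟩ := muF_snd (E₁ := E₁) h₂ hχ (fun g (y : E₂) => k g (0, y) - U g 0) hk2
  have hm : ∀ g, ContDiff ℝ ∞
      (fun x : E₁ × E₂ => (k g x - U g x.1) - (k g (0, x.2) - U g 0)) := fun g =>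
    (hk' g).sub ((hk2 g).comp contDiff_snd)
  have hml : ∀ (h : Γ₁) (g : Γ₂) (x : E₁ × E₂),
      (k g (actL h x) - U g (actL h x).1) - (k g (0, (actL h x).2) - U g 0) =
      (k g x - U g x.1) - (k g (0, x.2) - U g 0) := by
    intro h g x
    have e : (actL h x : E₁ × E₂).2 = x.2 := rfl
    rw [hk'l, e]
  have hmc : ∀ (g g' : Γ₂) (x : E₁ × E₂),
      (k (g * g') x - U (g * g') x.1) - (k (g * g') (0, x.2) - U (g * g') 0) =
      ((k g (actR g' x) - U g (actR g' x).1) - (k g (0, (actR g' x).2) - U g 0)) +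
      ((k g' x - U g' x.1) - (k g' (0, x.2) - U g' 0)) := by
    intro g g' x
    obtain ⟨c, hc⟩ := hkc g g'
    have e1 : (actR g' x : E₁ × E₂).1 = x.1 := rfl
    have e2 : (actR g' x : E₁ × E₂).2 = g' • x.2 := rfl
    have e3 : (actR g' ((0, x.2) : E₁ × E₂)) = (0, g' • x.2) := rfl
    have e4 := hc x
    have e5 := hc ((0, x.2) : E₁ × E₂)
    rw [e3] at e5
    rw [e1, e2, e4, e5, hUa, hUa]
    ring
  have hA := contDiff_avgF h₂ hχ (fun x => zetaP a x - dx w x) hζ'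
  have hM := contDiff_muF h₂ hχ _ hm
  have hK := contDiff_muF h₂ hχ _ hk'
  have hK2 := contDiff_muF h₂ hχ (fun g (x : E₁ × E₂) => k g (0, x.2) - U g 0)
    (fun g => (hk2 g).comp contDiff_snd)
  -- the form η
  have hηs : ContDiff ℝ ∞ (fun x => avgF Γ₂ χ (fun x => zetaP a x - dx w x) x +
      muF χ (fun g (x : E₁ × E₂) => (k g x - U g x.1) - (k g (0, x.2) - U g 0)) x) := hA.add hM
  have hη : Form1 (Γ₁ × Γ₂) (fun x => avgF Γ₂ χ (fun x => zetaP a x - dx w x) x +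
      muF χ (fun g (x : E₁ × E₂) => (k g x - U g x.1) - (k g (0, x.2) - U g 0)) x) := by
    refine form1_of_partial h₁ h₂ _ hηs ?_ ?_
    · intro g x
      rw [pull1_add, avgF_left h₁ h₂ hχ _ hζ' hζ'l g x, muF_left h₁ h₂ hχ _ hml g x]
    · intro g x
      rw [pull1_add, avgF_right h₂ hχ _ hζ' g x, muF_right h₂ hχ _ hm hmc g x]
  have hd : ∀ x, d1 (fun x => avgF Γ₂ χ (fun x => zetaP a x - dx w x) x +
      muF χ (fun g (x : E₁ × E₂) => (k g x - U g x.1) - (k g (0, x.2) - U g 0)) x) x +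
      lift2 (d1 μ x.2) = d1 (zetaP a) x - cross w x := by
    intro x
    have e1 := d1_avgF_add h₂ hχ _ hζ' _ hk' hζ'r x
    have e2 : muF χ (fun g (x : E₁ × E₂) => (k g x - U g x.1) - (k g (0, x.2) - U g 0)) =
        fun x => muF χ (fun g (x : E₁ × E₂) => k g x - U g x.1) x -
          muF χ (fun g (x : E₁ × E₂) => k g (0, x.2) - U g 0) x := by
      funext x
      exact muF_sub h₂ hχ _ _ x
    have e3 := d1_add hA hM x
    have e4 : d1 (muF χ (fun g (x : E₁ × E₂) =>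
        (k g x - U g x.1) - (k g (0, x.2) - U g 0))) x =
        d1 (muF χ (fun g (x : E₁ × E₂) => k g x - U g x.1)) x - lift2 (d1 μ x.2) := by
      rw [e2, d1_sub hK hK2, hμ']
    rw [e3, e4, show cross w x = d1 (dx w) x from rfl, ← d1_sub hζ hdx x, ← e1]
    abel
  have hmain : ∀ x, a x = lift1 (res1 a x.1) + cross w x + lift2 (d1 μ x.2) +
      d1 (fun x => avgF Γ₂ χ (fun x => zetaP a x - dx w x) x +
        muF χ (fun g (x : E₁ × E₂) => (k g x - U g x.1) - (k g (0, x.2) - U g 0)) x) x := by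
    intro x
    have e1 := heq x
    have e2 := hd x
    have e3 : d1 (zetaP a) x = cross w x + (d1 (fun x => avgF Γ₂ χ
        (fun x => zetaP a x - dx w x) x +
        muF χ (fun g (x : E₁ × E₂) => (k g x - U g x.1) - (k g (0, x.2) - U g 0)) x) x +
        lift2 (d1 μ x.2)) := by
      rw [e2]
      abel
    rw [e1, e3]
    abel
  have hlift : Form2 (Γ₁ × Γ₂) (fun x : E₁ × E₂ => lift2 (d1 μ x.2)) := by
    have f1 := (form2_lift1 h₁ h₂ (res1 a) ha₁).smul (-1)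
    have f2 := (form2_cross h₁ h₂ w hw).smul (-1)
    have f3 := (Form1.d1_form (h₁.prod h₂) hη).smul (-1)
    have f4 := ((ha.add f1).add f2).add f3
    have e : (fun x : E₁ × E₂ => lift2 (d1 μ x.2)) = fun x => a x +
        (-1 : ℝ) • lift1 (res1 a x.1) + (-1 : ℝ) • cross w x +
        (-1 : ℝ) • d1 (fun x => avgF Γ₂ χ (fun x => zetaP a x - dx w x) x +
        muF χ (fun g (x : E₁ × E₂) => (k g x - U g x.1) - (k g (0, x.2) - U g 0)) x) x := by
      funext x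
      rw [hmain x]
      simp only [neg_smul, one_smul]
      abel
    rw [e]
    exact f4
  refine ⟨res1 a, d1 μ, w, _, ha₁, closed_res1 a ha.toIsForm hc,
    form2_of_lift2 h₁ h₂ (d1 μ) (isForm_d1 hμ).smooth hlift, closed_d1 hμ, hw, hη, hmain⟩

end Pool.Agent.W_9986fc_h24
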