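import Pool.Agent.W_9986fc_h24.Prod.Pair
import Pool.Agent.W_9986fc_h24.Prod.Dec
import Pool.Agent.W_9986fc_h24.Prod.Ori

/-!
The classes on the factors of a cohomologically symplectic product.
-/

set_option autoImplicit false
set_option maxSynthPendingDepth 3

open scoped ContDiff
open Pool.Agent.W_9986fc_h15 MeasureTheory

namespace Pool.Agent.W_9986fc_h24

variable {E₁ E₂ : Type*} [NormedAddCommGroup E₁] [NormedSpace ℝ E₁] [FiniteDimensional ℝ E₁]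
  [MeasureSpace E₁] [BorelSpace E₁] [Measure.IsAddHaarMeasure (volume : Measure E₁)]
  [NormedAddCommGroup E₂] [NormedSpace ℝ E₂] [FiniteDimensional ℝ E₂]
  [MeasureSpace E₂] [BorelSpace E₂] [Measure.IsAddHaarMeasure (volume : Measure E₂)]
  {Γ₁ Γ₂ : Type*} [Group Γ₁] [Group Γ₂] [MulAction Γ₁ E₁] [MulAction Γ₂ E₂] {n m₁ m₂ r : ℕ}

omit [FiniteDimensional ℝ E₂] [MeasureSpace E₁] [BorelSpace E₁]
  [Measure.IsAddHaarMeasure (volume : Measure E₁)] [MeasureSpace E₂] [BorelSpace E₂]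
  [Measure.IsAddHaarMeasure (volume : Measure E₂)] in
theorem CsA_J_alt {m : ℕ} (B : Module.Basis (Fin m × Fin 2) ℝ E₁) (u : E₁) :
    J B u u = 0 := by
  rw [J_apply]
  refine Finset.sum_eq_zero fun i _ => ?_
  ring

theorem CsA_haar : Measure.IsAddHaarMeasure (volume : Measure (E₁ × E₂)) := by
  rw [Measure.volume_eq_prod]
  infer_instance

omit [MeasureSpace E₁] [BorelSpace E₁]
  [Measure.IsAddHaarMeasure (volume : Measure E₁)] [MeasureSpace E₂] [BorelSpace E₂]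
  [Measure.IsAddHaarMeasure (volume : Measure E₂)] in
theorem CsA_form2_omegaF (h₁ : IsCover E₁ Γ₁) (h₂ : IsCover E₂ Γ₂)
    (a₁ : E₁ → E₁ →L[ℝ] E₁ →L[ℝ] ℝ) (ha₁ : Form2 Γ₁ a₁)
    (w : E₁ × E₂ → ℝ) (hw : Quasi Γ₁ Γ₂ w)
    (a₂ : E₂ → E₂ →L[ℝ] E₂ →L[ℝ] ℝ) (ha₂ : Form2 Γ₂ a₂) :
    Form2 (Γ₁ × Γ₂) (omegaF a₁ w a₂) :=
  ((form2_lift1 h₁ h₂ a₁ ha₁).add (form2_cross h₁ h₂ w hw)).add (form2_lift2 h₁ h₂ a₂ ha₂)

omit [MeasureSpace E₁] [BorelSpace E₁]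
  [Measure.IsAddHaarMeasure (volume : Measure E₁)] [MeasureSpace E₂] [BorelSpace E₂]
  [Measure.IsAddHaarMeasure (volume : Measure E₂)] in
theorem CsA_closed_omegaF (h₁ : IsCover E₁ Γ₁) (h₂ : IsCover E₂ Γ₂)
    (a₁ : E₁ → E₁ →L[ℝ] E₁ →L[ℝ] ℝ) (ha₁ : Form2 Γ₁ a₁) (hc₁ : Closed a₁)
    (w : E₁ × E₂ → ℝ) (hw : Quasi Γ₁ Γ₂ w)
    (a₂ : E₂ → E₂ →L[ℝ] E₂ →L[ℝ] ℝ) (ha₂ : Form2 Γ₂ a₂) (hc₂ : Closed a₂) :
    Closed (omegaF a₁ w a₂) :=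
  closed_add ((form2_lift1 h₁ h₂ a₁ ha₁).add (form2_cross h₁ h₂ w hw)).toIsForm
    (form2_lift2 h₁ h₂ a₂ ha₂).toIsForm
    (closed_add (form2_lift1 h₁ h₂ a₁ ha₁).toIsForm (form2_cross h₁ h₂ w hw).toIsForm
      (closed_lift1 a₁ ha₁.smooth hc₁) (closed_cross w hw.smooth))
    (closed_lift2 a₂ ha₂.smooth hc₂)

theorem CsA_continuous_top {Y E : Type*} [TopologicalSpace Y] [NormedAddCommGroup E]
    [NormedSpace ℝ E] {m : ℕ} (e : Fin m × Fin 2 → E) {a : Y → E →L[ℝ] E →L[ℝ] ℝ}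
    (ha : Continuous a) : Continuous fun y => top e (a y) := by
  simp only [top_eq_mix]
  exact StokesAux.continuous_mix e (q := fun _ => a) (fun _ => ha)

/-- The classes on the factors. Let `χ`, `α` be as in `CSymp`. Replace `χ` by `χ₁ ⊗ χ₂`
(`exists_part`, `Part.prod`, `integral_part_eq` with `top_inv` and `Orient.prod`), decompose `α`
(`exists_decomp`) and drop `d1 η` (`integral_top_add`; the form `omegaF a₁ w a₂` is closed and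
invariant by `form2_lift1`, `form2_cross`, `form2_lift2`, `closed_lift1`, `closed_cross`,
`closed_lift2`). Let `c` be the constant of `exists_split`, `a'`, `b'` as in `exists_pair`, and
choose the orientations by `exists_oriented`; then `c * ε₁ * ε₂ > 0`. -/
theorem csymp_factors (h₁ : IsCover E₁ Γ₁) (h₂ : IsCover E₂ Γ₂) (o₁ : Orient E₁ Γ₁)
    (o₂ : Orient E₂ Γ₂) (he : Even (Module.finrank ℝ E₁))
    (B : Module.Basis (Fin n × Fin 2) ℝ (E₁ × E₂)) (hs : CSymp (Γ₁ × Γ₂) B) :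
    ∃ (m₁ m₂ : ℕ) (B₁ : Module.Basis (Fin m₁ × Fin 2) ℝ E₁)
      (B₂ : Module.Basis (Fin m₂ × Fin 2) ℝ E₂), CSymp Γ₁ B₁ ∧ CSymp Γ₂ B₂ ∧
      0 < top B (lift1 (J B₁) + lift2 (J B₂)) := by
  have hHaar : Measure.IsAddHaarMeasure (volume : Measure (E₁ × E₂)) := CsA_haar
  have hB := h₁.prod h₂
  have hO := Orient.prod h₁ h₂ o₁ o₂
  obtain ⟨χ, α, hχ, hα, hαc, hpos⟩ := hs
  obtain ⟨χ₁, hχ₁, -⟩ := exists_part h₁
  obtain ⟨χ₂, hχ₂, -⟩ := exists_part h₂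
  have hχp := Part.prod h₁ h₂ hχ₁ hχ₂
  -- the dimension of the second factor
  have hdim : Module.finrank ℝ (E₁ × E₂) = n * 2 := by
    rw [Module.finrank_eq_card_basis B]
    simp
  have he₂ : Even (Module.finrank ℝ E₂) := by
    rw [Module.finrank_prod] at hdim
    obtain ⟨k, hk⟩ := he
    refine ⟨n - k, ?_⟩
    omega
  obtain ⟨m₁, ⟨B₁⟩⟩ := exists_basis_even (E := E₁) he
  obtain ⟨m₂, ⟨B₂⟩⟩ := exists_basis_even (E := E₂) he₂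
  -- the product partition of unity
  have hcont : Continuous fun x : E₁ × E₂ => top B (α x) :=
    CsA_continuous_top B hα.smooth.continuous
  have hI1 : ∫ x : E₁ × E₂, χ x * top B (α x) =
      ∫ x : E₁ × E₂, (χ₁ x.1 * χ₂ x.2) * top B (α x) :=
    integral_part_eq hB hO hχp hχ (fun x => top B (α x)) hcont
      (fun g x => top_inv B α hα g x)
  -- the decomposition
  obtain ⟨a₁, a₂, w, η, ha₁, hc₁, ha₂, hc₂, hw, hη, hdec⟩ := exists_decomp h₁ h₂ α hα hαc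
  have hω := CsA_form2_omegaF h₁ h₂ a₁ ha₁ w hw a₂ ha₂
  have hωc := CsA_closed_omegaF h₁ h₂ a₁ ha₁ hc₁ w hw a₂ ha₂ hc₂
  have hI2 : ∫ x : E₁ × E₂, (χ₁ x.1 * χ₂ x.2) * top B (α x) =
      ∫ x : E₁ × E₂, (χ₁ x.1 * χ₂ x.2) * top B (omegaF a₁ w a₂ x) := by
    have h3 := integral_top_add hB hO hχp B (omegaF a₁ w a₂) hω hωc η hη
    rw [← h3]
    congr 1
    funext x
    rw [hdec x]
    rfl
  have hJ : 0 < ∫ z : E₁ × E₂, (χ₁ z.1 * χ₂ z.2) * top B (omegaF a₁ w a₂ z) := by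
    rw [← hI2, ← hI1]
    exact hpos
  obtain ⟨c, hc0, hcJ, hc⟩ := exists_split B B₁ B₂
  obtain ⟨a', b', ha', hca', hb', hcb', hprod⟩ := exists_pair h₁ h₂ hχ₁ hχ₂ B B₁ B₂ a₁ ha₁ hc₁ w hw
    a₂ ha₂ hc₂ c hc0 hc hJ
  have hI1ne : integ χ₁ B₁ a' ≠ 0 := by
    intro h0
    rw [h0] at hprod
    simp at hprod
  have hI2ne : integ χ₂ B₂ b' ≠ 0 := by
    intro h0
    rw [h0] at hprod
    simp at hprod
  obtain ⟨B₁', ε₁, hε₁, htop₁, hp₁, hq₁⟩ := exists_oriented h₁ hχ₁ B₁ a' hI1ne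
  obtain ⟨B₂', ε₂, hε₂, htop₂, hp₂, hq₂⟩ := exists_oriented h₂ hχ₂ B₂ b' hI2ne
  refine ⟨m₁, m₂, B₁', B₂', ⟨χ₁, a', hχ₁, ha', hca', hq₁⟩, ⟨χ₂, b', hχ₂, hb', hcb', hq₂⟩, ?_⟩
  rw [hc _ _ (CsA_J_alt B₁') (CsA_J_alt B₂')]
  have e1 : top B₁ (J B₁') = ε₁ * top B₁' (J B₁') := by
    rw [htop₁, ← mul_assoc, hε₁, one_mul]
  have e2 : top B₂ (J B₂') = ε₂ * top B₂' (J B₂') := by
    rw [htop₂, ← mul_assoc, hε₂, one_mul]
  have hcε : 0 < c * ε₁ * ε₂ := by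
    have h5 : 0 < (c * ε₁ * ε₂) * ((ε₁ * integ χ₁ B₁ a') * (ε₂ * integ χ₂ B₂ b')) := by
      have h6 : (c * ε₁ * ε₂) * ((ε₁ * integ χ₁ B₁ a') * (ε₂ * integ χ₂ B₂ b')) =
          (ε₁ * ε₁) * (ε₂ * ε₂) * (c * integ χ₁ B₁ a' * integ χ₂ B₂ b') := by ring
      rw [h6, hε₁, hε₂, one_mul, one_mul]
      exact hprod
    exact pos_of_mul_pos_left h5 (mul_pos hp₁ hp₂).le
  rw [e1, e2]
  have h7 : c * (ε₁ * top B₁' (J B₁')) * (ε₂ * top B₂' (J B₂')) =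
      (c * ε₁ * ε₂) * (top B₁' (J B₁') * top B₂' (J B₂')) := by ring
  rw [h7]
  exact mul_pos hcε (mul_pos (top_J_pos B₁') (top_J_pos B₂'))

end Pool.Agent.W_9986fc_h24
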