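import Pool.Agent.W_9986fc_h24.Prod.Cross
import Pool.Agent.W_9986fc_h24.Prod.Split

/-!
Slices of the mixed form.
-/

set_option autoImplicit false
set_option maxSynthPendingDepth 3

open scoped ContDiff
open Pool.Agent.W_9986fc_h15 MeasureTheory

namespace Pool.Agent.W_9986fc_h24

variable {E₁ E₂ : Type*} [NormedAddCommGroup E₁] [NormedSpace ℝ E₁] [FiniteDimensional ℝ E₁]
  [NormedAddCommGroup E₂] [NormedSpace ℝ E₂] [FiniteDimensional ℝ E₂]
  {Γ₁ Γ₂ : Type*} [Group Γ₁] [Group Γ₂] [MulAction Γ₁ E₁] [MulAction Γ₂ E₂]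

/-- The slice of the mixed form for a fixed point `y` and a fixed vector `v` of `E₂`. -/
noncomputable def slice (w : E₁ × E₂ → ℝ) (y v : E₂) (x : E₁) : E₁ →L[ℝ] ℝ :=
  -((fderiv ℝ (fderiv ℝ w) (x, y) (0, v)).comp (ContinuousLinearMap.inl ℝ E₁ E₂))

omit [FiniteDimensional ℝ E₁] [FiniteDimensional ℝ E₂] in
theorem Slice_symm (w : E₁ × E₂ → ℝ) (hw : ContDiff ℝ ∞ w) (p a c : E₁ × E₂) :
    fderiv ℝ (fderiv ℝ w) p a c = fderiv ℝ (fderiv ℝ w) p c a := by
  have h1 : IsSymmSndFDerivAt ℝ w p :=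
    (hw.contDiffAt).isSymmSndFDerivAt (by
      simp only [minSmoothness_of_isRCLikeNormedField]
      exact WithTop.coe_le_coe.2 (le_top : (2 : ℕ∞) ≤ ⊤))
  exact h1 a c

/-- The function whose differential is the slice. -/
noncomputable def Slice_f (w : E₁ × E₂ → ℝ) (y v : E₂) (x : E₁) : ℝ :=
  -(fderiv ℝ w (x, y) (0, v))

omit [FiniteDimensional ℝ E₁] [FiniteDimensional ℝ E₂] in
theorem Slice_f_contDiff (w : E₁ × E₂ → ℝ) (hw : ContDiff ℝ ∞ w) (y v : E₂) :
    ContDiff ℝ ∞ (Slice_f w y v) := by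
  have h1 : ContDiff ℝ ∞ (fderiv ℝ w) := hw.fderiv_right (m := ∞) (by simp)
  have h2 : ContDiff ℝ ∞ (fun x : E₁ => (x, y)) := contDiff_id.prodMk contDiff_const
  exact ((h1.comp h2).clm_apply contDiff_const).neg

omit [FiniteDimensional ℝ E₁] [FiniteDimensional ℝ E₂] in
theorem Slice_eq (w : E₁ × E₂ → ℝ) (hw : ContDiff ℝ ∞ w) (y v : E₂) :
    slice w y v = fderiv ℝ (Slice_f w y v) := by
  funext x
  ext u
  have h1 : ContDiff ℝ ∞ (fderiv ℝ w) := hw.fderiv_right (m := ∞) (by simp)
  have h2 : HasFDerivAt (fderiv ℝ w) (fderiv ℝ (fderiv ℝ w) (x, y)) (x, y) :=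
    (h1.differentiable (by simp) (x, y)).hasFDerivAt
  have h3 : HasFDerivAt (fun x : E₁ => (x, y)) (ContinuousLinearMap.inl ℝ E₁ E₂) x :=
    hasFDerivAt_prodMk_left x y
  have h4 := ((h2.comp x h3).clm_apply (hasFDerivAt_const ((0 : E₁), v) x)).neg
  have h5 : HasFDerivAt (Slice_f w y v) _ x := h4
  rw [h5.fderiv]
  have hs := Slice_symm w hw (x, y) (0, v) (u, 0)
  simpa [slice] using hs

/-- The slice is the differential of the function `f x = - fderiv ℝ w (x, y) (0, v)` of `x` (by the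
symmetry of the second derivative), hence smooth and closed; it is invariant under `Γ₁`, because
`w (g • x, y) = w (x, y) + U y` implies that `f (g • x) = f x - fderiv ℝ U y v`. -/
theorem form1_slice (h₁ : IsCover E₁ Γ₁) (w : E₁ × E₂ → ℝ) (hw : Quasi Γ₁ Γ₂ w) (y v : E₂) :
    Form1 Γ₁ (slice w y v) := by
  have hs := hw.smooth
  have hf := Slice_f_contDiff w hs y v
  refine { smooth := ?_, invariant := ?_ }
  · rw [Slice_eq w hs y v]
    exact hf.fderiv_right (m := ∞) (by simp)
  · intro g x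
    rw [Slice_eq w hs y v]
    obtain ⟨U, hU, hg⟩ := hw.left g
    have e1 : ∀ x : E₁, Slice_f w y v (g • x) = Slice_f w y v x - fderiv ℝ U y v := by
      intro x
      have ha : HasFDerivAt (fun z : E₂ => w (g • x, z))
          ((fderiv ℝ w (g • x, y)).comp (ContinuousLinearMap.inr ℝ E₁ E₂)) y :=
        HasFDerivAt.comp y (hs.differentiable (by simp) (g • x, y)).hasFDerivAt
          (hasFDerivAt_prodMk_right (g • x) y)
      have hb : HasFDerivAt (fun z : E₂ => w (x, z))
          ((fderiv ℝ w (x, y)).comp (ContinuousLinearMap.inr ℝ E₁ E₂)) y :=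
        HasFDerivAt.comp y (hs.differentiable (by simp) (x, y)).hasFDerivAt
          (hasFDerivAt_prodMk_right x y)
      have hc : HasFDerivAt U (fderiv ℝ U y) y := (hU.differentiable (by simp) y).hasFDerivAt
      have hd : HasFDerivAt (fun z : E₂ => w (g • x, z))
          ((fderiv ℝ w (x, y)).comp (ContinuousLinearMap.inr ℝ E₁ E₂) + fderiv ℝ U y) y := by
        have := hb.fun_add hc
        refine this.congr_of_eventuallyEq (Filter.Eventually.of_forall fun z => hg x z)
      have he := congrArg (fun L : E₂ →L[ℝ] ℝ => L v) (ha.unique hd)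
      simp only [ContinuousLinearMap.comp_apply, add_apply, ContinuousLinearMap.inr_apply] at he
      unfold Slice_f
      rw [he]
      ring
    have h1 : HasFDerivAt (fun x : E₁ => g • x) (fderiv ℝ (fun x : E₁ => g • x) x) x :=
      ((h₁.smooth g).differentiable (by simp) x).hasFDerivAt
    have h2 : HasFDerivAt (Slice_f w y v) (fderiv ℝ (Slice_f w y v) (g • x)) (g • x) :=
      (hf.differentiable (by simp) (g • x)).hasFDerivAt
    have h3 := h2.comp x h1
    have h4 : HasFDerivAt (Slice_f w y v) (fderiv ℝ (Slice_f w y v) x) x :=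
      (hf.differentiable (by simp) x).hasFDerivAt
    have h5 : HasFDerivAt (Slice_f w y v ∘ fun x : E₁ => g • x)
        (fderiv ℝ (Slice_f w y v) x) x := by
      have := h4.sub_const (fderiv ℝ U y v)
      exact this.congr_of_eventuallyEq (Filter.Eventually.of_forall fun z => e1 z)
    exact h3.unique h5

omit [FiniteDimensional ℝ E₁] [FiniteDimensional ℝ E₂] in
theorem closed1_slice (w : E₁ × E₂ → ℝ) (hw : ContDiff ℝ ∞ w) (y v : E₂) :
    Closed1 (slice w y v) := by
  intro x u u'
  have hf := Slice_f_contDiff w hw y v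
  rw [Slice_eq w hw y v]
  have h1 : IsSymmSndFDerivAt ℝ (Slice_f w y v) x :=
    (hf.contDiffAt).isSymmSndFDerivAt (by
      simp only [minSmoothness_of_isRCLikeNormedField]
      exact WithTop.coe_le_coe.2 (le_top : (2 : ℕ∞) ≤ ⊤))
  exact h1 u u'

omit [FiniteDimensional ℝ E₁] in
/-- The mixed form at `(x, y)` in terms of the slices for a basis of `E₂` and the dual basis
(`cross_apply`; `coordL` is the coordinate functional, AlgJ of helper15). -/
theorem cross_eq_mixF {r : ℕ} (ε : Module.Basis (Fin r) ℝ E₂) (w : E₁ × E₂ → ℝ)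
    (hw : ContDiff ℝ ∞ w) (x : E₁) (y : E₂) :
    cross w (x, y) = mixF (fun j => slice w y (ε j) x) (fun j => coordL ε j) := by
  refine ContinuousLinearMap.ext fun u => ContinuousLinearMap.ext fun u' => ?_
  rw [cross_apply w hw, mixF_apply]
  have key : ∀ (v : E₂) (a : E₁), fderiv ℝ (fderiv ℝ w) (x, y) (0, v) (a, 0) =
      ∑ j, coordL ε j v * fderiv ℝ (fderiv ℝ w) (x, y) (0, ε j) (a, 0) := by
    intro v a
    have hv : ((0 : E₁), v) = ∑ j, coordL ε j v • ((0 : E₁), ε j) := by
      refine Prod.ext ?_ ?_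
      · simp [Prod.fst_sum]
      · rw [Prod.snd_sum]
        exact (ε.sum_repr v).symm
    conv_lhs => rw [hv]
    rw [map_sum, sum_apply]
    refine Finset.sum_congr rfl fun j _ => ?_
    rw [map_smul, smul_apply, smul_eq_mul]
  rw [key u.2 u'.1, key u'.2 u.1, ← Finset.sum_sub_distrib]
  refine Finset.sum_congr rfl fun j _ => ?_
  simp only [slice, neg_apply, ContinuousLinearMap.comp_apply, ContinuousLinearMap.inl_apply]
  ring

end Pool.Agent.W_9986fc_h24
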