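import Pool.Agent.W_9986fc_h24.Prod.InnerA
import Pool.Agent.W_9986fc_h24.Prod.Slice
import Pool.Agent.W_9986fc_h24.Prod.ALb

/-!
Integrals of top powers over the first factor.
-/

set_option autoImplicit false
set_option maxSynthPendingDepth 3

open scoped ContDiff
open Pool.Agent.W_9986fc_h15 MeasureTheory

namespace Pool.Agent.W_9986fc_h24

theorem Inner_mixF_zero {E₁ E₂ : Type*} [NormedAddCommGroup E₁] [NormedSpace ℝ E₁]
    [NormedAddCommGroup E₂] [NormedSpace ℝ E₂] {r : ℕ} (y : Fin r → E₂ →L[ℝ] ℝ) :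
    mixF (fun _ : Fin r => (0 : E₁ →L[ℝ] ℝ)) y = 0 := by
  unfold mixF
  refine Finset.sum_eq_zero (fun i _ => ?_)
  ext u v <;> simp [wedge_apply]

theorem Inner_wedge_zero {E₁ : Type*} [NormedAddCommGroup E₁] [NormedSpace ℝ E₁] :
    wedge (0 : E₁ →L[ℝ] ℝ) (0 : E₁ →L[ℝ] ℝ) = 0 := by
  ext u v
  simp [wedge_apply]

theorem Inner_slice_cont {E₁ E₂ : Type*} [NormedAddCommGroup E₁] [NormedSpace ℝ E₁]
    [NormedAddCommGroup E₂] [NormedSpace ℝ E₂] {w : E₁ × E₂ → ℝ} (hw : ContDiff ℝ ∞ w)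
    (y v : E₂) (u : E₁) : Continuous (fun x => slice w y v x u) := by
  have h1 : ContDiff ℝ ∞ (fderiv ℝ w) := hw.fderiv_right (by simp)
  have h2 : ContDiff ℝ ∞ (fderiv ℝ (fderiv ℝ w)) := h1.fderiv_right (by simp)
  have h3 : Continuous (fun x : E₁ => fderiv ℝ (fderiv ℝ w) (x, y)) :=
    h2.continuous.comp (continuous_id.prodMk continuous_const)
  have h4 : Continuous (fun x : E₁ => -(fderiv ℝ (fderiv ℝ w) (x, y) (0, v) (u, 0))) :=
    ((h3.clm_apply continuous_const).clm_apply continuous_const).neg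
  exact h4

theorem Inner_top_cont {E₁ : Type*} [NormedAddCommGroup E₁] [NormedSpace ℝ E₁] {m : ℕ}
    (e : Fin m × Fin 2 → E₁) {A : E₁ → E₁ →L[ℝ] E₁ →L[ℝ] ℝ}
    (hA : ∀ u v, Continuous (fun x => A x u v)) : Continuous (fun x => top e (A x)) := by
  unfold top
  exact continuous_finset_sum _ (fun σ _ => continuous_const.mul
    (continuous_finset_prod _ (fun i _ => hA _ _)))

section Two

variable {E₁ E₂ : Type*} [NormedAddCommGroup E₁] [NormedSpace ℝ E₁] [FiniteDimensional ℝ E₁]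
  [MeasureSpace E₁] [BorelSpace E₁] [Measure.IsAddHaarMeasure (volume : Measure E₁)]
  [NormedAddCommGroup E₂] [NormedSpace ℝ E₂] [FiniteDimensional ℝ E₂]
  {Γ₁ Γ₂ : Type*} [Group Γ₁] [Group Γ₂] [MulAction Γ₁ E₁] [MulAction Γ₂ E₂] {n m₁ m₂ r : ℕ}

/-- Integration over the first factor for a fixed point `y` of the second one: apply
`exists_combination` with the dual basis of `ε` and `q₂ = a₂ y` (`cross_eq_mixF`). For the first
claim take `ξ = 0`. For the second one integrate the identity at `(x, y)` times `χ x` (finite sums of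
integrable functions). -/
theorem inner_eq {χ : E₁ → ℝ} (hχ : Part Γ₁ χ)
    (B : Module.Basis (Fin n × Fin 2) ℝ (E₁ × E₂))
    (B₁ : Module.Basis (Fin m₁ × Fin 2) ℝ E₁) (B₂ : Module.Basis (Fin m₂ × Fin 2) ℝ E₂)
    (ε : Module.Basis (Fin r) ℝ E₂)
    (a₁ : E₁ → E₁ →L[ℝ] E₁ →L[ℝ] ℝ) (ha₁ : IsForm a₁) (w : E₁ × E₂ → ℝ) (hw : ContDiff ℝ ∞ w)
    (q₂ : E₂ →L[ℝ] E₂ →L[ℝ] ℝ) (hq₂ : ∀ u, q₂ u u = 0) (y : E₂) :
    ∃ (N : ℕ) (c : Fin N → ℝ) (T : Fin N → Fin r → Fin r → ℝ),
      (∀ q₁ : E₁ →L[ℝ] E₁ →L[ℝ] ℝ, (∀ u, q₁ u u = 0) →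
        top B (lift1 q₁ + lift2 q₂) = (∑ s, c s) * top B₁ q₁) ∧
      ∫ x, χ x * top B (lift1 (a₁ x) + cross w (x, y) + lift2 q₂) =
        ∑ s, c s * integ χ B₁ (fun x => a₁ x +
          ∑ i, ∑ j, T s i j • wedge (slice w y (ε i) x) (slice w y (ε j) x)) := by
  obtain ⟨N, c, T, h⟩ := exists_combination (E₁ := E₁) B B₁ B₂ (fun j => coordL ε j) q₂ hq₂
  refine ⟨N, c, T, ?_, ?_⟩
  · intro q₁ hq₁
    have h0 := h q₁ (fun _ => 0) hq₁
    rw [Inner_mixF_zero, add_zero] at h0
    rw [h0, Finset.sum_mul]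
    refine Finset.sum_congr rfl (fun s _ => ?_)
    simp only [Inner_wedge_zero, smul_zero, Finset.sum_const_zero, add_zero]
  · have hpt : ∀ x, χ x * top B (lift1 (a₁ x) + cross w (x, y) + lift2 q₂) =
        ∑ s, c s * (χ x * top B₁ (a₁ x +
          ∑ i, ∑ j, T s i j • wedge (slice w y (ε i) x) (slice w y (ε j) x))) := by
      intro x
      rw [cross_eq_mixF ε w hw x y, h (a₁ x) _ (ha₁.alt x), Finset.mul_sum]
      refine Finset.sum_congr rfl (fun s _ => ?_)
      ring
    simp_rw [hpt]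
    rw [integral_finset_sum]
    · refine Finset.sum_congr rfl (fun s _ => ?_)
      rw [integral_const_mul]
      rfl
    · intro s _
      refine Integrable.const_mul ?_ _
      refine Continuous.integrable_of_hasCompactSupport (hχ.smooth.continuous.mul
        (Inner_top_cont _ ?_)) hχ.compact.mul_right
      intro u v
      have h1 : Continuous (fun x => a₁ x u v) :=
        (ha₁.smooth.continuous.clm_apply continuous_const).clm_apply continuous_const
      have h2 : ∀ i (z : E₁), Continuous (fun x => slice w y (ε i) x z) :=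
        fun i z => Inner_slice_cont hw y (ε i) z
      have h3 : (fun x => (a₁ x + ∑ i, ∑ j, T s i j •
          wedge (slice w y (ε i) x) (slice w y (ε j) x)) u v) =
          fun x => a₁ x u v + ∑ i, ∑ j, T s i j *
            (slice w y (ε i) x u * slice w y (ε j) x v -
              slice w y (ε j) x u * slice w y (ε i) x v) := by
        funext x
        simp [wedge_apply]
      rw [h3]
      exact h1.add (continuous_finset_sum _ (fun i _ => continuous_finset_sum _ (fun j _ =>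
        continuous_const.mul (((h2 i u).mul (h2 j v)).sub ((h2 j u).mul (h2 i v))))))

end Two

end Pool.Agent.W_9986fc_h24
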