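import Pool.Agent.W_9986fc_h24.Prod.Fub
import Pool.Agent.W_9986fc_h24.Prod.Inner

/-!
The class on the first factor.
-/

set_option autoImplicit false
set_option maxSynthPendingDepth 3

open scoped ContDiff
open Pool.Agent.W_9986fc_h15 MeasureTheory

namespace Pool.Agent.W_9986fc_h24

section Aux

variable {E : Type*} [NormedAddCommGroup E] [NormedSpace ℝ E] [FiniteDimensional ℝ E]
  {Γ : Type*} [Group Γ] [MulAction Γ E]

omit [FiniteDimensional ℝ E] in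
/-- The form `a + ∑ T i j ξ i ∧ ξ j` is invariant and closed. -/
theorem First_form {r : ℕ} {a : E → E →L[ℝ] E →L[ℝ] ℝ} (ha : Form2 Γ a) (hc : Closed a)
    (ξ : Fin r → E → E →L[ℝ] ℝ) (hξ : ∀ i, Form1 Γ (ξ i)) (hξc : ∀ i, Closed1 (ξ i))
    (T : Fin r → Fin r → ℝ) :
    Form2 Γ (fun x => a x + ∑ i, ∑ j, T i j • wedge (ξ i x) (ξ j x)) ∧
      Closed (fun x => a x + ∑ i, ∑ j, T i j • wedge (ξ i x) (ξ j x)) := by
  have h1 : ∀ i j, Form2 Γ (fun x => T i j • wedge (ξ i x) (ξ j x)) := fun i j =>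
    (form2_wedge (hξ i) (hξ j)).smul (T i j)
  have h2 : ∀ i j, Closed (fun x => T i j • wedge (ξ i x) (ξ j x)) := fun i j =>
    closed_smul (form2_wedge (hξ i) (hξ j)).toIsForm
      (closed_wedge (hξ i).smooth (hξ j).smooth (hξc i) (hξc j)) (T i j)
  have h3 : ∀ i, Form2 Γ (fun x => ∑ j, T i j • wedge (ξ i x) (ξ j x)) := fun i =>
    form2_sum Finset.univ (fun j x => T i j • wedge (ξ i x) (ξ j x)) (h1 i)
  have h4 : ∀ i, Closed (fun x => ∑ j, T i j • wedge (ξ i x) (ξ j x)) := fun i =>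
    closed_sum Finset.univ (fun j x => T i j • wedge (ξ i x) (ξ j x)) (fun j => (h1 i j).smooth)
      (h2 i)
  have h5 : Form2 Γ (fun x => ∑ i, ∑ j, T i j • wedge (ξ i x) (ξ j x)) :=
    form2_sum Finset.univ (fun i x => ∑ j, T i j • wedge (ξ i x) (ξ j x)) h3
  have h6 : Closed (fun x => ∑ i, ∑ j, T i j • wedge (ξ i x) (ξ j x)) :=
    closed_sum Finset.univ (fun i x => ∑ j, T i j • wedge (ξ i x) (ξ j x))
      (fun i => (h3 i).smooth) h4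
  exact ⟨ha.add h5, closed_add ha.toIsForm h5.toIsForm hc h6⟩

end Aux

variable {E₁ E₂ : Type*} [NormedAddCommGroup E₁] [NormedSpace ℝ E₁] [FiniteDimensional ℝ E₁]
  [MeasureSpace E₁] [BorelSpace E₁] [Measure.IsAddHaarMeasure (volume : Measure E₁)]
  [NormedAddCommGroup E₂] [NormedSpace ℝ E₂] [FiniteDimensional ℝ E₂]
  [MeasureSpace E₂] [BorelSpace E₂] [Measure.IsAddHaarMeasure (volume : Measure E₂)]
  {Γ₁ Γ₂ : Type*} [Group Γ₁] [Group Γ₂] [MulAction Γ₁ E₁] [MulAction Γ₂ E₂] {n m₁ m₂ r : ℕ}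

/-- If the integral over the product is not zero, then there is a closed invariant form on the first
factor whose top power has a nonzero integral: by `integral_omegaF` there is `y` for which the inner
integral is not zero; use `inner_eq` with `q₂ = a₂ y` and a basis `ε` of `E₂`
(`Module.finBasis`), one of the summands is not zero, and the form is invariant and closed
(`form1_slice`, `closed1_slice`, `form2_wedge`, `closed_wedge`, `form2_sum`, `closed_sum`). -/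
theorem exists_first (h₁ : IsCover E₁ Γ₁) {χ₁ : E₁ → ℝ} {χ₂ : E₂ → ℝ} (hχ₁ : Part Γ₁ χ₁)
    (hχ₂ : Part Γ₂ χ₂) (B : Module.Basis (Fin n × Fin 2) ℝ (E₁ × E₂))
    (B₁ : Module.Basis (Fin m₁ × Fin 2) ℝ E₁) (B₂ : Module.Basis (Fin m₂ × Fin 2) ℝ E₂)
    (a₁ : E₁ → E₁ →L[ℝ] E₁ →L[ℝ] ℝ) (ha₁ : Form2 Γ₁ a₁) (hc₁ : Closed a₁)
    (w : E₁ × E₂ → ℝ) (hw : Quasi Γ₁ Γ₂ w)
    (a₂ : E₂ → E₂ →L[ℝ] E₂ →L[ℝ] ℝ) (ha₂ : IsForm a₂)
    (hJ : ∫ z : E₁ × E₂, (χ₁ z.1 * χ₂ z.2) * top B (omegaF a₁ w a₂ z) ≠ 0) :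
    ∃ a' : E₁ → E₁ →L[ℝ] E₁ →L[ℝ] ℝ, Form2 Γ₁ a' ∧ Closed a' ∧ integ χ₁ B₁ a' ≠ 0 := by
  by_contra hcon
  push Not at hcon
  apply hJ
  rw [integral_omegaF hχ₁ hχ₂ B a₁ ha₁.toIsForm w hw.smooth a₂ ha₂]
  have hin : ∀ y, ∫ x, χ₁ x * top B (omegaF a₁ w a₂ (x, y)) = 0 := by
    intro y
    obtain ⟨N, c, T, -, h2⟩ := inner_eq hχ₁ B B₁ B₂ (Module.finBasis ℝ E₂) a₁ ha₁.toIsForm w
      hw.smooth (a₂ y) (ha₂.alt y) y
    have h3 : ∫ x, χ₁ x * top B (omegaF a₁ w a₂ (x, y)) =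
        ∫ x, χ₁ x * top B (lift1 (a₁ x) + cross w (x, y) + lift2 (a₂ y)) := rfl
    rw [h3, h2]
    refine Finset.sum_eq_zero fun s _ => ?_
    obtain ⟨h4, h5⟩ := First_form ha₁ hc₁ (fun i => slice w y (Module.finBasis ℝ E₂ i))
      (fun i => form1_slice h₁ w hw y _) (fun i => closed1_slice w hw.smooth y _) (T s)
    rw [hcon _ h4 h5, mul_zero]
  simp only [hin, mul_zero, integral_zero]

/-- If the integrals over the first factor have a sign, then the integral over the product is the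
product of the integrals: by `inner_eq` and `integ_add_sum` the inner integral at `y` is
`(∑ s, c s) * integ χ₁ B₁ a₁`, and `(∑ s, c s) * top B₁ q₁ = c * top B₁ q₁ * top B₂ (a₂ y)` for all
alternating `q₁`; take `q₁ = J B₁` (`top_J_pos`) to see that `∑ s, c s = c * top B₂ (a₂ y)`. Then
`integral_omegaF`. -/
theorem integral_of_sign (h₁ : IsCover E₁ Γ₁) {χ₁ : E₁ → ℝ} {χ₂ : E₂ → ℝ} (hχ₁ : Part Γ₁ χ₁)
    (hχ₂ : Part Γ₂ χ₂) (B : Module.Basis (Fin n × Fin 2) ℝ (E₁ × E₂))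
    (B₁ : Module.Basis (Fin m₁ × Fin 2) ℝ E₁) (B₂ : Module.Basis (Fin m₂ × Fin 2) ℝ E₂)
    (a₁ : E₁ → E₁ →L[ℝ] E₁ →L[ℝ] ℝ) (ha₁ : Form2 Γ₁ a₁) (hc₁ : Closed a₁)
    (w : E₁ × E₂ → ℝ) (hw : Quasi Γ₁ Γ₂ w)
    (a₂ : E₂ → E₂ →L[ℝ] E₂ →L[ℝ] ℝ) (ha₂ : IsForm a₂)
    (s : ℝ) (hs : s ≠ 0) (hsign : ∀ a' : E₁ → E₁ →L[ℝ] E₁ →L[ℝ] ℝ, Form2 Γ₁ a' → Closed a' →
      0 ≤ s * integ χ₁ B₁ a') (c : ℝ)
    (hc : ∀ (q₁ : E₁ →L[ℝ] E₁ →L[ℝ] ℝ) (q₂ : E₂ →L[ℝ] E₂ →L[ℝ] ℝ),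
      (∀ u, q₁ u u = 0) → (∀ u, q₂ u u = 0) →
      top B (lift1 q₁ + lift2 q₂) = c * top B₁ q₁ * top B₂ q₂) :
    ∫ z : E₁ × E₂, (χ₁ z.1 * χ₂ z.2) * top B (omegaF a₁ w a₂ z) =
      c * integ χ₁ B₁ a₁ * integ χ₂ B₂ a₂ := by
  rw [integral_omegaF hχ₁ hχ₂ B a₁ ha₁.toIsForm w hw.smooth a₂ ha₂]
  have hJalt : ∀ u, J B₁ u u = 0 := by
    intro u
    rw [J_apply]
    exact Finset.sum_eq_zero fun i _ => by ring
  have hin : ∀ y, ∫ x, χ₁ x * top B (omegaF a₁ w a₂ (x, y)) =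
      c * integ χ₁ B₁ a₁ * top B₂ (a₂ y) := by
    intro y
    obtain ⟨N, c', T, h1, h2⟩ := inner_eq hχ₁ B B₁ B₂ (Module.finBasis ℝ E₂) a₁ ha₁.toIsForm w
      hw.smooth (a₂ y) (ha₂.alt y) y
    have h3 : ∫ x, χ₁ x * top B (omegaF a₁ w a₂ (x, y)) =
        ∫ x, χ₁ x * top B (lift1 (a₁ x) + cross w (x, y) + lift2 (a₂ y)) := rfl
    have h4 : ∀ i, integ χ₁ B₁ (fun x => a₁ x + ∑ j, ∑ k, T i j k •
        wedge (slice w y (Module.finBasis ℝ E₂ j) x) (slice w y (Module.finBasis ℝ E₂ k) x)) =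
        integ χ₁ B₁ a₁ := fun i =>
      integ_add_sum hχ₁ B₁ s hs hsign a₁ ha₁ hc₁ (fun i => slice w y (Module.finBasis ℝ E₂ i))
        (fun i => form1_slice h₁ w hw y _) (fun i => closed1_slice w hw.smooth y _) (T i)
    have h5 : ∑ i, c' i = c * top B₂ (a₂ y) := by
      have h6 := h1 (J B₁) hJalt
      rw [hc (J B₁) (a₂ y) hJalt (ha₂.alt y)] at h6
      have h7 := (top_J_pos B₁).ne'
      apply mul_right_cancel₀ h7
      rw [← h6]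
      ring
    rw [h3, h2]
    simp only [h4]
    rw [← Finset.sum_mul, h5]
    ring
  simp only [hin]
  have h8 : ∀ y, χ₂ y * (c * integ χ₁ B₁ a₁ * top B₂ (a₂ y)) =
      (c * integ χ₁ B₁ a₁) * (χ₂ y * top B₂ (a₂ y)) := fun y => by ring
  simp only [h8]
  rw [integral_const_mul]
  rfl

end Pool.Agent.W_9986fc_h24
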