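import Pool.Agent.W_9986fc_h24.Prod.CrossB
import Pool.Agent.W_9986fc_h24.Prod.AffB
import Pool.Agent.W_9986fc_h24.Stk

/-!
Fubini and the exchange of the factors.
-/

set_option autoImplicit false
set_option maxSynthPendingDepth 3

open scoped ContDiff
open Pool.Agent.W_9986fc_h15 MeasureTheory

namespace Pool.Agent.W_9986fc_h24

variable {E₁ E₂ : Type*} [NormedAddCommGroup E₁] [NormedSpace ℝ E₁] [FiniteDimensional ℝ E₁]
  [MeasureSpace E₁] [BorelSpace E₁] [Measure.IsAddHaarMeasure (volume : Measure E₁)]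
  [NormedAddCommGroup E₂] [NormedSpace ℝ E₂] [FiniteDimensional ℝ E₂]
  [MeasureSpace E₂] [BorelSpace E₂] [Measure.IsAddHaarMeasure (volume : Measure E₂)]
  {Γ₁ Γ₂ : Type*} [Group Γ₁] [Group Γ₂] [MulAction Γ₁ E₁] [MulAction Γ₂ E₂] {n m₁ m₂ r : ℕ}

omit [FiniteDimensional ℝ E₁] [FiniteDimensional ℝ E₂] [MeasureSpace E₁] [BorelSpace E₁]
  [Measure.IsAddHaarMeasure (volume : Measure E₁)] [MeasureSpace E₂] [BorelSpace E₂]
  [Measure.IsAddHaarMeasure (volume : Measure E₂)] in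
/-- The form `lift1 a₁ + cross w + lift2 a₂` on the product. -/
noncomputable def omegaF (a₁ : E₁ → E₁ →L[ℝ] E₁ →L[ℝ] ℝ) (w : E₁ × E₂ → ℝ)
    (a₂ : E₂ → E₂ →L[ℝ] E₂ →L[ℝ] ℝ) (z : E₁ × E₂) : (E₁ × E₂) →L[ℝ] (E₁ × E₂) →L[ℝ] ℝ :=
  lift1 (a₁ z.1) + cross w z + lift2 (a₂ z.2)

omit [FiniteDimensional ℝ E₁] [FiniteDimensional ℝ E₂] [MeasureSpace E₁] [BorelSpace E₁]
  [Measure.IsAddHaarMeasure (volume : Measure E₁)] [MeasureSpace E₂] [BorelSpace E₂]
  [Measure.IsAddHaarMeasure (volume : Measure E₂)] in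
theorem Fub_cont (B : Module.Basis (Fin n × Fin 2) ℝ (E₁ × E₂))
    (a₁ : E₁ → E₁ →L[ℝ] E₁ →L[ℝ] ℝ) (ha₁ : IsForm a₁) (w : E₁ × E₂ → ℝ) (hw : ContDiff ℝ ∞ w)
    (a₂ : E₂ → E₂ →L[ℝ] E₂ →L[ℝ] ℝ) (ha₂ : IsForm a₂) :
    Continuous fun z : E₁ × E₂ => top B (omegaF a₁ w a₂ z) := by
  have h1 : ContDiff ℝ ∞ (fderiv ℝ w) := (contDiff_infty_iff_fderiv.1 hw).2
  have h2 : Continuous (fderiv ℝ (fderiv ℝ w)) := h1.continuous_fderiv (by simp)
  have key : ∀ u v : E₁ × E₂, Continuous fun z : E₁ × E₂ => omegaF a₁ w a₂ z u v := by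
    intro u v
    have h3 : ∀ z, omegaF a₁ w a₂ z u v = a₁ z.1 u.1 v.1 +
        (fderiv ℝ (fderiv ℝ w) z (0, u.2) (v.1, 0) - fderiv ℝ (fderiv ℝ w) z (0, v.2) (u.1, 0)) +
        a₂ z.2 u.2 v.2 := by
      intro z
      rw [← cross_apply w hw]
      rfl
    simp_rw [h3]
    have h4 : Continuous fun z : E₁ × E₂ => a₁ z.1 u.1 v.1 :=
      ((ha₁.smooth.continuous.comp continuous_fst).clm_apply continuous_const).clm_apply
        continuous_const
    have h5 : Continuous fun z : E₁ × E₂ => a₂ z.2 u.2 v.2 :=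
      ((ha₂.smooth.continuous.comp continuous_snd).clm_apply continuous_const).clm_apply
        continuous_const
    exact (h4.add (((h2.clm_apply continuous_const).clm_apply continuous_const).sub
      ((h2.clm_apply continuous_const).clm_apply continuous_const))).add h5
  unfold top
  refine continuous_finsetSum _ fun σ _ => continuous_const.mul ?_
  exact continuous_finsetProd _ fun i _ => key _ _

/-- Fubini for the integral over the product (`integral_prod_symm` or `integral_integral_swap`;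
`volume` on `E₁ × E₂` is `volume.prod volume`; the function is continuous with compact
support). -/
theorem integral_omegaF {χ₁ : E₁ → ℝ} {χ₂ : E₂ → ℝ} (hχ₁ : Part Γ₁ χ₁) (hχ₂ : Part Γ₂ χ₂)
    (B : Module.Basis (Fin n × Fin 2) ℝ (E₁ × E₂))
    (a₁ : E₁ → E₁ →L[ℝ] E₁ →L[ℝ] ℝ) (ha₁ : IsForm a₁) (w : E₁ × E₂ → ℝ) (hw : ContDiff ℝ ∞ w)
    (a₂ : E₂ → E₂ →L[ℝ] E₂ →L[ℝ] ℝ) (ha₂ : IsForm a₂) :
    ∫ z : E₁ × E₂, (χ₁ z.1 * χ₂ z.2) * top B (omegaF a₁ w a₂ z) =
      ∫ y, χ₂ y * ∫ x, χ₁ x * top B (omegaF a₁ w a₂ (x, y)) := by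
  have hcont : Continuous fun z : E₁ × E₂ => (χ₁ z.1 * χ₂ z.2) * top B (omegaF a₁ w a₂ z) :=
    ((hχ₁.smooth.continuous.comp continuous_fst).mul
      (hχ₂.smooth.continuous.comp continuous_snd)).mul (Fub_cont B a₁ ha₁ w hw a₂ ha₂)
  have hsupp : HasCompactSupport fun z : E₁ × E₂ =>
      (χ₁ z.1 * χ₂ z.2) * top B (omegaF a₁ w a₂ z) := by
    refine HasCompactSupport.intro (hχ₁.compact.isCompact.prod hχ₂.compact.isCompact)
      fun z hz => ?_
    rw [Set.mem_prod, not_and_or] at hz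
    rcases hz with hz | hz
    · rw [image_eq_zero_of_notMem_tsupport hz]
      ring
    · rw [image_eq_zero_of_notMem_tsupport hz]
      ring
  have hint : Integrable (fun z : E₁ × E₂ =>
      (χ₁ z.1 * χ₂ z.2) * top B (omegaF a₁ w a₂ z))
      ((volume : Measure E₁).prod (volume : Measure E₂)) :=
    hcont.integrable_of_hasCompactSupport hsupp
  rw [Measure.volume_eq_prod, integral_prod_symm _ hint]
  congr 1
  funext y
  rw [← integral_const_mul]
  congr 1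
  funext x
  ring

/-- The exchange of the factors: the linear equivalence `LinearEquiv.prodComm` maps the basis `B` to
a basis `B'` of `E₂ × E₁`, and `top_map`, `cross_swap` give the pointwise equality; the exchange
preserves the measure (`Measure.prod_swap`, `measurePreserving_swap`). -/
theorem exists_swap (B : Module.Basis (Fin n × Fin 2) ℝ (E₁ × E₂)) :
    ∃ B' : Module.Basis (Fin n × Fin 2) ℝ (E₂ × E₁),
      ∀ (χ₁ : E₁ → ℝ) (χ₂ : E₂ → ℝ) (a₁ : E₁ → E₁ →L[ℝ] E₁ →L[ℝ] ℝ) (w : E₁ × E₂ → ℝ)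
        (a₂ : E₂ → E₂ →L[ℝ] E₂ →L[ℝ] ℝ), ContDiff ℝ ∞ w →
        ∫ z : E₁ × E₂, (χ₁ z.1 * χ₂ z.2) * top B (omegaF a₁ w a₂ z) =
        ∫ z : E₂ × E₁, (χ₂ z.1 * χ₁ z.2) *
          top B' (omegaF a₂ (fun x : E₂ × E₁ => - w (x.2, x.1)) a₁ z) := by
  refine ⟨B.map (LinearEquiv.prodComm ℝ E₁ E₂), fun χ₁ χ₂ a₁ w a₂ hw => ?_⟩
  have e1 : ∀ z : E₂ × E₁, top (B.map (LinearEquiv.prodComm ℝ E₁ E₂))
      (omegaF a₂ (fun x : E₂ × E₁ => - w (x.2, x.1)) a₁ z) = top B (omegaF a₁ w a₂ z.swap) := by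
    intro z
    have e2 : (fun i => (B.map (LinearEquiv.prodComm ℝ E₁ E₂)) i) =
        fun i => ((ContinuousLinearMap.snd ℝ E₁ E₂).prod (ContinuousLinearMap.fst ℝ E₁ E₂)) (B i) := by
      funext i
      simp [Prod.swap]
    have e3 : top (B.map (LinearEquiv.prodComm ℝ E₁ E₂))
        (omegaF a₂ (fun x : E₂ × E₁ => - w (x.2, x.1)) a₁ z) =
        top (fun i => ((ContinuousLinearMap.snd ℝ E₁ E₂).prod
          (ContinuousLinearMap.fst ℝ E₁ E₂)) (B i))
          (omegaF a₂ (fun x : E₂ × E₁ => - w (x.2, x.1)) a₁ z) := by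
      rw [← e2]
    rw [e3, top_map]
    congr 1
    refine ContinuousLinearMap.ext fun u => ContinuousLinearMap.ext fun v => ?_
    rw [ContinuousLinearMap.bilinearComp_apply]
    simp only [omegaF, _root_.add_apply, lift1, lift2, ContinuousLinearMap.bilinearComp_apply,
      cross_swap w hw]
    simp only [ContinuousLinearMap.prod_apply, ContinuousLinearMap.coe_fst',
      ContinuousLinearMap.coe_snd', Prod.swap]
    ring
  simp_rw [e1]
  rw [Measure.volume_eq_prod, Measure.volume_eq_prod]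
  rw [← integral_prod_swap (μ := (volume : Measure E₁)) (ν := (volume : Measure E₂))]
  congr 1
  funext z
  simp only [Prod.fst_swap, Prod.snd_swap]
  ring

end Pool.Agent.W_9986fc_h24
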