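import Pool.Agent.W_9986fc_h24.Prod.HomA
import Pool.Agent.W_9986fc_h15.StructA

/-!
The homotopy formula for the homotopy `(x, y) ↦ (x, t y)` of `E₁ × E₂`.
-/

set_option autoImplicit false
set_option maxSynthPendingDepth 3

open scoped ContDiff
open Pool.Agent.W_9986fc_h15 MeasureTheory

namespace Pool.Agent.W_9986fc_h24

variable {E₁ E₂ : Type*} [NormedAddCommGroup E₁] [NormedSpace ℝ E₁] [FiniteDimensional ℝ E₁]
  [NormedAddCommGroup E₂] [NormedSpace ℝ E₂] [FiniteDimensional ℝ E₂]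
  {Γ₁ Γ₂ : Type*} [Group Γ₁] [Group Γ₂] [MulAction Γ₁ E₁] [MulAction Γ₂ E₂]

/-- The derivative of the primitive. -/
theorem fderiv_zetaP (a : E₁ × E₂ → (E₁ × E₂) →L[ℝ] (E₁ × E₂) →L[ℝ] ℝ)
    (ha : ContDiff ℝ ∞ a) (x u w : E₁ × E₂) :
    fderiv ℝ (zetaP a) x u w =
      ∫ t in (0 : ℝ)..1, fderiv ℝ (zetaI a) (x, t) (u, 0) w := by
  have hI := contDiff_zetaI a ha
  have h2 : zetaP a =
      (avg ((0, 1) : (E₁ × E₂) × ℝ) (zetaI a)) ∘ (fun x => (x, (0 : ℝ))) := by
    funext x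
    simp [avg, zetaP, zetaI]
  have h3 : HasFDerivAt (fun x : E₁ × E₂ => (x, (0 : ℝ)))
      (ContinuousLinearMap.inl ℝ (E₁ × E₂) ℝ) x :=
    (ContinuousLinearMap.inl ℝ (E₁ × E₂) ℝ).hasFDerivAt
  have h4 := (((contDiff_avg ((0, 1) : (E₁ × E₂) × ℝ) (zetaI a) hI).differentiable (by simp))
    (x, (0 : ℝ))).hasFDerivAt.comp x h3
  rw [← h2, fderiv_avg _ _ hI] at h4
  rw [h4.fderiv]
  have hc : Continuous fun t : ℝ => fderiv ℝ (zetaI a) ((x, (0 : ℝ)) + t • ((0, 1) : (E₁ × E₂) × ℝ)) :=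
    (hI.continuous_fderiv (by simp)).comp
      (continuous_const.add (continuous_id.smul continuous_const))
  have h5 : (avg ((0, 1) : (E₁ × E₂) × ℝ) (fderiv ℝ (zetaI a)) (x, 0)).comp
      (ContinuousLinearMap.inl ℝ (E₁ × E₂) ℝ) u w =
      (∫ t in (0 : ℝ)..1, fderiv ℝ (zetaI a)
        ((x, (0 : ℝ)) + t • ((0, 1) : (E₁ × E₂) × ℝ))) (u, 0) w := rfl
  rw [h5, ContinuousLinearMap.intervalIntegral_apply (hc.intervalIntegrable 0 1),
    ContinuousLinearMap.intervalIntegral_apply ((hc.clm_apply continuous_const).intervalIntegrable 0 1)]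
  refine intervalIntegral.integral_congr fun t _ => ?_
  simp

/-- The derivative of the integrand. -/
theorem fderiv_zetaI (a : E₁ × E₂ → (E₁ × E₂) →L[ℝ] (E₁ × E₂) →L[ℝ] ℝ)
    (ha : ContDiff ℝ ∞ a) (x u w : E₁ × E₂) (t : ℝ) :
    fderiv ℝ (zetaI a) (x, t) (u, 0) w =
      fderiv ℝ a (x.1, t • x.2) (u.1, t • u.2) (0, x.2) (w.1, t • w.2)
        + a (x.1, t • x.2) (0, u.2) (w.1, t • w.2) := by
  have hI := contDiff_zetaI a ha
  -- the restriction to `t` fixed
  have h1 : HasFDerivAt (fun x : E₁ × E₂ => (x, t)) (ContinuousLinearMap.inl ℝ (E₁ × E₂) ℝ) x := by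
    have := (hasFDerivAt_id (𝕜 := ℝ) x).prodMk (hasFDerivAt_const t x)
    exact this
  have h2 : HasFDerivAt (fun x : E₁ × E₂ => zetaI a (x, t) w)
      (((fderiv ℝ (zetaI a) (x, t)).comp (ContinuousLinearMap.inl ℝ (E₁ × E₂) ℝ)).flip w) x := by
    have h3 := ((hI.differentiable (by simp)) (x, t)).hasFDerivAt.comp x h1
    have := h3.clm_apply (hasFDerivAt_const w x)
    simpa using this
  -- the explicit derivative
  set P : (E₁ × E₂) →L[ℝ] (E₁ × E₂) :=
    (ContinuousLinearMap.id ℝ E₁).prodMap (t • ContinuousLinearMap.id ℝ E₂) with hP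
  set Q : (E₁ × E₂) →L[ℝ] (E₁ × E₂) :=
    (ContinuousLinearMap.inr ℝ E₁ E₂).comp (ContinuousLinearMap.snd ℝ E₁ E₂) with hQ
  have k1 : HasFDerivAt (fun x : E₁ × E₂ => a (P x)) ((fderiv ℝ a (P x)).comp P) x :=
    ((ha.differentiable (by simp)) (P x)).hasFDerivAt.comp x P.hasFDerivAt
  have k2 := (k1.clm_apply Q.hasFDerivAt).clm_apply (hasFDerivAt_const (P w) x)
  have h5 : (fun x : E₁ × E₂ => zetaI a (x, t) w) = fun x => a (P x) (Q x) (P w) := rfl
  rw [h5] at h2
  have h6 := h2.unique k2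
  have h7 := congrArg (fun T : (E₁ × E₂) →L[ℝ] ℝ => T u) h6
  simp only [ContinuousLinearMap.flip_apply, ContinuousLinearMap.comp_apply,
    _root_.add_apply, _root_.zero_apply, map_zero, zero_add] at h7
  have h8 : fderiv ℝ (zetaI a) (x, t) (u, 0) w =
    fderiv ℝ (zetaI a) (x, t) (ContinuousLinearMap.inl ℝ (E₁ × E₂) ℝ u) w := rfl
  rw [h8, h7]
  rw [add_comm]
  rfl

/-- The homotopy formula. Proof: write `z = (x, y)`, `P = (u, t v)`, `Q = (u', t v')`,
`X = (0, y)`, `p = (x, t y)`. Let `ζ_t z (u', v') = a p X Q`, the integrand. Then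
`D_{(u,v)} ζ_t z (u', v') = (D_P a p) X Q + a p (0, v) Q`, hence
`d1 ζ_t z (u, v) (u', v') = (D_P a) X Q - (D_Q a) X P + a (0, v) Q - a (0, v') P
 = (D_X a) P Q + a (0, v) Q + a P (0, v')` by closedness (`Closed a` at `p` for `X, P, Q`) and since
`a` and its derivatives are alternating (see `fderiv_alt` in StructA of helper15), and this is the
derivative with respect to `t` of `f t = a (x, t y) (u, t v) (u', t v')`. Integrate over `[0, 1]`
(`intervalIntegral.integral_eq_sub_of_hasDerivAt`): `f 1 = a z (u, v) (u', v')` and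
`f 0 = res1 a x u u'`. Differentiation under the integral: `zetaP a = (avg (0, 1) Φ) ∘ (·, 0)` for
`Φ (z, t)` = the integrand (as in `contDiff_param`), and `fderiv_avg`. -/
theorem eq_add_d1_zetaP (a : E₁ × E₂ → (E₁ × E₂) →L[ℝ] (E₁ × E₂) →L[ℝ] ℝ)
    (ha : IsForm a) (hc : Closed a) (x : E₁ × E₂) :
    a x = lift1 (res1 a x.1) + d1 (zetaP a) x := by
  refine ContinuousLinearMap.ext fun u => ContinuousLinearMap.ext fun w => ?_
  have hI := contDiff_zetaI a ha.smooth
  -- the right hand side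
  have e1 : (lift1 (res1 a x.1) + d1 (zetaP a) x : (E₁ × E₂) →L[ℝ] (E₁ × E₂) →L[ℝ] ℝ) u w = a (x.1, 0) (u.1, 0) (w.1, 0)
      + (fderiv ℝ (zetaP a) x u w - fderiv ℝ (zetaP a) x w u) := rfl
  rw [e1, fderiv_zetaP a ha.smooth, fderiv_zetaP a ha.smooth]
  have hcont : ∀ u w : E₁ × E₂, Continuous fun t : ℝ => fderiv ℝ (zetaI a) (x, t) (u, 0) w := by
    intro u w
    have h1 : Continuous fun t : ℝ => fderiv ℝ (zetaI a) (x, t) :=
      (hI.continuous_fderiv (by simp)).comp (continuous_const.prodMk continuous_id)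
    exact (h1.clm_apply continuous_const).clm_apply continuous_const
  rw [← intervalIntegral.integral_sub ((hcont u w).intervalIntegrable 0 1)
    ((hcont w u).intervalIntegrable 0 1)]
  -- the function `f`
  set f : ℝ → ℝ := fun t => a (x.1, t • x.2) (u.1, t • u.2) (w.1, t • w.2) with hf
  have hline : ∀ (y : E₁ × E₂) (t : ℝ), HasDerivAt (fun t : ℝ => (y.1, t • y.2)) (0, y.2) t := by
    intro y t
    have h1 : HasDerivAt (fun t : ℝ => t • y.2) y.2 t := by
      simpa using (hasDerivAt_id t).smul_const y.2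
    exact (hasDerivAt_const t y.1).prodMk h1
  have hfd : ∀ t : ℝ, HasDerivAt f
      (fderiv ℝ (zetaI a) (x, t) (u, 0) w - fderiv ℝ (zetaI a) (x, t) (w, 0) u) t := by
    intro t
    have h1 : HasDerivAt (fun t : ℝ => a (x.1, t • x.2))
        (fderiv ℝ a (x.1, t • x.2) (0, x.2)) t :=
      ((ha.smooth.differentiable (by simp)) (x.1, t • x.2)).hasFDerivAt.comp_hasDerivAt t
        (hline x t)
    have h2 := (h1.clm_apply (hline u t)).clm_apply (hline w t)
    refine h2.congr_deriv ?_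
    rw [fderiv_zetaI a ha.smooth, fderiv_zetaI a ha.smooth]
    have c1 := hc (x.1, t • x.2) (0, x.2) (u.1, t • u.2) (w.1, t • w.2)
    have c2 := skew_of_alt (fderiv ℝ a (x.1, t • x.2) (u.1, t • u.2))
      (fderiv_alt a ha.smooth ha.alt (x.1, t • x.2) (u.1, t • u.2)) (w.1, t • w.2) (0, x.2)
    have c3 := skew_of_alt (a (x.1, t • x.2)) (ha.alt (x.1, t • x.2)) (0, w.2) (u.1, t • u.2)
    simp only [_root_.add_apply]
    rw [c2] at c1
    rw [c3]
    linarith
  have hfc : Continuous fun t : ℝ =>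
      fderiv ℝ (zetaI a) (x, t) (u, 0) w - fderiv ℝ (zetaI a) (x, t) (w, 0) u :=
    (hcont u w).sub (hcont w u)
  rw [intervalIntegral.integral_eq_sub_of_hasDerivAt (fun t _ => hfd t)
    (hfc.intervalIntegrable 0 1)]
  simp [hf]

end Pool.Agent.W_9986fc_h24
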