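import Pool.Agent.W_9986fc_h24.Prod.Cover
import Pool.Agent.W_9986fc_h15.SurfB
import Pool.Agent.W_9986fc_h15.PrimB

/-!
The homotopy formula for the homotopy `(x, y) ↦ (x, t y)` of `E₁ × E₂`.
-/

set_option autoImplicit false
set_option maxSynthPendingDepth 3

open scoped ContDiff
open Pool.Agent.W_9986fc_h15 MeasureTheory

namespace Pool.Agent.W_9986fc_h24

variable {E₁ E₂ : Type*} [NormedAddCommGroup E₁] [NormedSpace ℝ E₁] [FiniteDimensional ℝ E₁]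
  [NormedAddCommGroup E₂] [NormedSpace ℝ E₂] [FiniteDimensional ℝ E₂]
  {Γ₁ Γ₂ : Type*} [Group Γ₁] [Group Γ₂] [MulAction Γ₁ E₁] [MulAction Γ₂ E₂]

/-- The restriction of a 2-form to `E₁ × {0}`. -/
noncomputable def res1 (a : E₁ × E₂ → (E₁ × E₂) →L[ℝ] (E₁ × E₂) →L[ℝ] ℝ) (x : E₁) :
    E₁ →L[ℝ] E₁ →L[ℝ] ℝ :=
  (a (x, 0)).bilinearComp (ContinuousLinearMap.inl ℝ E₁ E₂) (ContinuousLinearMap.inl ℝ E₁ E₂)

/-- The homotopy primitive of a 2-form: `ζ (x, y) (u, v)` is the integral over `t ∈ [0, 1]` of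
`a (x, t y) ((0, y), (u, t v))`. -/
noncomputable def zetaP (a : E₁ × E₂ → (E₁ × E₂) →L[ℝ] (E₁ × E₂) →L[ℝ] ℝ) (x : E₁ × E₂) :
    (E₁ × E₂) →L[ℝ] ℝ :=
  ∫ t in (0 : ℝ)..1, (a (x.1, t • x.2) (0, x.2)).comp
    ((ContinuousLinearMap.id ℝ E₁).prodMap (t • ContinuousLinearMap.id ℝ E₂))

omit [FiniteDimensional ℝ E₁] [FiniteDimensional ℝ E₂] in
theorem res1_apply (a : E₁ × E₂ → (E₁ × E₂) →L[ℝ] (E₁ × E₂) →L[ℝ] ℝ) (x u w : E₁) :
    res1 a x u w = a (x, 0) (u, 0) (w, 0) := rfl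

/-- The integrand of `zetaP`. -/
noncomputable def zetaI (a : E₁ × E₂ → (E₁ × E₂) →L[ℝ] (E₁ × E₂) →L[ℝ] ℝ)
    (p : (E₁ × E₂) × ℝ) : (E₁ × E₂) →L[ℝ] ℝ :=
  (a (p.1.1, p.2 • p.1.2) (0, p.1.2)).comp
    ((ContinuousLinearMap.id ℝ E₁).prodMap (p.2 • ContinuousLinearMap.id ℝ E₂))

omit [FiniteDimensional ℝ E₁] [FiniteDimensional ℝ E₂] in
theorem zetaI_apply (a : E₁ × E₂ → (E₁ × E₂) →L[ℝ] (E₁ × E₂) →L[ℝ] ℝ)
    (p : (E₁ × E₂) × ℝ) (w : E₁ × E₂) :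
    zetaI a p w = a (p.1.1, p.2 • p.1.2) (0, p.1.2) (w.1, p.2 • w.2) := rfl

/-- For `f : Y → E →L[ℝ] F →L[ℝ] ℝ`, derivative of evaluations. -/
theorem fderiv_eval2 {Y E F : Type*} [NormedAddCommGroup Y] [NormedSpace ℝ Y]
    [NormedAddCommGroup E] [NormedSpace ℝ E] [NormedAddCommGroup F] [NormedSpace ℝ F]
    {f : Y → E →L[ℝ] F →L[ℝ] ℝ} {x : Y} (hf : DifferentiableAt ℝ f x) (u : Y) (v : E) (w : F) :
    fderiv ℝ f x u v w = fderiv ℝ (fun x => f x v w) x u := by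
  have h1 : HasFDerivAt (fun x => f x v) ((fderiv ℝ f x).flip v) x := by
    have := hf.hasFDerivAt.clm_apply (hasFDerivAt_const v x)
    simpa using this
  have h2 : HasFDerivAt (fun x => f x v w) (((fderiv ℝ f x).flip v).flip w) x := by
    have := h1.clm_apply (hasFDerivAt_const w x)
    simpa using this
  rw [h2.fderiv]
  rfl

omit [FiniteDimensional ℝ E₂] in
theorem contDiff_res1 (a : E₁ × E₂ → (E₁ × E₂) →L[ℝ] (E₁ × E₂) →L[ℝ] ℝ)
    (ha : ContDiff ℝ ∞ a) : ContDiff ℝ ∞ (res1 a) := by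
  rw [contDiff_clm_apply_iff]
  intro u
  rw [contDiff_clm_apply_iff]
  intro w
  have h1 : ContDiff ℝ ∞ fun x : E₁ => a (x, 0) :=
    ha.comp (contDiff_id.prodMk contDiff_const)
  exact (h1.clm_apply contDiff_const).clm_apply contDiff_const

omit [FiniteDimensional ℝ E₁] [FiniteDimensional ℝ E₂] in
theorem fderiv_one_smul (y : E₂) :
    fderiv ℝ (fun y : E₂ => (1 : Γ₂) • y) y = ContinuousLinearMap.id ℝ E₂ := by
  have : (fun y : E₂ => (1 : Γ₂) • y) = fun y => y := funext fun y => one_smul Γ₂ y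
  rw [this]
  exact fderiv_fun_id

/-- The invariance of `a` under `(g, 1)`. -/
theorem inv_left (h₁ : IsCover E₁ Γ₁) (h₂ : IsCover E₂ Γ₂)
    (a : E₁ × E₂ → (E₁ × E₂) →L[ℝ] (E₁ × E₂) →L[ℝ] ℝ) (ha : Form2 (Γ₁ × Γ₂) a) (g : Γ₁)
    (x : E₁) (y : E₂) (u w : E₁ × E₂) :
    a (g • x, y) (fderiv ℝ (fun x : E₁ => g • x) x u.1, u.2)
      (fderiv ℝ (fun x : E₁ => g • x) x w.1, w.2) = a (x, y) u w := by
  have h := ha.invariant (g, 1) (x, y)
  have h3 : pull2 (fun x : E₁ × E₂ => ((g, 1) : Γ₁ × Γ₂) • x) a (x, y) u w = a (x, y) u w := by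
    rw [h]
  rw [← h3]
  unfold pull2
  have e2 : fderiv ℝ (fun x : E₂ => (((g, 1) : Γ₁ × Γ₂).2) • x) (x, y).2 =
      ContinuousLinearMap.id ℝ E₂ := fderiv_one_smul y
  have e3 : ((g, 1) : Γ₁ × Γ₂) • (x, y) = (g • x, y) := by
    rw [prod_smul_def]
    simp
  rw [fderiv_prod_smul h₁ h₂, e2]
  beta_reduce
  rw [e3]
  rfl

/-- The restriction of an invariant closed 2-form to `E₁ × {0}` is closed and invariant under `Γ₁`
(use invariance under `(g, 1)`, `fderiv_prod_smul`, and the chain rule for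
`fderiv ℝ (res1 a)`). -/
theorem form2_res1 (h₁ : IsCover E₁ Γ₁) (h₂ : IsCover E₂ Γ₂)
    (a : E₁ × E₂ → (E₁ × E₂) →L[ℝ] (E₁ × E₂) →L[ℝ] ℝ) (ha : Form2 (Γ₁ × Γ₂) a) :
    Form2 Γ₁ (res1 a) := by
  refine ⟨⟨contDiff_res1 a ha.smooth, fun x u => ha.alt _ _⟩, fun g x => ?_⟩
  ext u w
  exact inv_left h₁ h₂ a ha g x 0 (u, 0) (w, 0)

theorem closed_res1 (a : E₁ × E₂ → (E₁ × E₂) →L[ℝ] (E₁ × E₂) →L[ℝ] ℝ)
    (ha : IsForm a) (hc : Closed a) : Closed (res1 a) := by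
  intro x u v w
  have key : ∀ u v w : E₁, fderiv ℝ (res1 a) x u v w = fderiv ℝ a (x, 0) (u, 0) (v, 0) (w, 0) := by
    intro u v w
    rw [fderiv_eval2 ((contDiff_res1 a ha.smooth).differentiable (by simp) x)]
    rw [fderiv_eval2 (ha.smooth.differentiable (by simp) _)]
    have h1 : HasFDerivAt (fun x : E₁ => ((x, 0) : E₁ × E₂)) (ContinuousLinearMap.inl ℝ E₁ E₂) x :=
      (ContinuousLinearMap.inl ℝ E₁ E₂).hasFDerivAt
    have h2 : ContDiff ℝ ∞ (fun y => a y (v, 0) (w, 0)) :=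
      (ha.smooth.clm_apply contDiff_const).clm_apply contDiff_const
    have h3 := ((h2.differentiable (by simp)) (x, 0)).hasFDerivAt.comp x h1
    have h4 : (fun x => res1 a x v w) = (fun y => a y (v, 0) (w, 0)) ∘ fun x : E₁ => (x, 0) := rfl
    rw [h4, h3.fderiv]
    rfl
  rw [key, key, key]
  exact hc _ _ _ _

theorem contDiff_zetaI (a : E₁ × E₂ → (E₁ × E₂) →L[ℝ] (E₁ × E₂) →L[ℝ] ℝ)
    (ha : ContDiff ℝ ∞ a) : ContDiff ℝ ∞ (zetaI a) := by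
  rw [contDiff_clm_apply_iff]
  intro w
  have h1 : ContDiff ℝ ∞ fun p : (E₁ × E₂) × ℝ => a (p.1.1, p.2 • p.1.2) :=
    ha.comp ((contDiff_fst.comp contDiff_fst).prodMk
      (contDiff_snd.smul (contDiff_snd.comp contDiff_fst)))
  have h2 : ContDiff ℝ ∞ fun p : (E₁ × E₂) × ℝ => ((0 : E₁), p.1.2) :=
    contDiff_const.prodMk (contDiff_snd.comp contDiff_fst)
  have h3 : ContDiff ℝ ∞ fun p : (E₁ × E₂) × ℝ => (w.1, p.2 • w.2) :=
    contDiff_const.prodMk (contDiff_snd.smul contDiff_const)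
  exact (h1.clm_apply h2).clm_apply h3

/-- Smoothness: `contDiff_param` (SurfA of helper15) applied to the integrand, which is smooth in
`((x, y), t)`. -/
theorem contDiff_zetaP (a : E₁ × E₂ → (E₁ × E₂) →L[ℝ] (E₁ × E₂) →L[ℝ] ℝ)
    (ha : IsForm a) : ContDiff ℝ ∞ (zetaP a) :=
  contDiff_param (zetaI a) (contDiff_zetaI a ha.smooth)

theorem zetaP_apply (a : E₁ × E₂ → (E₁ × E₂) →L[ℝ] (E₁ × E₂) →L[ℝ] ℝ)
    (ha : ContDiff ℝ ∞ a) (x w : E₁ × E₂) :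
    zetaP a x w = ∫ t in (0 : ℝ)..1, a (x.1, t • x.2) (0, x.2) (w.1, t • w.2) := by
  have hc : Continuous fun t : ℝ => zetaI a (x, t) :=
    (contDiff_zetaI a ha).continuous.comp (continuous_const.prodMk continuous_id)
  exact ContinuousLinearMap.intervalIntegral_apply (hc.intervalIntegrable 0 1) w

/-- The primitive is invariant under `Γ₁`: evaluate at a vector, use the invariance of `a` under
`(g, 1)` at the points `(x, t y)` (`fderiv_prod_smul`) under the integral sign. -/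
theorem pull1_zetaP (h₁ : IsCover E₁ Γ₁) (h₂ : IsCover E₂ Γ₂)
    (a : E₁ × E₂ → (E₁ × E₂) →L[ℝ] (E₁ × E₂) →L[ℝ] ℝ) (ha : Form2 (Γ₁ × Γ₂) a) (g : Γ₁)
    (x : E₁ × E₂) : pull1 (actL g) (zetaP a) x = zetaP a x := by
  refine ContinuousLinearMap.ext fun w => ?_
  unfold pull1
  rw [ContinuousLinearMap.comp_apply, fderiv_actL h₁, zetaP_apply a ha.smooth,
    zetaP_apply a ha.smooth]
  refine intervalIntegral.integral_congr fun t _ => ?_
  have h := inv_left h₁ h₂ a ha g x.1 (t • x.2) (0, x.2) (w.1, t • w.2)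
  simp only [map_zero] at h
  exact h

end Pool.Agent.W_9986fc_h24
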