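import Pool.Agent.W_9986fc_h24.Prod.WedgeF
import Pool.Agent.W_9986fc_h24.Prod.AffA
import Pool.Agent.W_9986fc_h24.Stk

/-!
Integrals of top powers.
-/

set_option autoImplicit false
set_option maxSynthPendingDepth 3

open scoped ContDiff
open Pool.Agent.W_9986fc_h15 MeasureTheory

namespace Pool.Agent.W_9986fc_h24

/-- The integral of the top power. -/
noncomputable def integ {E : Type*} [NormedAddCommGroup E] [NormedSpace ℝ E] [MeasureSpace E]
    {m : ℕ} (χ : E → ℝ) (B : Module.Basis (Fin m × Fin 2) ℝ E)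
    (a : E → E →L[ℝ] E →L[ℝ] ℝ) : ℝ := ∫ x, χ x * top B (a x)

section One

variable {E : Type*} [NormedAddCommGroup E] [NormedSpace ℝ E] [FiniteDimensional ℝ E]
  [MeasureSpace E] [BorelSpace E] [Measure.IsAddHaarMeasure (volume : Measure E)]
  {Γ : Type*} [Group Γ] [MulAction Γ E] {m : ℕ}

omit [FiniteDimensional ℝ E] [MeasureSpace E] [BorelSpace E]
  [Measure.IsAddHaarMeasure (volume : Measure E)] in
theorem InnerA_wedge_cont {ξ ξ' : E → E →L[ℝ] ℝ} (hξ : Continuous ξ) (hξ' : Continuous ξ') :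
    Continuous fun x => wedge (ξ x) (ξ' x) := by
  unfold wedge
  exact (isBoundedBilinearMap_smulRight.continuous.comp (hξ.prodMk hξ')).sub
    (isBoundedBilinearMap_smulRight.continuous.comp (hξ'.prodMk hξ))

theorem InnerA_int {χ : E → ℝ} (hχ : Part Γ χ) (B : Module.Basis (Fin m × Fin 2) ℝ E)
    (a : E → E →L[ℝ] E →L[ℝ] ℝ) (ha : Continuous a) :
    Integrable fun x => χ x * top B (a x) := by
  refine (hχ.smooth.continuous.mul (Pool.Agent.W_9986fc_h15.StokesAux.continuous_mix B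
    (q := fun _ x => a x) fun _ => ha)).integrable_of_hasCompactSupport ?_
  exact hχ.compact.mul_right

/-- The integral is an affine function of `t` in the direction of a wedge product (`top_affine`;
integrability: continuous functions with compact support, `continuous_mix` and `top_eq_mix`). -/
theorem integ_affine {χ : E → ℝ} (hχ : Part Γ χ) (B : Module.Basis (Fin m × Fin 2) ℝ E)
    (a : E → E →L[ℝ] E →L[ℝ] ℝ) (ha : ContDiff ℝ ∞ a) (ξ ξ' : E → E →L[ℝ] ℝ)
    (hξ : ContDiff ℝ ∞ ξ) (hξ' : ContDiff ℝ ∞ ξ') :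
    ∃ d : ℝ, ∀ t : ℝ, integ χ B (fun x => a x + t • wedge (ξ x) (ξ' x)) = integ χ B a + t * d := by
  have hw : Continuous fun x => wedge (ξ x) (ξ' x) :=
    InnerA_wedge_cont hξ.continuous hξ'.continuous
  have h1 : Integrable fun x => χ x * top B (a x) := InnerA_int hχ B a ha.continuous
  have h2 : Integrable fun x => χ x * top B (a x + wedge (ξ x) (ξ' x)) :=
    InnerA_int hχ B (fun x => a x + wedge (ξ x) (ξ' x)) (ha.continuous.add hw)
  refine ⟨∫ x, (χ x * top B (a x + wedge (ξ x) (ξ' x)) - χ x * top B (a x)), ?_⟩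
  intro t
  unfold integ
  have h3 : (fun x => χ x * top B (a x + t • wedge (ξ x) (ξ' x))) = fun x =>
      χ x * top B (a x) +
        t * (χ x * top B (a x + wedge (ξ x) (ξ' x)) - χ x * top B (a x)) := by
    funext x
    rw [top_affine (B : Fin m × Fin 2 → E) (a x) (ξ x) (ξ' x) t]
    ring
  have h4 : Integrable fun x =>
      t * (χ x * top B (a x + wedge (ξ x) (ξ' x)) - χ x * top B (a x)) := (h2.sub h1).const_mul t
  rw [h3, integral_add h1 h4, integral_const_mul]

/-- If `s * integ χ B a' ≥ 0` for all closed invariant forms `a'` (`s ≠ 0`), then the integral does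
not change if one adds `t • wedge ξ ξ'` for closed invariant 1-forms: it is an affine function of
`t` (`integ_affine`), and an affine function `p + t * d` with `0 ≤ s * (p + t * d)` for all `t` has
`d = 0`. -/
theorem integ_add_wedge {χ : E → ℝ} (hχ : Part Γ χ) (B : Module.Basis (Fin m × Fin 2) ℝ E)
    (s : ℝ) (hs : s ≠ 0) (hsign : ∀ a' : E → E →L[ℝ] E →L[ℝ] ℝ, Form2 Γ a' → Closed a' →
      0 ≤ s * integ χ B a')
    (a : E → E →L[ℝ] E →L[ℝ] ℝ) (ha : Form2 Γ a) (hc : Closed a) (ξ ξ' : E → E →L[ℝ] ℝ)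
    (hξ : Form1 Γ ξ) (hξ' : Form1 Γ ξ') (hξc : Closed1 ξ) (hξc' : Closed1 ξ') (t : ℝ) :
    integ χ B (fun x => a x + t • wedge (ξ x) (ξ' x)) = integ χ B a := by
  obtain ⟨d, hd⟩ := integ_affine hχ B a ha.smooth ξ ξ' hξ.smooth hξ'.smooth
  have hw : Form2 Γ (fun x => wedge (ξ x) (ξ' x)) := form2_wedge hξ hξ'
  have hwc : Closed (fun x => wedge (ξ x) (ξ' x)) :=
    closed_wedge hξ.smooth hξ'.smooth hξc hξc'
  have h1 : ∀ t : ℝ, 0 ≤ s * (integ χ B a + t * d) := by
    intro t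
    rw [← hd t]
    exact hsign _ (ha.add (hw.smul t))
      (closed_add ha.toIsForm (hw.smul t).toIsForm hc (closed_smul hw.toIsForm hwc t))
  have h2 : d = 0 := by
    by_contra hne
    have h3 := h1 (-(integ χ B a + s) / d)
    have h4 : integ χ B a + -(integ χ B a + s) / d * d = -s := by
      field_simp
      ring
    rw [h4] at h3
    have h5 : 0 < s * s := mul_self_pos.2 hs
    linarith
  rw [hd t, h2, mul_zero, add_zero]

/-- Induction over the sum. -/
theorem integ_add_sum {χ : E → ℝ} (hχ : Part Γ χ) (B : Module.Basis (Fin m × Fin 2) ℝ E)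
    (s : ℝ) (hs : s ≠ 0) (hsign : ∀ a' : E → E →L[ℝ] E →L[ℝ] ℝ, Form2 Γ a' → Closed a' →
      0 ≤ s * integ χ B a')
    (a : E → E →L[ℝ] E →L[ℝ] ℝ) (ha : Form2 Γ a) (hc : Closed a) {r : ℕ}
    (ξ : Fin r → E → E →L[ℝ] ℝ) (hξ : ∀ i, Form1 Γ (ξ i)) (hξc : ∀ i, Closed1 (ξ i))
    (T : Fin r → Fin r → ℝ) :
    integ χ B (fun x => a x + ∑ i, ∑ j, T i j • wedge (ξ i x) (ξ j x)) = integ χ B a := by
  have key : ∀ S : Finset (Fin r × Fin r), integ χ B (fun x => a x +
      ∑ p ∈ S, T p.1 p.2 • wedge (ξ p.1 x) (ξ p.2 x)) = integ χ B a := by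
    intro S
    induction S using Finset.induction_on with
    | empty => simp
    | insert p S hp ih =>
      have hwf : ∀ p : Fin r × Fin r,
          Form2 Γ (fun x => T p.1 p.2 • wedge (ξ p.1 x) (ξ p.2 x)) :=
        fun p => (form2_wedge (hξ p.1) (hξ p.2)).smul (T p.1 p.2)
      have hwc : ∀ p : Fin r × Fin r,
          Closed (fun x => T p.1 p.2 • wedge (ξ p.1 x) (ξ p.2 x)) :=
        fun p => closed_smul (form2_wedge (hξ p.1) (hξ p.2)).toIsForm
          (closed_wedge (hξ p.1).smooth (hξ p.2).smooth (hξc p.1) (hξc p.2)) (T p.1 p.2)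
      have hsf : Form2 Γ (fun x => ∑ p ∈ S, T p.1 p.2 • wedge (ξ p.1 x) (ξ p.2 x)) :=
        form2_sum S (fun p x => T p.1 p.2 • wedge (ξ p.1 x) (ξ p.2 x)) hwf
      have hsc : Closed (fun x => ∑ p ∈ S, T p.1 p.2 • wedge (ξ p.1 x) (ξ p.2 x)) :=
        closed_sum S (fun p x => T p.1 p.2 • wedge (ξ p.1 x) (ξ p.2 x))
          (fun p => (hwf p).smooth) hwc
      have h1 := integ_add_wedge hχ B s hs hsign
        (fun x => a x + ∑ p ∈ S, T p.1 p.2 • wedge (ξ p.1 x) (ξ p.2 x)) (ha.add hsf)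
        (closed_add ha.toIsForm hsf.toIsForm hc hsc) (ξ p.1) (ξ p.2) (hξ p.1) (hξ p.2)
        (hξc p.1) (hξc p.2) (T p.1 p.2)
      rw [← ih, ← h1]
      congr 1
      funext x
      rw [Finset.sum_insert hp, add_assoc, add_comm (T p.1 p.2 • wedge (ξ p.1 x) (ξ p.2 x))]
  have h1 := key Finset.univ
  rw [← h1]
  congr 1
  funext x
  rw [Fintype.sum_prod_type]

end One

end Pool.Agent.W_9986fc_h24
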