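import Pool.Agent.W_9986fc_h24.Prod.Cover
import Pool.Agent.W_9986fc_h15.SurfB
import Pool.Agent.W_9986fc_h15.PrimB

/-!
Averaging of 1-forms over `Γ₂`.
-/

set_option autoImplicit false
set_option maxSynthPendingDepth 3

open scoped ContDiff
open Pool.Agent.W_9986fc_h15 MeasureTheory

namespace Pool.Agent.W_9986fc_h24

variable {E₁ E₂ : Type*} [NormedAddCommGroup E₁] [NormedSpace ℝ E₁] [FiniteDimensional ℝ E₁]
  [NormedAddCommGroup E₂] [NormedSpace ℝ E₂] [FiniteDimensional ℝ E₂]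
  {Γ₁ Γ₂ : Type*} [Group Γ₁] [Group Γ₂] [MulAction Γ₁ E₁] [MulAction Γ₂ E₂]

/-- The average of the pullbacks of `ζ`. -/
noncomputable def avgF (Γ₂ : Type*) [Group Γ₂] [MulAction Γ₂ E₂] (χ : E₂ → ℝ)
    (ζ : E₁ × E₂ → (E₁ × E₂) →L[ℝ] ℝ) (x : E₁ × E₂) : (E₁ × E₂) →L[ℝ] ℝ :=
  ∑ᶠ g : Γ₂, χ (g • x.2) • pull1 (actR g) ζ x

/-- The form `∑ m g • d (χ ∘ g)`, where `χ ∘ g` is a function of the second variable. -/
noncomputable def muF {Γ₂ : Type*} [Group Γ₂] [MulAction Γ₂ E₂] (χ : E₂ → ℝ)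
    (m : Γ₂ → E₁ × E₂ → ℝ) (x : E₁ × E₂) : (E₁ × E₂) →L[ℝ] ℝ :=
  ∑ᶠ g : Γ₂, m g x • (fderiv ℝ (fun y : E₂ => χ (g • y)) x.2).comp
    (ContinuousLinearMap.snd ℝ E₁ E₂)

/-- Composition of pullbacks. -/
theorem pull1_pull1 {E : Type*} [NormedAddCommGroup E] [NormedSpace ℝ E] {φ ψ : E → E}
    (hφ : ContDiff ℝ ∞ φ) (hψ : ContDiff ℝ ∞ ψ) (ζ : E → E →L[ℝ] ℝ) (x : E) :
    pull1 φ (pull1 ψ ζ) x = pull1 (fun y => ψ (φ y)) ζ x := by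
  unfold pull1
  have h1 := fderiv_comp x (hψ.differentiable (by simp) (φ x)) (hφ.differentiable (by simp) x)
  have h2 : ψ ∘ φ = fun y => ψ (φ y) := rfl
  rw [h2] at h1
  rw [h1]
  rfl

theorem contDiff_pull1' {E : Type*} [NormedAddCommGroup E] [NormedSpace ℝ E] {φ : E → E}
    (hφ : ContDiff ℝ ∞ φ) {ζ : E → E →L[ℝ] ℝ} (hζ : ContDiff ℝ ∞ ζ) :
    ContDiff ℝ ∞ (pull1 φ ζ) := by
  unfold pull1
  exact (hζ.comp hφ).clm_comp (hφ.fderiv_right (by simp))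

/-- Precomposition with `D` as a linear map. -/
noncomputable def preL {E : Type*} [NormedAddCommGroup E] [NormedSpace ℝ E] (D : E →L[ℝ] E) :
    (E →L[ℝ] ℝ) →ₗ[ℝ] (E →L[ℝ] ℝ) where
  toFun T := T.comp D
  map_add' _ _ := ContinuousLinearMap.add_comp _ _ _
  map_smul' _ _ := ContinuousLinearMap.smul_comp _ _ _

omit [FiniteDimensional ℝ E₁] in
theorem csup_avg {χ : E₂ → ℝ} (hχ : Part Γ₂ χ) (G : Γ₂ → E₁ × E₂ → (E₁ × E₂) →L[ℝ] ℝ) :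
    CSup Γ₂ (Prod.snd : E₁ × E₂ → E₂) (fun (g : Γ₂) (x : E₁ × E₂) => χ (g • x.2) • G g x) :=
  csup_of_cutoff hχ.compact fun g y h => by rw [h, zero_smul]

omit [FiniteDimensional ℝ E₁] in
theorem csup_mu (h₂ : IsCover E₂ Γ₂) {χ : E₂ → ℝ} (hχ : Part Γ₂ χ)
    (m : Γ₂ → E₁ × E₂ → ℝ) :
    CSup Γ₂ (Prod.snd : E₁ × E₂ → E₂) (fun (g : Γ₂) (x : E₁ × E₂) =>
      m g x • (fderiv ℝ (fun y : E₂ => χ (g • y)) x.2).comp (ContinuousLinearMap.snd ℝ E₁ E₂)) := by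
  obtain ⟨K, hK, hs⟩ := CSup.sup_fderiv h₂ (continuous_id' : Continuous fun z : E₂ => z)
    (GSum_aux1 (Γ := Γ₂) hχ.compact)
  refine ⟨K, hK, fun g x hx => hs g x.2 ?_⟩
  intro h
  apply hx
  have h' : fderiv ℝ (fun z : E₂ => χ (g • z)) x.2 = 0 := h
  beta_reduce
  rw [h']
  simp

omit [FiniteDimensional ℝ E₂] in
theorem contDiff_chi (h₂ : IsCover E₂ Γ₂) {χ : E₂ → ℝ} (hχ : Part Γ₂ χ) (g : Γ₂) :
    ContDiff ℝ ∞ (fun y : E₂ => χ (g • y)) :=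
  hχ.smooth.comp (h₂.smooth g)

/-- Smoothness of the average: `CSup.contDiff` for `p = Prod.snd` (and `csup_of_cutoff`). -/
theorem contDiff_avgF (h₂ : IsCover E₂ Γ₂) {χ : E₂ → ℝ} (hχ : Part Γ₂ χ)
    (ζ : E₁ × E₂ → (E₁ × E₂) →L[ℝ] ℝ) (hζ : ContDiff ℝ ∞ ζ) : ContDiff ℝ ∞ (avgF Γ₂ χ ζ) := by
  unfold avgF
  refine CSup.contDiff h₂ continuous_snd (csup_avg hχ _) fun g => ?_
  exact ((contDiff_chi h₂ hχ g).comp contDiff_snd).smul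
    (contDiff_pull1' (contDiff_actR h₂ g) hζ)

/-- Smoothness of `muF` (`CSup.contDiff`, `CSup.sup_fderiv`; the support of the derivative of
`χ ∘ g` is contained in the preimage of the support of `χ`). -/
theorem contDiff_muF (h₂ : IsCover E₂ Γ₂) {χ : E₂ → ℝ} (hχ : Part Γ₂ χ)
    (m : Γ₂ → E₁ × E₂ → ℝ) (hm : ∀ g, ContDiff ℝ ∞ (m g)) : ContDiff ℝ ∞ (muF χ m) := by
  unfold muF
  refine CSup.contDiff h₂ continuous_snd (csup_mu h₂ hχ m) fun g => ?_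
  have h1 : ContDiff ℝ ∞ (fderiv ℝ (fun y : E₂ => χ (g • y))) :=
    (contDiff_chi h₂ hχ g).fderiv_right (by simp)
  exact (hm g).smul ((h1.comp contDiff_snd).clm_comp contDiff_const)

/-- The average is invariant under `Γ₂`: `(actR g')^* (χ (g • y) (actR g)^* ζ) =
χ ((g * g') • y) (actR (g * g'))^* ζ`, then `finsum_mul_right`. -/
theorem avgF_right (h₂ : IsCover E₂ Γ₂) {χ : E₂ → ℝ} (hχ : Part Γ₂ χ)
    (ζ : E₁ × E₂ → (E₁ × E₂) →L[ℝ] ℝ) (hζ : ContDiff ℝ ∞ ζ) (g : Γ₂) (x : E₁ × E₂) :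
    pull1 (actR g) (avgF Γ₂ χ ζ) x = avgF Γ₂ χ ζ x := by
  have h1 : pull1 (actR g) (avgF Γ₂ χ ζ) x =
      preL (fderiv ℝ (actR g) x) (∑ᶠ h : Γ₂, χ (h • (actR g x).2) • pull1 (actR h) ζ (actR g x)) :=
    rfl
  rw [h1, CSup.clm h₂ (csup_avg hχ fun h x => pull1 (actR h) ζ x)]
  have h2 : ∀ h : Γ₂, preL (fderiv ℝ (actR g) x)
      (χ (h • (actR g x).2) • pull1 (actR h) ζ (actR g x)) =
      χ ((h * g) • x.2) • pull1 (actR (h * g)) ζ x := by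
    intro h
    rw [map_smul]
    have h3 : preL (fderiv ℝ (actR g) x) (pull1 (actR h) ζ (actR g x)) =
      pull1 (actR g) (pull1 (actR h) ζ) x := rfl
    have h4 : (fun y : E₁ × E₂ => actR h (actR g y)) = actR (h * g) := by
      funext y
      simp [actR, mul_smul]
    rw [h3, pull1_pull1 (contDiff_actR h₂ g) (contDiff_actR h₂ h), h4, mul_smul]
    rfl
  simp only [h2]
  exact finsum_mul_right (fun h : Γ₂ => χ (h • x.2) • pull1 (actR h) ζ x) g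

/-- The average is invariant under `Γ₁` if `ζ` is: `actL h` and `actR g` commute. -/
theorem avgF_left (h₁ : IsCover E₁ Γ₁) (h₂ : IsCover E₂ Γ₂) {χ : E₂ → ℝ} (hχ : Part Γ₂ χ)
    (ζ : E₁ × E₂ → (E₁ × E₂) →L[ℝ] ℝ) (hζ : ContDiff ℝ ∞ ζ)
    (hl : ∀ (g : Γ₁) x, pull1 (actL g) ζ x = ζ x) (g : Γ₁) (x : E₁ × E₂) :
    pull1 (actL g) (avgF Γ₂ χ ζ) x = avgF Γ₂ χ ζ x := by
  have h1 : pull1 (actL g) (avgF Γ₂ χ ζ) x =
      preL (fderiv ℝ (actL g) x) (∑ᶠ h : Γ₂, χ (h • (actL g x).2) • pull1 (actR h) ζ (actL g x)) :=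
    rfl
  rw [h1, CSup.clm h₂ (csup_avg hχ fun h x => pull1 (actR h) ζ x)]
  refine finsum_congr fun h => ?_
  rw [map_smul]
  have h3 : preL (fderiv ℝ (actL g) x) (pull1 (actR h) ζ (actL g x)) =
    pull1 (actL g) (pull1 (actR h) ζ) x := rfl
  have h4 : (fun y : E₁ × E₂ => actR h (actL g y)) = fun y => actL g (actR h y) := rfl
  rw [h3, pull1_pull1 (contDiff_actL h₁ g) (contDiff_actR h₂ h), h4,
    ← pull1_pull1 (contDiff_actR h₂ h) (contDiff_actL h₁ g)]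
  have h5 : pull1 (actL g) ζ = ζ := funext (hl g)
  rw [h5]
  rfl

end Pool.Agent.W_9986fc_h24
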