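import Pool.Agent.W_9986fc_h24.Defs

/-!
Products of closed manifolds `E₁ / Γ₁` and `E₂ / Γ₂`.
-/

set_option autoImplicit false
set_option maxSynthPendingDepth 3

open scoped ContDiff
open Pool.Agent.W_9986fc_h15

namespace Pool.Agent.W_9986fc_h24

section Act

variable {E₁ E₂ Γ₁ Γ₂ : Type*} [Group Γ₁] [Group Γ₂] [MulAction Γ₁ E₁] [MulAction Γ₂ E₂]

/-- The product action: `(g₁, g₂) • (x₁, x₂) = (g₁ • x₁, g₂ • x₂)`. -/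
instance prodAct : MulAction (Γ₁ × Γ₂) (E₁ × E₂) where
  smul g x := (g.1 • x.1, g.2 • x.2)
  one_smul x := Prod.ext (one_smul Γ₁ x.1) (one_smul Γ₂ x.2)
  mul_smul g h x := Prod.ext (mul_smul g.1 h.1 x.1) (mul_smul g.2 h.2 x.2)

theorem prod_smul_def (g : Γ₁ × Γ₂) (x : E₁ × E₂) : g • x = (g.1 • x.1, g.2 • x.2) := rfl

end Act

variable {E₁ E₂ : Type*} [NormedAddCommGroup E₁] [NormedSpace ℝ E₁]
  [NormedAddCommGroup E₂] [NormedSpace ℝ E₂]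

/-- The pullback to `E₁ × E₂` of a bilinear form on `E₁`. -/
noncomputable def lift1 (q : E₁ →L[ℝ] E₁ →L[ℝ] ℝ) : (E₁ × E₂) →L[ℝ] (E₁ × E₂) →L[ℝ] ℝ :=
  q.bilinearComp (ContinuousLinearMap.fst ℝ E₁ E₂) (ContinuousLinearMap.fst ℝ E₁ E₂)

/-- The pullback to `E₁ × E₂` of a bilinear form on `E₂`. -/
noncomputable def lift2 (q : E₂ →L[ℝ] E₂ →L[ℝ] ℝ) : (E₁ × E₂) →L[ℝ] (E₁ × E₂) →L[ℝ] ℝ :=
  q.bilinearComp (ContinuousLinearMap.snd ℝ E₁ E₂) (ContinuousLinearMap.snd ℝ E₁ E₂)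

/-- The sum of the wedge products of the covectors `ξ i` of `E₁` and `y i` of `E₂`. -/
noncomputable def mixF {r : ℕ} (ξ : Fin r → E₁ →L[ℝ] ℝ) (y : Fin r → E₂ →L[ℝ] ℝ) :
    (E₁ × E₂) →L[ℝ] (E₁ × E₂) →L[ℝ] ℝ :=
  ∑ i, wedge ((ξ i).comp (ContinuousLinearMap.fst ℝ E₁ E₂))
    ((y i).comp (ContinuousLinearMap.snd ℝ E₁ E₂))

/-- The differential of the function `w` in the direction of `E₁`, a 1-form on `E₁ × E₂`. -/
noncomputable def dx (w : E₁ × E₂ → ℝ) (x : E₁ × E₂) : (E₁ × E₂) →L[ℝ] ℝ :=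
  (fderiv ℝ w x).comp ((ContinuousLinearMap.inl ℝ E₁ E₂).comp (ContinuousLinearMap.fst ℝ E₁ E₂))

/-- The mixed part of the second derivative of `w` as a 2-form: the exterior derivative of
`dx w`. -/
noncomputable def cross (w : E₁ × E₂ → ℝ) : E₁ × E₂ → (E₁ × E₂) →L[ℝ] (E₁ × E₂) →L[ℝ] ℝ :=
  d1 (dx w)

/-- The function `w` on `E₁ × E₂` is invariant under `Γ₁` up to functions of the second variable,
and under `Γ₂` up to functions of the first variable. -/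
structure Quasi (Γ₁ Γ₂ : Type*) [Group Γ₁] [Group Γ₂] [MulAction Γ₁ E₁] [MulAction Γ₂ E₂]
    (w : E₁ × E₂ → ℝ) : Prop where
  smooth : ContDiff ℝ ∞ w
  left : ∀ g : Γ₁, ∃ U : E₂ → ℝ, ContDiff ℝ ∞ U ∧ ∀ x y, w (g • x, y) = w (x, y) + U y
  right : ∀ g : Γ₂, ∃ U : E₁ → ℝ, ContDiff ℝ ∞ U ∧ ∀ x y, w (x, g • y) = w (x, y) + U x

/-- The map `(x, y) ↦ (g • x, y)`. -/
def actL {Γ₁ : Type*} [Group Γ₁] [MulAction Γ₁ E₁] (g : Γ₁) (x : E₁ × E₂) : E₁ × E₂ :=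
  (g • x.1, x.2)

/-- The map `(x, y) ↦ (x, g • y)`. -/
def actR {Γ₂ : Type*} [Group Γ₂] [MulAction Γ₂ E₂] (g : Γ₂) (x : E₁ × E₂) : E₁ × E₂ :=
  (x.1, g • x.2)

end Pool.Agent.W_9986fc_h24
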