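import Pool.Agent.W_9986fc_h24.Prod.First

/-!
The classes on the factors.
-/

set_option autoImplicit false
set_option maxSynthPendingDepth 3

open scoped ContDiff
open Pool.Agent.W_9986fc_h15 MeasureTheory

namespace Pool.Agent.W_9986fc_h24

variable {E₁ E₂ : Type*} [NormedAddCommGroup E₁] [NormedSpace ℝ E₁] [FiniteDimensional ℝ E₁]
  [MeasureSpace E₁] [BorelSpace E₁] [Measure.IsAddHaarMeasure (volume : Measure E₁)]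
  [NormedAddCommGroup E₂] [NormedSpace ℝ E₂] [FiniteDimensional ℝ E₂]
  [MeasureSpace E₂] [BorelSpace E₂] [Measure.IsAddHaarMeasure (volume : Measure E₂)]
  {Γ₁ Γ₂ : Type*} [Group Γ₁] [Group Γ₂] [MulAction Γ₁ E₁] [MulAction Γ₂ E₂] {n m₁ m₂ r : ℕ}

/-- The classes on the factors. By `exists_first` for the product and for the exchanged product
(`exists_swap`, `quasi_swap`) there are `a'` on the first and `b'` on the second factor with nonzero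
integrals. If the integral over the first factor takes both signs, choose `a'` with the right sign.
Otherwise `integral_of_sign` applies (with `s = 1` or `s = -1`), and `a' = a₁`, `b' = a₂` have
`c * integ χ₁ B₁ a₁ * integ χ₂ B₂ a₂ > 0`. -/
theorem exists_pair (h₁ : IsCover E₁ Γ₁) (h₂ : IsCover E₂ Γ₂) {χ₁ : E₁ → ℝ} {χ₂ : E₂ → ℝ}
    (hχ₁ : Part Γ₁ χ₁) (hχ₂ : Part Γ₂ χ₂) (B : Module.Basis (Fin n × Fin 2) ℝ (E₁ × E₂))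
    (B₁ : Module.Basis (Fin m₁ × Fin 2) ℝ E₁) (B₂ : Module.Basis (Fin m₂ × Fin 2) ℝ E₂)
    (a₁ : E₁ → E₁ →L[ℝ] E₁ →L[ℝ] ℝ) (ha₁ : Form2 Γ₁ a₁) (hc₁ : Closed a₁)
    (w : E₁ × E₂ → ℝ) (hw : Quasi Γ₁ Γ₂ w)
    (a₂ : E₂ → E₂ →L[ℝ] E₂ →L[ℝ] ℝ) (ha₂ : Form2 Γ₂ a₂) (hc₂ : Closed a₂)
    (c : ℝ) (hc0 : c ≠ 0) (hc : ∀ (q₁ : E₁ →L[ℝ] E₁ →L[ℝ] ℝ) (q₂ : E₂ →L[ℝ] E₂ →L[ℝ] ℝ),
      (∀ u, q₁ u u = 0) → (∀ u, q₂ u u = 0) →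
      top B (lift1 q₁ + lift2 q₂) = c * top B₁ q₁ * top B₂ q₂)
    (hJ : 0 < ∫ z : E₁ × E₂, (χ₁ z.1 * χ₂ z.2) * top B (omegaF a₁ w a₂ z)) :
    ∃ (a' : E₁ → E₁ →L[ℝ] E₁ →L[ℝ] ℝ) (b' : E₂ → E₂ →L[ℝ] E₂ →L[ℝ] ℝ),
      Form2 Γ₁ a' ∧ Closed a' ∧ Form2 Γ₂ b' ∧ Closed b' ∧
      0 < c * integ χ₁ B₁ a' * integ χ₂ B₂ b' := by
  obtain ⟨B', hB'⟩ := exists_swap B
  have hne : ∫ z : E₂ × E₁, (χ₂ z.1 * χ₁ z.2) *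
      top B' (omegaF a₂ (fun x : E₂ × E₁ => - w (x.2, x.1)) a₁ z) ≠ 0 := by
    rw [← hB' χ₁ χ₂ a₁ w a₂ hw.smooth]
    exact hJ.ne'
  obtain ⟨b', hb'1, hb'2, hb'3⟩ := exists_first h₂ hχ₂ hχ₁ B' B₂ B₁ a₂ ha₂ hc₂
    (fun x : E₂ × E₁ => - w (x.2, x.1)) (quasi_swap w hw) a₁ ha₁.toIsForm hne
  by_cases hpos : ∃ a' : E₁ → E₁ →L[ℝ] E₁ →L[ℝ] ℝ, Form2 Γ₁ a' ∧ Closed a' ∧
      0 < c * integ χ₁ B₁ a' * integ χ₂ B₂ b'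
  · obtain ⟨a', h1, h2, h3⟩ := hpos
    exact ⟨a', b', h1, h2, hb'1, hb'2, h3⟩
  · have hs : -(c * integ χ₂ B₂ b') ≠ 0 := neg_ne_zero.2 (mul_ne_zero hc0 hb'3)
    have hsign : ∀ a' : E₁ → E₁ →L[ℝ] E₁ →L[ℝ] ℝ, Form2 Γ₁ a' → Closed a' →
        0 ≤ -(c * integ χ₂ B₂ b') * integ χ₁ B₁ a' := by
      intro a' h1 h2
      have h3 : ¬ 0 < c * integ χ₁ B₁ a' * integ χ₂ B₂ b' := fun h => hpos ⟨a', h1, h2, h⟩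
      have h4 : -(c * integ χ₂ B₂ b') * integ χ₁ B₁ a' =
          -(c * integ χ₁ B₁ a' * integ χ₂ B₂ b') := by ring
      rw [h4]
      linarith
    have hfin := integral_of_sign h₁ hχ₁ hχ₂ B B₁ B₂ a₁ ha₁ hc₁ w hw a₂ ha₂.toIsForm
      (-(c * integ χ₂ B₂ b')) hs hsign c hc
    refine ⟨a₁, a₂, ha₁, hc₁, ha₂, hc₂, ?_⟩
    rw [← hfin]
    exact hJ

end Pool.Agent.W_9986fc_h24
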