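import Pool.Agent.W_9986fc_h24.Prod.Cover
import Pool.Agent.W_9986fc_h15.Stokes

/-!
Wedge products of closed 1-forms.
-/

set_option autoImplicit false
set_option maxSynthPendingDepth 3

open scoped ContDiff
open Pool.Agent.W_9986fc_h15 MeasureTheory

namespace Pool.Agent.W_9986fc_h24

section Wedge

variable {E : Type*} [NormedAddCommGroup E] [NormedSpace ℝ E]
  {Γ : Type*} [Group Γ] [MulAction Γ E]

omit [Group Γ] [MulAction Γ E] in
theorem WedgeF_contDiff {ξ ξ' : E → E →L[ℝ] ℝ} (h : ContDiff ℝ ∞ ξ) (h' : ContDiff ℝ ∞ ξ') :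
    ContDiff ℝ ∞ (fun x => wedge (ξ x) (ξ' x)) := by
  have hb : ContDiff ℝ ∞ (fun p : (E →L[ℝ] ℝ) × (E →L[ℝ] ℝ) => p.1.smulRight p.2) :=
    isBoundedBilinearMap_smulRight.contDiff
  exact (hb.comp (h.prodMk h')).sub (hb.comp (h'.prodMk h))

/-- The wedge product of invariant 1-forms is an invariant 2-form (`wedge_bilinearComp`, Stokes of
helper15). -/
theorem form2_wedge {ξ ξ' : E → E →L[ℝ] ℝ} (h : Form1 Γ ξ) (h' : Form1 Γ ξ') :
    Form2 Γ (fun x => wedge (ξ x) (ξ' x)) := by
  refine { smooth := WedgeF_contDiff h.smooth h'.smooth, alt := ?_, invariant := ?_ }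
  · intro x u
    rw [wedge_apply]
    ring
  · intro g x
    have e1 : (ξ (g • x)).comp (fderiv ℝ (fun x : E => g • x) x) = ξ x := h.invariant g x
    have e2 : (ξ' (g • x)).comp (fderiv ℝ (fun x : E => g • x) x) = ξ' x := h'.invariant g x
    change (wedge (ξ (g • x)) (ξ' (g • x))).bilinearComp (fderiv ℝ (fun x : E => g • x) x)
      (fderiv ℝ (fun x : E => g • x) x) = wedge (ξ x) (ξ' x)
    rw [StokesAux.wedge_bilinearComp, e1, e2]

theorem WedgeF_fderiv {ξ ξ' : E → E →L[ℝ] ℝ} (h : ContDiff ℝ ∞ ξ) (h' : ContDiff ℝ ∞ ξ')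
    (x u v w : E) : fderiv ℝ (fun x => wedge (ξ x) (ξ' x)) x u v w =
      fderiv ℝ ξ x u v * ξ' x w + ξ x v * fderiv ℝ ξ' x u w -
        (fderiv ℝ ξ' x u v * ξ x w + ξ' x v * fderiv ℝ ξ x u w) := by
  have hd : DifferentiableAt ℝ (fun x => wedge (ξ x) (ξ' x)) x :=
    (WedgeF_contDiff h h').differentiable (by simp) x
  have h1 : DifferentiableAt ℝ ξ x := h.differentiable (by simp) x
  have h2 : DifferentiableAt ℝ ξ' x := h'.differentiable (by simp) x
  have e : fderiv ℝ (fun x => wedge (ξ x) (ξ' x)) x u v w =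
      fderiv ℝ (fun x => wedge (ξ x) (ξ' x) v w) x u := by
    have hd2 : DifferentiableAt ℝ (fun x => wedge (ξ x) (ξ' x) v) x :=
      hd.clm_apply (differentiableAt_const v)
    rw [fderiv_clm_apply hd2 (differentiableAt_const w)]
    rw [fderiv_clm_apply hd (differentiableAt_const v)]
    simp
  rw [e]
  have e2 : (fun x => wedge (ξ x) (ξ' x) v w) = fun x => ξ x v * ξ' x w - ξ' x v * ξ x w := by
    funext y
    rw [wedge_apply]
  rw [e2]
  have a1 : HasFDerivAt (fun x => ξ x v) ((fderiv ℝ ξ x).flip v) x := by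
    have := h1.hasFDerivAt.clm_apply (hasFDerivAt_const v x)
    simpa using this
  have a2 : HasFDerivAt (fun x => ξ x w) ((fderiv ℝ ξ x).flip w) x := by
    have := h1.hasFDerivAt.clm_apply (hasFDerivAt_const w x)
    simpa using this
  have b1 : HasFDerivAt (fun x => ξ' x v) ((fderiv ℝ ξ' x).flip v) x := by
    have := h2.hasFDerivAt.clm_apply (hasFDerivAt_const v x)
    simpa using this
  have b2 : HasFDerivAt (fun x => ξ' x w) ((fderiv ℝ ξ' x).flip w) x := by
    have := h2.hasFDerivAt.clm_apply (hasFDerivAt_const w x)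
    simpa using this
  have hh := (a1.fun_mul b2).fun_sub (b1.fun_mul a2)
  rw [hh.fderiv]
  simp only [sub_apply, add_apply, smul_apply, ContinuousLinearMap.flip_apply, smul_eq_mul]
  ring

/-- The wedge product of closed 1-forms is closed. -/
theorem closed_wedge {ξ ξ' : E → E →L[ℝ] ℝ} (h : ContDiff ℝ ∞ ξ) (h' : ContDiff ℝ ∞ ξ')
    (hc : Closed1 ξ) (hc' : Closed1 ξ') : Closed (fun x => wedge (ξ x) (ξ' x)) := by
  intro x u v w
  rw [WedgeF_fderiv h h', WedgeF_fderiv h h', WedgeF_fderiv h h']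
  rw [hc x v u, hc x w v, hc x w u, hc' x v u, hc' x w v, hc' x w u]
  ring

/-- Finite sums of invariant closed forms. -/
theorem form2_sum {ι : Type*} (s : Finset ι) (q : ι → E → E →L[ℝ] E →L[ℝ] ℝ)
    (hq : ∀ i, Form2 Γ (q i)) : Form2 Γ (fun x => ∑ i ∈ s, q i x) := by
  refine { smooth := ContDiff.sum fun i _ => (hq i).smooth, alt := ?_, invariant := ?_ }
  · intro x u
    simp only [sum_apply]
    exact Finset.sum_eq_zero fun i _ => (hq i).alt x u
  · intro g x
    have e : ∀ i, (q i (g • x)).bilinearComp (fderiv ℝ (fun x : E => g • x) x)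
      (fderiv ℝ (fun x : E => g • x) x) = q i x := fun i => (hq i).invariant g x
    change (∑ i ∈ s, q i (g • x)).bilinearComp (fderiv ℝ (fun x : E => g • x) x)
      (fderiv ℝ (fun x : E => g • x) x) = ∑ i ∈ s, q i x
    ext u w
    rw [ContinuousLinearMap.bilinearComp_apply]
    simp only [sum_apply]
    refine Finset.sum_congr rfl fun i _ => ?_
    rw [← e i, ContinuousLinearMap.bilinearComp_apply]

theorem closed_sum {ι : Type*} (s : Finset ι) (q : ι → E → E →L[ℝ] E →L[ℝ] ℝ)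
    (hq : ∀ i, ContDiff ℝ ∞ (q i)) (hc : ∀ i, Closed (q i)) :
    Closed (fun x => ∑ i ∈ s, q i x) := by
  intro x u v w
  have e : fderiv ℝ (fun x => ∑ i ∈ s, q i x) x = ∑ i ∈ s, fderiv ℝ (q i) x :=
    fderiv_fun_sum fun i _ => (hq i).differentiable (by simp) x
  rw [e]
  simp only [sum_apply]
  rw [← Finset.sum_add_distrib, ← Finset.sum_add_distrib]
  exact Finset.sum_eq_zero fun i _ => hc i x u v w

end Wedge

end Pool.Agent.W_9986fc_h24
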